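import Pool.Agent.MP_d5a4a4_al.Mg.Lift

/-!
The isomorphism between the Artin group and the interval group, assuming the key bound.
-/

namespace Pool.Agent.MP_d5a4a4_al

open CoxeterSystem

set_option linter.unusedSectionVars false

variable {B : Type} [Fintype B] [DecidableEq B] {M : CoxeterMatrix B} {W : Type} [Group W]
  {cs : CoxeterSystem M W} {l : List B} {E : (B → ℝ) →ₗ[ℝ] (B → ℝ) →ₗ[ℝ] ℝ}

theorem toLin_al (C : B → B → ℝ) (i j : B) :
    Matrix.toLinearMap₂' ℝ (Matrix.of C) (al i) (al j) = C i j := by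
  simp [al, Matrix.toLinearMap₂'_apply, Pi.single_apply]

theorem bilin_ext {F G : (B → ℝ) →ₗ[ℝ] (B → ℝ) →ₗ[ℝ] ℝ}
    (h : ∀ i j, F (al i) (al j) = G (al i) (al j)) : F = G := by
  refine LinearMap.ext fun x => LinearMap.ext fun y => ?_
  rw [eq_sum_al x, eq_sum_al y]
  simp [h]

theorem exists_euler (M : CoxeterMatrix B) (hl : l.Nodup) (hall : ∀ i, i ∈ l) :
    ∃ E, IsEuler M l E := by
  refine ⟨Matrix.toLinearMap₂' ℝ (Matrix.of fun i j =>
    if i = j then 1 else if l.idxOf j < l.idxOf i then -cc (M i j) else 0), hl, hall, ?_, ?_⟩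
  · intro x y
    set F : (B → ℝ) →ₗ[ℝ] (B → ℝ) →ₗ[ℝ] ℝ := Matrix.toLinearMap₂' ℝ (Matrix.of fun i j =>
      if i = j then (1 : ℝ) else if l.idxOf j < l.idxOf i then -cc (M i j) else 0) with hF
    have : F + F.flip = bf M := bilin_ext fun i j => by
      simp only [LinearMap.add_apply, LinearMap.flip_apply, hF, toLin_al, bf_al_al]
      by_cases h : i = j
      · subst h; simp [cc_one]; ring
      · have h2 : l.idxOf i ≠ l.idxOf j := fun e => h ((List.idxOf_inj (hall i)).mp e)
        rw [if_neg h, if_neg (Ne.symm h), M.symmetric j i]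
        rcases lt_or_gt_of_ne h2 with h3 | h3
        · simp [h3, h3.le]
        · simp [h3, h3.le]
    rw [← this]; rfl
  · rw [List.pairwise_iff_getElem]
    intro i j hi hj hij
    rw [toLin_al, if_neg (fun e => hij.ne ((hl.getElem_inj_iff).mp e)), hl.idxOf_getElem,
      hl.idxOf_getElem, if_neg (by omega)]

theorem alt_of_rec {G : Type} [Group G] {x y : G} {g : ℕ → G} (h1 : g 1 = x)
    (h : ∀ k, g (k + 1) * g k = x * y) (k : ℕ) : g (k + 1) * alt x y k = alt x y (k + 1) := by
  induction k using Nat.strong_induction_on with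
  | _ k ih =>
    match k, ih with
    | 0, _ => simp [alt, h1]
    | k + 1, ih =>
      rw [← ih k (by omega), ← mul_assoc, h, alt_succ', alt_succ', mul_assoc]

theorem exists_iso (hE : IsEuler M l E) (hK : KeyBound cs l E) (leT : W → W → Prop)
    (hle : ∀ a c : W, leT a c ↔ ∃ l₁ l₂ : List W, (∀ t ∈ l₁ ++ l₂, cs.IsReflection t) ∧
      l₁.prod = a ∧ (l₁ ++ l₂).prod = c ∧ ∀ k : List W, (∀ t ∈ k, cs.IsReflection t) →
        k.prod = c → (l₁ ++ l₂).length ≤ k.length) :
    Nonempty
      (PresentedGroup
          (Set.range (fun p : B × B =>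
            ((List.range (M p.1 p.2)).map
                (fun k => FreeGroup.of (if Even k then p.1 else p.2))).prod *
            (((List.range (M p.1 p.2)).map
                (fun k => FreeGroup.of (if Even k then p.2 else p.1))).prod)⁻¹))
        ≃*
       PresentedGroup
          ({r : FreeGroup W | ∃ a c : W, leT a c ∧ leT c (cs.wordProd l) ∧
              r = FreeGroup.of a * FreeGroup.of (a⁻¹ * c) * (FreeGroup.of c)⁻¹} ∪
           {r : FreeGroup W | ∃ u : W, ¬ leT u (cs.wordProd l) ∧ r = FreeGroup.of u})) := by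
  classical
  set RA := Set.range (fun p : B × B =>
            ((List.range (M p.1 p.2)).map
                (fun k => FreeGroup.of (if Even k then p.1 else p.2))).prod *
            (((List.range (M p.1 p.2)).map
                (fun k => FreeGroup.of (if Even k then p.2 else p.1))).prod)⁻¹) with hRA
  set RD := ({r : FreeGroup W | ∃ a c : W, leT a c ∧ leT c (cs.wordProd l) ∧
              r = FreeGroup.of a * FreeGroup.of (a⁻¹ * c) * (FreeGroup.of c)⁻¹} ∪
           {r : FreeGroup W | ∃ u : W, ¬ leT u (cs.wordProd l) ∧ r = FreeGroup.of u}) with hRD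
  have hl := hE.nodup
  have hw : ∀ u, leT u (cs.wordProd l) ↔ ∃ l₁ l₂, Red cs l (l₁ ++ l₂) ∧ l₁.prod = u := by
    intro u
    rw [hle]
    constructor
    · rintro ⟨l₁, l₂, h1, h2, h3, h4⟩
      refine ⟨l₁, l₂, ⟨h1, h3, le_antisymm ?_ (length_le_of_prod hl h1 h3)⟩, h2⟩
      simpa using h4 _ (red_base (cs := cs) l).refl rfl
    · rintro ⟨l₁, l₂, h1, h2⟩
      exact ⟨l₁, l₂, h1.refl, h2, h1.prod, fun k k1 k2 => h1.len ▸ length_le_of_prod hl k1 k2⟩
  have hle1 : ∀ l₁ l₂ l₃, Red cs l (l₁ ++ l₂ ++ l₃) → leT l₁.prod (l₁ ++ l₂).prod := by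
    intro l₁ l₂ l₃ h
    refine (hle _ _).mpr ⟨l₁, l₂, fun t ht => h.refl t (List.mem_append_left _ ht), rfl, rfl,
      fun k k1 k2 => ?_⟩
    have := length_le_of_prod hl (L := k ++ l₃) (fun t ht => by
      rcases List.mem_append.mp ht with ht | ht
      · exact k1 t ht
      · exact h.refl t (List.mem_append_right _ ht)) (by rw [← h.prod, List.prod_append, k2]; simp [mul_assoc])
    have h2 := h.len
    simp only [List.length_append] at this h2 ⊢
    omega
  have hle2 : ∀ a c, leT a c → leT c (cs.wordProd l) →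
      ∃ l₁ l₂ l₃, Red cs l (l₁ ++ l₂ ++ l₃) ∧ l₁.prod = a ∧ (l₁ ++ l₂).prod = c := by
    intro a c h1 h2
    obtain ⟨l₁, l₂, a1, a2, a3, a4⟩ := (hle _ _).mp h1
    obtain ⟨m₁, m₂, b1, b2⟩ := (hw _).mp h2
    have c1 : ∀ t ∈ l₁ ++ l₂ ++ m₂, cs.IsReflection t := fun t ht => by
      rcases List.mem_append.mp ht with ht | ht
      · exact a1 t ht
      · exact b1.refl t (List.mem_append_right _ ht)
    have c2 : (l₁ ++ l₂ ++ m₂).prod = cs.wordProd l := by
      rw [List.prod_append, a3, ← b2, ← List.prod_append, b1.prod]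
    refine ⟨l₁, l₂, m₂, ⟨c1, c2, le_antisymm ?_ (length_le_of_prod hl c1 c2)⟩, a2, a3⟩
    have c3 := a4 m₁ (fun t ht => b1.refl t (List.mem_append_left _ ht)) b2
    have c4 := b1.len
    simp only [List.length_append] at c3 c4 ⊢
    omega
  have hfront : ∀ l₁ l₂ l₃, Red cs l (l₁ ++ l₂ ++ l₃) → ∃ k, Red cs l (l₂ ++ k) := by
    intro l₁ l₂ l₃ h
    refine ⟨l₁.map (fun t => l₂.prod⁻¹ * t * l₂.prod⁻¹⁻¹) ++ l₃, fun t ht => ?_, ?_, ?_⟩
    · simp only [List.mem_append, List.mem_map] at ht
      rcases ht with ht | ⟨r, hr, rfl⟩ | ht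
      · exact h.refl t (by simp [ht])
      · exact (h.refl r (by simp [hr])).conj _
      · exact h.refl t (by simp [ht])
    · rw [← h.prod, List.prod_append, List.prod_append, prod_map_conj]; simp [mul_assoc]
    · rw [← h.len]; simp only [List.length_append, List.length_map]; omega
  -- relations in the interval group
  have hD : ∀ l₁ l₂ l₃, Red cs l (l₁ ++ l₂ ++ l₃) →
      (PresentedGroup.of (l₁ ++ l₂).prod : PresentedGroup RD) =
        PresentedGroup.of l₁.prod * PresentedGroup.of l₂.prod := by
    intro l₁ l₂ l₃ h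
    have h1 : (FreeGroup.of l₁.prod * FreeGroup.of (l₁.prod⁻¹ * (l₁ ++ l₂).prod) *
        (FreeGroup.of (l₁ ++ l₂).prod)⁻¹) ∈ RD :=
      Or.inl ⟨_, _, hle1 _ _ _ h, (hw _).mpr ⟨_, _, h, rfl⟩, rfl⟩
    have h2 := PresentedGroup.one_of_mem h1
    rw [map_mul, map_mul, map_inv, mul_inv_eq_one] at h2
    rw [List.prod_append, inv_mul_cancel_left] at h2
    rw [List.prod_append]
    exact h2.symm
  have hD1 : (PresentedGroup.of (1 : W) : PresentedGroup RD) = 1 := by
    have := hD [] [] _ (red_base (cs := cs) l)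
    simpa using this
  have hDprod : ∀ l₁ l₂, Red cs l (l₁ ++ l₂) → (PresentedGroup.of l₁.prod : PresentedGroup RD) =
      (l₁.map PresentedGroup.of).prod := by
    intro l₁
    induction l₁ using List.reverseRecOn with
    | nil => intro _ _; simpa using hD1
    | append_singleton k t ih =>
      intro l₂ h
      rw [hD k [t] l₂ h, ih ([t] ++ l₂) (by simpa using h)]; simp
  have hDpair : ∀ l₁ t t' l₂, Red cs l (l₁ ++ t :: t' :: l₂) →
      (PresentedGroup.of t * PresentedGroup.of t' : PresentedGroup RD) = PresentedGroup.of (t * t') := by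
    intro l₁ t t' l₂ h
    obtain ⟨k, hk⟩ := hfront l₁ [t, t'] l₂ (by simpa using h)
    simpa using (hDprod _ _ hk).symm
  -- braid relations
  have hA : Braid M (fun i => (PresentedGroup.of i : PresentedGroup RA)) := by
    intro i j
    have h2 := PresentedGroup.one_of_mem (rels := RA) ⟨(i, j), rfl⟩
    simp only [prod_range_eq_alt FreeGroup.of, map_mul, map_inv, map_alt, mul_inv_eq_one] at h2
    exact h2
  have hbr : Braid M (fun i => (PresentedGroup.of (cs.simple i) : PresentedGroup RD)) := by
    have key : ∀ i j l₁ l₂ l₃, l = l₁ ++ i :: l₂ ++ j :: l₃ →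
        alt (PresentedGroup.of (cs.simple i) : PresentedGroup RD) (PresentedGroup.of (cs.simple j))
          (M i j) = alt (PresentedGroup.of (cs.simple j)) (PresentedGroup.of (cs.simple i)) (M i j) := by
      intro i j l₁ l₂ l₃ e
      have h1 : Red cs l (l₁.map cs.simple ++ [cs.simple i] ++ l₂.map cs.simple ++
          cs.simple j :: l₃.map cs.simple) := by
        have := red_base (cs := cs) l
        nth_rewrite 2 [e] at this
        simpa using this
      obtain ⟨K, hK⟩ : ∃ K, Red cs l (K ++ [cs.simple i, cs.simple j] ++ l₃.map cs.simple) := by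
        refine ⟨l₁.map cs.simple ++ (l₂.map cs.simple).map
          (fun t => cs.simple i * t * (cs.simple i)⁻¹), fun t ht => ?_, ?_, ?_⟩
        · simp only [List.mem_append, List.mem_map, List.mem_cons, List.not_mem_nil, or_false] at ht
          rcases ht with ((⟨r, -, rfl⟩ | ⟨_, ⟨r, -, rfl⟩, rfl⟩) | rfl | rfl) | ⟨r, -, rfl⟩
          · exact cs.isReflection_simple _
          · exact (cs.isReflection_simple _).conj _
          · exact cs.isReflection_simple _
          · exact cs.isReflection_simple _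
          · exact cs.isReflection_simple _
        · rw [← h1.prod, List.prod_append, List.prod_append, List.prod_append, prod_map_conj]
          simp [mul_assoc]
        · rw [← h1.len]; simp only [List.length_append, List.length_map, List.length_cons,
            List.length_nil]; omega
      have hi := cs.isReflection_simple i
      have hj := cs.isReflection_simple j
      have h2 : ∀ k : ℤ, (PresentedGroup.of (tau (cs.simple i) (cs.simple j) (k + 1)) *
          PresentedGroup.of (tau (cs.simple i) (cs.simple j) k) : PresentedGroup RD) =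
          PresentedGroup.of (cs.simple i * cs.simple j) := fun k => by
        have := hK.replace (K := [tau (cs.simple i) (cs.simple j) (k + 1),
          tau (cs.simple i) (cs.simple j) k]) (by simp [tau_refl hi hj])
          (by simp [tau_succ_mul hi hj]) rfl
        rw [hDpair K _ _ _ (by simpa using this), tau_succ_mul hi hj]
      rcases Nat.eq_zero_or_pos (M i j) with h0 | h0
      · rw [h0]; rfl
      obtain ⟨m, hm⟩ : ∃ m, M i j = m + 1 := ⟨M i j - 1, by omega⟩
      have h3 := alt_of_rec (x := (PresentedGroup.of (cs.simple i) : PresentedGroup RD))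
        (y := PresentedGroup.of (cs.simple j))
        (g := fun k : ℕ => PresentedGroup.of (tau (cs.simple i) (cs.simple j) k))
        (by simp [tau_one' hi hj]) (fun k => by
          have a0 := h2 0
          rw [zero_add, tau_one' hi hj, tau_zero' hi hj] at a0
          rw [a0, ← h2 k]; push_cast; rfl) m
      have h4 : tau (cs.simple i) (cs.simple j) ((m + 1 : ℕ) : ℤ) = cs.simple j := by
        rw [tau, zpow_natCast, ← hm, simple_mul_simple_pow, one_mul]
      simp only [h4] at h3
      rw [hm, ← h3, alt_succ']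
    intro i j
    by_cases hij : i = j
    · rw [hij]
    obtain ⟨l₁, l₂, e⟩ := List.append_of_mem (hE.all i)
    have hj := hE.all j
    rw [e, List.mem_append, List.mem_cons] at hj
    rcases hj with hj | hj | hj
    · obtain ⟨k₁, k₂, rfl⟩ := List.append_of_mem hj
      have := key j i k₁ k₂ l₂ (by simp [e])
      rw [M.symmetric j i] at this
      exact this.symm
    · exact (hij hj.symm).elim
    · obtain ⟨k₁, k₂, rfl⟩ := List.append_of_mem hj
      exact key i j l₁ k₁ k₂ (by simp [e])
  obtain ⟨L, hL1, hL2⟩ := exists_lift hE hK hA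
  have hLprod : ∀ k, Red cs l k → (k.map L).prod = ((l.map cs.simple).map L).prod := by
    intro k hk
    refine Red.induction (P := fun k => (k.map L).prod = ((l.map cs.simple).map L).prod) hl rfl
      ?_ hk
    rintro _ _ h ⟨l₁, t, t', l₂, rfl, rfl⟩
    have := hL2 l₁ t t' l₂ h
    simp only [List.map_append, List.map_cons, List.prod_append, List.prod_cons, ← mul_assoc]
    rw [mul_assoc _ (L t), this, ← mul_assoc]
  let ψ : W → PresentedGroup RA := fun u =>
    if h : ∃ p : List W × List W, Red cs l (p.1 ++ p.2) ∧ p.1.prod = u then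
      (h.choose.1.map L).prod else 1
  have hψ : ∀ l₁ l₂, Red cs l (l₁ ++ l₂) → ψ l₁.prod = (l₁.map L).prod := by
    intro l₁ l₂ h
    have hex : ∃ p : List W × List W, Red cs l (p.1 ++ p.2) ∧ p.1.prod = l₁.prod := ⟨(l₁, l₂), h, rfl⟩
    simp only [ψ, dif_pos hex]
    obtain ⟨a1, a2⟩ := hex.choose_spec
    have a3 : hex.choose.2.prod = l₂.prod := by
      have := a1.prod.trans h.prod.symm
      rw [List.prod_append, List.prod_append, a2] at this
      exact mul_left_cancel this
    have a4 := (hLprod _ (a1.swap hl h a3)).trans (hLprod _ h).symm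
    rw [List.map_append, List.map_append, List.prod_append, List.prod_append] at a4
    exact mul_right_cancel a4
  let Φ : PresentedGroup RA →* PresentedGroup RD :=
    PresentedGroup.toGroup (f := fun i => PresentedGroup.of (cs.simple i)) (by
      rintro _ ⟨⟨i, j⟩, rfl⟩
      simp only [prod_range_eq_alt FreeGroup.of, map_mul, map_inv, map_alt, mul_inv_eq_one,
        FreeGroup.lift_apply_of]
      exact hbr i j)
  let Ψ : PresentedGroup RD →* PresentedGroup RA :=
    PresentedGroup.toGroup (f := ψ) (by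
      rintro _ (⟨a, c, h1, h2, rfl⟩ | ⟨u, hu, rfl⟩)
      · obtain ⟨l₁, l₂, l₃, h, rfl, rfl⟩ := hle2 a c h1 h2
        obtain ⟨k, hk⟩ := hfront _ _ _ h
        simp only [map_mul, map_inv, mul_inv_eq_one, FreeGroup.lift_apply_of]
        rw [hψ _ _ h, hψ l₁ (l₂ ++ l₃) (by simpa using h), List.prod_append, inv_mul_cancel_left,
          hψ _ _ hk, List.map_append, List.prod_append]
      · rw [FreeGroup.lift_apply_of]
        exact dif_neg fun ⟨p, hp⟩ => hu ((hw u).mpr ⟨p.1, p.2, hp⟩))
  have hΦL : ∀ k, Red cs l k → ∀ t ∈ k, Φ (L t) = PresentedGroup.of t := by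
    intro k hk
    refine Red.induction (P := fun k => ∀ t ∈ k, Φ (L t) = PresentedGroup.of t) hl ?_ ?_ hk
    · intro t ht
      obtain ⟨i, -, rfl⟩ := List.mem_map.mp ht
      rw [hL1]; exact PresentedGroup.toGroup.of _
    · rintro _ _ h ⟨l₁, t, t', l₂, rfl, rfl⟩
      have a1 := congrArg Φ (hL2 l₁ t t' l₂ h)
      have a2 := hDpair _ _ _ _ h
      have a3 := hDpair _ _ _ _ ((Step.red_iff ⟨l₁, t, t', l₂, rfl, rfl⟩).mp h)
      rw [inv_mul_cancel_right, ← a2] at a3
      rw [map_mul, map_mul] at a1
      simp only [List.mem_append, List.mem_cons, or_imp, forall_and, forall_eq]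
      constructor
      · rintro ⟨b1, b2, b3, b4⟩
        refine ⟨b1, ?_, b2, b4⟩
        rw [b2, b3, ← a3] at a1
        exact (mul_right_cancel a1).symm
      · rintro ⟨b1, b2, b3, b4⟩
        refine ⟨b1, b3, ?_, b4⟩
        rw [b2, b3, a3] at a1
        exact mul_left_cancel a1
  refine ⟨MonoidHom.toMulEquiv Φ Ψ ?_ ?_⟩
  · refine PresentedGroup.ext fun i => ?_
    obtain ⟨l₁, l₂, e⟩ := List.append_of_mem (hE.all i)
    have h1 : Red cs l (l₁.map cs.simple ++ [cs.simple i] ++ l₂.map cs.simple) := by
      have := red_base (cs := cs) l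
      nth_rewrite 2 [e] at this
      simpa using this
    obtain ⟨k, hk⟩ := hfront _ _ _ h1
    have := hψ _ _ hk
    simp only [List.prod_singleton, List.map_singleton, hL1] at this
    simp only [MonoidHom.comp_apply, MonoidHom.id_apply, Φ, Ψ, PresentedGroup.toGroup.of, this]
  · refine PresentedGroup.ext fun u => ?_
    simp only [MonoidHom.comp_apply, MonoidHom.id_apply, Ψ, PresentedGroup.toGroup.of]
    by_cases hu : leT u (cs.wordProd l)
    · obtain ⟨l₁, l₂, h, rfl⟩ := (hw u).mp hu
      rw [hψ _ _ h, hDprod _ _ h, map_list_prod, List.map_map]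
      congr 1
      exact List.map_congr_left fun t ht => hΦL _ h t (List.mem_append_left _ ht)
    · have : ψ u = 1 := dif_neg fun ⟨p, hp⟩ => hu ((hw u).mpr ⟨p.1, p.2, hp⟩)
      rw [this, map_one]
      exact (PresentedGroup.one_of_mem (rels := RD) (Or.inr ⟨u, hu, rfl⟩)).symm

end Pool.Agent.MP_d5a4a4_al
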