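import Pool.Agent.MP_d5a4a4_al.Mg.Unfold
import Pool.Agent.MP_d5a4a4_al.H32.Defs

/-! The natural map from the Artin group to the dual Artin group is an isomorphism. -/

set_option linter.unusedSectionVars false

namespace Pool.Agent.MP_d5a4a4_al.H32

open CoxeterSystem

section
variable {B W W' : Type*} [Group W] [Group W'] {M : CoxeterMatrix B} {cs : CoxeterSystem M W}
  {cs' : CoxeterSystem M W'}

theorem lT_le {l : List W} (h : ∀ t ∈ l, cs.IsReflection t) : lT cs l.prod ≤ l.length :=
  Nat.sInf_le ⟨l, h, rfl, rfl⟩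

variable (cs) in
theorem exists_lT (u : W) :
    ∃ l : List W, (∀ t ∈ l, cs.IsReflection t) ∧ l.prod = u ∧ l.length = lT cs u := by
  obtain ⟨ω, rfl⟩ := cs.wordProd_surjective u
  refine Nat.sInf_mem (s := {k | ∃ l : List W, (∀ t ∈ l, cs.IsReflection t) ∧
    l.prod = cs.wordProd ω ∧ l.length = k}) ⟨_, ω.map cs.simple, fun t ht => ?_, rfl, rfl⟩
  obtain ⟨i, -, rfl⟩ := List.mem_map.mp ht
  exact cs.isReflection_simple i

theorem lT_mul_le (u v : W) : lT cs (u * v) ≤ lT cs u + lT cs v := by
  obtain ⟨l, h1, rfl, h3⟩ := exists_lT cs u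
  obtain ⟨k, k1, rfl, k3⟩ := exists_lT cs v
  rw [← h3, ← k3, ← List.prod_append, ← List.length_append]
  exact lT_le fun t ht => (List.mem_append.1 ht).elim (h1 t) (k1 t)

theorem lT_map_le (e : W ≃* W') (he : ∀ i, e (cs.simple i) = cs'.simple i) (u : W) :
    lT cs' (e u) ≤ lT cs u := by
  obtain ⟨l, h1, rfl, h3⟩ := exists_lT cs u
  rw [← h3, map_list_prod, ← List.length_map e]
  refine lT_le fun t ht => ?_
  obtain ⟨r, hr, rfl⟩ := List.mem_map.mp ht
  obtain ⟨y, i, rfl⟩ := h1 r hr
  exact ⟨e y, i, by simp [he]⟩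

theorem lT_map (e : W ≃* W') (he : ∀ i, e (cs.simple i) = cs'.simple i) (u : W) :
    lT cs' (e u) = lT cs u :=
  le_antisymm (lT_map_le e he u) (by
    simpa using lT_map_le (cs := cs') (cs' := cs) e.symm (fun i => by rw [← he]; simp) (e u))

theorem altWord_eq {G : Type*} [Monoid G] (a b : G) (m : ℕ) : altWord a b m = alt a b m :=
  prod_range_eq_alt id a b m

theorem alt_rec {G : Type*} [Group G] {x y : G} {g : ℕ → G} (h1 : g 1 = x)
    (h : ∀ k, g (k + 1) * g k = x * y) (k : ℕ) : g (k + 1) * alt x y k = alt x y (k + 1) := by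
  induction k using Nat.strong_induction_on with
  | _ k ih =>
    match k, ih with
    | 0, _ => simp [alt, h1]
    | k + 1, ih =>
      rw [← ih k (by omega), ← mul_assoc, h, alt_succ', alt_succ', mul_assoc]

end

variable {B : Type} [Fintype B] [DecidableEq B] {M : CoxeterMatrix B} {W : Type} [Group W]
  {cs : CoxeterSystem M W} {l : List B}

theorem orderOf_simple {i j : B} (hij : i ≠ j) : orderOf (cs.simple i * cs.simple j) = M i j := by
  have key : ∀ k, 0 < k → (M i j = 0 ∨ k < M i j) → (cs.simple i * cs.simple j) ^ k ≠ 1 := by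
    intro k k0 hk e
    have h1 := alt_refl_apply (M := M) (bf_al_self i) (bf_al_self j) (bf_al_al i j) (2 * k)
    rw [← rho_simple cs, ← rho_simple cs, ← map_alt, alt_two_mul, e, map_one,
      if_pos (even_two_mul k)] at h1
    have h2 := congrFun h1 j
    have h3 := congrFun h1 i
    simp [al_apply, hij, hij.symm] at h2 h3
    have h4 := M.off_diagonal i j hij
    rcases hk with h0 | hk
    · rw [h0, cc_zero, U_two] at h2
      exact k0.ne' (by simpa using h2)
    rcases lt_trichotomy (2 * k) (M i j) with h | h | h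
    · exact (U_pos (by omega) h).ne h2
    · rw [h, add_comm, U_add_self (by omega)] at h3
      simp [U] at h3
      linarith
    · have h5 := U_pos (m := M i j) (k := 2 * k - M i j) (by omega) (by omega)
      rw [show 2 * k = 2 * k - M i j + M i j by omega, U_add_self (by omega)] at h2
      linarith
  rcases Nat.eq_zero_or_pos (M i j) with h0 | h0
  · rw [h0, orderOf_eq_zero_iff']
    exact fun k hk => key k hk (Or.inl h0)
  · exact (orderOf_eq_iff h0).2 ⟨cs.simple_mul_simple_pow i j, fun k h1 h2 => key k h2 (Or.inr h1)⟩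

theorem front {l₁ l₂ l₃ : List W} (h : Red cs l (l₁ ++ l₂ ++ l₃)) : ∃ k, Red cs l (l₂ ++ k) := by
  refine ⟨l₁.map (fun t => l₂.prod⁻¹ * t * l₂.prod⁻¹⁻¹) ++ l₃, fun t ht => ?_, ?_, ?_⟩
  · simp only [List.mem_append, List.mem_map] at ht
    rcases ht with ht | ⟨r, hr, rfl⟩ | ht
    · exact h.refl t (by simp [ht])
    · exact (h.refl r (by simp [hr])).conj _
    · exact h.refl t (by simp [ht])
  · rw [← h.prod, List.prod_append, List.prod_append, prod_map_conj]; simp [mul_assoc]
  · rw [← h.len]; simp only [List.length_append, List.length_map]; omega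

theorem lT_top (hl : l.Nodup) : lT cs (cs.wordProd l) = l.length := by
  obtain ⟨k, k1, k2, k3⟩ := exists_lT cs (cs.wordProd l)
  refine le_antisymm ?_ (k3 ▸ length_le_of_prod hl k1 k2)
  have h := lT_le (red_base (cs := cs) l).refl
  rwa [(red_base (cs := cs) l).prod, List.length_map] at h

theorem red_lT (hl : l.Nodup) {l₁ l₂ : List W} (h : Red cs l (l₁ ++ l₂)) :
    lT cs l₁.prod = l₁.length ∧ absLe cs l₁.prod (cs.wordProd l) := by
  have h1 := lT_le (cs := cs) (l := l₁) fun t ht => h.refl t (List.mem_append_left _ ht)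
  have h2 := lT_le (cs := cs) (l := l₂) fun t ht => h.refl t (List.mem_append_right _ ht)
  have h3 := lT_mul_le (cs := cs) l₁.prod l₂.prod
  have h4 := h.len
  have h5 := lT_top (cs := cs) hl
  rw [← List.prod_append, h.prod] at h3
  rw [List.length_append] at h4
  refine ⟨by omega, ?_⟩
  rw [absLe, h5, ← h.prod, List.prod_append, inv_mul_cancel_left]
  omega

theorem exists_red (hl : l.Nodup) {u v : W} (h : absLe cs (u * v) (cs.wordProd l))
    (e : lT cs (u * v) = lT cs u + lT cs v) :
    ∃ l₁ l₂ l₃, Red cs l (l₁ ++ l₂ ++ l₃) ∧ l₁.prod = u ∧ l₂.prod = v := by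
  obtain ⟨l₁, a1, rfl, a3⟩ := exists_lT cs u
  obtain ⟨l₂, b1, rfl, b3⟩ := exists_lT cs v
  obtain ⟨l₃, c1, c2, c3⟩ := exists_lT cs ((l₁.prod * l₂.prod)⁻¹ * cs.wordProd l)
  refine ⟨l₁, l₂, l₃, ⟨fun t ht => ?_, ?_, ?_⟩, rfl, rfl⟩
  · simp only [List.mem_append] at ht
    rcases ht with (ht | ht) | ht
    exacts [a1 t ht, b1 t ht, c1 t ht]
  · rw [List.prod_append, List.prod_append, c2, mul_inv_cancel_left]
  · rw [absLe, lT_top hl] at h
    simp only [List.length_append]
    omega

variable (cs l) in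
/-- `d` is multiplicative on the interval. -/
def Mult {D : Type*} [Group D] (d : W → D) : Prop :=
  ∀ l₁ l₂ l₃, Red cs l (l₁ ++ l₂ ++ l₃) → d (l₁ ++ l₂).prod = d l₁.prod * d l₂.prod

variable {D : Type*} [Group D] {d d' : W → D}

theorem Mult.prod (hd : Mult cs l d) (l₁ : List W) :
    ∀ l₂, Red cs l (l₁ ++ l₂) → d l₁.prod = (l₁.map d).prod := by
  induction l₁ using List.reverseRecOn with
  | nil =>
    intro _ _
    simpa using hd [] [] _ (red_base (cs := cs) l)
  | append_singleton k t ih =>
    intro l₂ h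
    rw [hd k [t] l₂ h, ih ([t] ++ l₂) (by simpa using h)]; simp

theorem Mult.pair (hd : Mult cs l d) (l₁ : List W) (t t' : W) (l₂ : List W)
    (h : Red cs l (l₁ ++ t :: t' :: l₂)) : d t * d t' = d (t * t') := by
  obtain ⟨k, hk⟩ := front (l₁ := l₁) (l₂ := [t, t']) (l₃ := l₂) (by simpa using h)
  simpa using (hd.prod _ _ hk).symm

theorem Mult.braid (hd : Mult cs l d) (hall : ∀ i, i ∈ l) : ∀ i j,
    alt (d (cs.simple i)) (d (cs.simple j)) (M i j) =
      alt (d (cs.simple j)) (d (cs.simple i)) (M i j) := by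
  have key : ∀ i j l₁ l₂ l₃, l = l₁ ++ i :: l₂ ++ j :: l₃ →
      alt (d (cs.simple i)) (d (cs.simple j))
        (M i j) = alt (d (cs.simple j)) (d (cs.simple i)) (M i j) := by
    intro i j l₁ l₂ l₃ e
    have h1 : Red cs l (l₁.map cs.simple ++ [cs.simple i] ++ l₂.map cs.simple ++
        cs.simple j :: l₃.map cs.simple) := by
      have := red_base (cs := cs) l
      nth_rewrite 2 [e] at this
      simpa using this
    obtain ⟨K, hK⟩ : ∃ K, Red cs l (K ++ [cs.simple i, cs.simple j] ++ l₃.map cs.simple) := by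
      refine ⟨l₁.map cs.simple ++ (l₂.map cs.simple).map
        (fun t => cs.simple i * t * (cs.simple i)⁻¹), fun t ht => ?_, ?_, ?_⟩
      · simp only [List.mem_append, List.mem_map, List.mem_cons, List.not_mem_nil, or_false] at ht
        rcases ht with ((⟨r, -, rfl⟩ | ⟨_, ⟨r, -, rfl⟩, rfl⟩) | rfl | rfl) | ⟨r, -, rfl⟩
        · exact cs.isReflection_simple _
        · exact (cs.isReflection_simple _).conj _
        · exact cs.isReflection_simple _
        · exact cs.isReflection_simple _
        · exact cs.isReflection_simple _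
      · rw [← h1.prod, List.prod_append, List.prod_append, List.prod_append, prod_map_conj]
        simp [mul_assoc]
      · rw [← h1.len]; simp only [List.length_append, List.length_map, List.length_cons,
          List.length_nil]; omega
    have hi := cs.isReflection_simple i
    have hj := cs.isReflection_simple j
    have h2 : ∀ k : ℤ, (d (tau (cs.simple i) (cs.simple j) (k + 1)) *
        d (tau (cs.simple i) (cs.simple j) k)) =
        d (cs.simple i * cs.simple j) := fun k => by
      have := hK.replace (K := [tau (cs.simple i) (cs.simple j) (k + 1),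
        tau (cs.simple i) (cs.simple j) k]) (by simp [tau_refl hi hj])
        (by simp [tau_succ_mul hi hj]) rfl
      rw [hd.pair K _ _ _ (by simpa using this), tau_succ_mul hi hj]
    rcases Nat.eq_zero_or_pos (M i j) with h0 | h0
    · rw [h0]; rfl
    obtain ⟨m, hm⟩ : ∃ m, M i j = m + 1 := ⟨M i j - 1, by omega⟩
    have h3 := alt_rec (x := (d (cs.simple i)))
      (y := d (cs.simple j))
      (g := fun k : ℕ => d (tau (cs.simple i) (cs.simple j) k))
      (by simp [tau_one' hi hj]) (fun k => by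
        have a0 := h2 0
        rw [zero_add, tau_one' hi hj, tau_zero' hi hj] at a0
        rw [a0, ← h2 k]; push_cast; rfl) m
    have h4 : tau (cs.simple i) (cs.simple j) ((m + 1 : ℕ) : ℤ) = cs.simple j := by
      rw [tau, zpow_natCast, ← hm, simple_mul_simple_pow, one_mul]
    simp only [h4] at h3
    rw [hm, ← h3, alt_succ']
  intro i j
  by_cases hij : i = j
  · rw [hij]
  obtain ⟨l₁, l₂, e⟩ := List.append_of_mem (hall i)
  have hj := hall j
  rw [e, List.mem_append, List.mem_cons] at hj
  rcases hj with hj | hj | hj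
  · obtain ⟨k₁, k₂, rfl⟩ := List.append_of_mem hj
    have := key j i k₁ k₂ l₂ (by simp [e])
    rw [M.symmetric j i] at this
    exact this.symm
  · exact (hij hj.symm).elim
  · obtain ⟨k₁, k₂, rfl⟩ := List.append_of_mem hj
    exact key i j l₁ k₁ k₂ (by simp [e])

theorem Mult.ext (hl : l.Nodup) (hd : Mult cs l d) (hd' : Mult cs l d')
    (h0 : ∀ i, d (cs.simple i) = d' (cs.simple i)) {l₁ l₂ : List W} (h : Red cs l (l₁ ++ l₂)) :
    d l₁.prod = d' l₁.prod := by
  have key : ∀ k, Red cs l k → ∀ t ∈ k, d t = d' t := by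
    intro k hk
    refine Red.induction (P := fun k => ∀ t ∈ k, d t = d' t) hl ?_ ?_ hk
    · intro t ht
      obtain ⟨i, -, rfl⟩ := List.mem_map.mp ht
      exact h0 i
    · rintro _ _ h ⟨l₁, t, t', l₂, rfl, rfl⟩
      have h' := (Step.red_iff ⟨l₁, t, t', l₂, rfl, rfl⟩).mp h
      have a1 := hd.pair _ _ _ _ h'
      have a3 := hd'.pair _ _ _ _ h'
      rw [inv_mul_cancel_right, ← hd.pair _ _ _ _ h] at a1
      rw [inv_mul_cancel_right, ← hd'.pair _ _ _ _ h] at a3
      simp only [List.mem_append, List.mem_cons, or_imp, forall_and, forall_eq]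
      constructor
      · rintro ⟨b1, b2, b3, b4⟩
        refine ⟨b1, ?_, b2, b4⟩
        rw [b2, b3, ← a3] at a1
        exact mul_right_cancel a1
      · rintro ⟨b1, b2, b3, b4⟩
        refine ⟨b1, b3, ?_, b4⟩
        rw [b2, b3, a3] at a1
        exact (mul_left_cancel a1).symm
  rw [hd.prod _ _ h, hd'.prod _ _ h]
  exact congrArg List.prod (List.map_congr_left fun t ht => key _ h t (List.mem_append_left _ ht))

theorem red_simple {i : B} (hi : i ∈ l) : ∃ k, Red cs l ([cs.simple i] ++ k) := by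
  obtain ⟨l₁, l₂, e⟩ := List.append_of_mem hi
  refine front (l₁ := l₁.map cs.simple) (l₃ := l₂.map cs.simple) ?_
  have := red_base (cs := cs) l
  nth_rewrite 2 [e] at this
  simpa using this

theorem exists_mult (hl : l.Nodup) (hall : ∀ i, i ∈ l) {A : Type} [Group A] {a : B → A}
    (hA : Braid M a) : ∃ ψ : W → A, Mult cs l ψ ∧ ∀ i, ψ (cs.simple i) = a i := by
  classical
  obtain ⟨E, hE⟩ := exists_euler M hl hall
  obtain ⟨L, hL1, hL2⟩ := exists_lift hE (keyBound (cs := cs) hE) hA
  have hLprod : ∀ k, Red cs l k → (k.map L).prod = ((l.map cs.simple).map L).prod := by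
    intro k hk
    refine Red.induction (P := fun k => (k.map L).prod = ((l.map cs.simple).map L).prod) hl rfl
      ?_ hk
    rintro _ _ h ⟨l₁, t, t', l₂, rfl, rfl⟩
    have := hL2 l₁ t t' l₂ h
    simp only [List.map_append, List.map_cons, List.prod_append, List.prod_cons, ← mul_assoc]
    rw [mul_assoc _ (L t), this, ← mul_assoc]
  let ψ : W → A := fun u =>
    if h : ∃ p : List W × List W, Red cs l (p.1 ++ p.2) ∧ p.1.prod = u then
      (h.choose.1.map L).prod else 1
  have hψ : ∀ l₁ l₂, Red cs l (l₁ ++ l₂) → ψ l₁.prod = (l₁.map L).prod := by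
    intro l₁ l₂ h
    have hex : ∃ p : List W × List W, Red cs l (p.1 ++ p.2) ∧ p.1.prod = l₁.prod := ⟨(l₁, l₂), h, rfl⟩
    simp only [ψ, dif_pos hex]
    obtain ⟨a1, a2⟩ := hex.choose_spec
    have a3 : hex.choose.2.prod = l₂.prod := by
      have := a1.prod.trans h.prod.symm
      rw [List.prod_append, List.prod_append, a2] at this
      exact mul_left_cancel this
    have a4 := (hLprod _ (a1.swap hl h a3)).trans (hLprod _ h).symm
    rw [List.map_append, List.map_append, List.prod_append, List.prod_append] at a4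
    exact mul_right_cancel a4
  refine ⟨ψ, fun l₁ l₂ l₃ h => ?_, fun i => ?_⟩
  · obtain ⟨k, hk⟩ := front h
    rw [hψ _ _ h, hψ l₁ (l₂ ++ l₃) (by simpa using h), hψ _ _ hk, List.map_append,
      List.prod_append]
  · obtain ⟨k, hk⟩ := red_simple (cs := cs) (hall i)
    simpa [hL1] using hψ _ _ hk

theorem natural {W' : Type*} [Group W'] (cs' : CoxeterSystem M W') (hl : l.Nodup)
    (hall : ∀ i, i ∈ l) :
    ∃ φ : PresentedGroup (artinRels cs') ≃* PresentedGroup (dualRels cs' (cs'.wordProd l)),
      ∀ i, ∃ h : absLe cs' (cs'.simple i) (cs'.wordProd l),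
        φ (PresentedGroup.of i) = PresentedGroup.of ⟨cs'.simple i, h⟩ := by
  classical
  set cs := M.toCoxeterSystem
  set e : M.Group ≃* W' := cs'.mulEquiv.symm
  have he : ∀ i, e (cs.simple i) = cs'.simple i := fun i => rfl
  have hw : e (cs.wordProd l) = cs'.wordProd l := by
    simp only [wordProd, map_list_prod, List.map_map]
    rfl
  have hT := lT_map e he
  have hle : ∀ u, absLe cs' (e u) (cs'.wordProd l) ↔ absLe cs u (cs.wordProd l) := fun u => by
    rw [absLe, absLe, ← hw, ← map_inv, ← map_mul, hT, hT, hT]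
  have ho : ∀ i j, i ≠ j → orderOf (cs'.simple i * cs'.simple j) = M i j := fun i j h => by
    rw [← he, ← he, ← map_mul, MulEquiv.orderOf_eq, orderOf_simple h]
  let d : M.Group → PresentedGroup (dualRels cs' (cs'.wordProd l)) := fun u =>
    if h : absLe cs' (e u) (cs'.wordProd l) then PresentedGroup.of ⟨e u, h⟩ else 1
  have hd : Mult cs l d := fun l₁ l₂ l₃ h => by
    obtain ⟨k, hk⟩ := front h
    obtain ⟨a1, a2⟩ := red_lT hl h
    obtain ⟨b1, b2⟩ := red_lT hl (l₁ := l₁) (l₂ := l₂ ++ l₃) (by simpa using h)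
    obtain ⟨c1, c2⟩ := red_lT hl hk
    simp only [d, dif_pos ((hle _).2 a2), dif_pos ((hle _).2 b2), dif_pos ((hle _).2 c2)]
    have h2 := PresentedGroup.one_of_mem (rels := dualRels cs' (cs'.wordProd l))
      ⟨⟨_, (hle _).2 b2⟩, ⟨_, (hle _).2 c2⟩, ⟨_, (hle _).2 a2⟩, by simp,
        by simp only [hT, a1, b1, c1, List.length_append], rfl⟩
    rw [map_mul, map_mul, map_inv, mul_inv_eq_one] at h2
    exact h2.symm
  have hA : Braid M fun i => (PresentedGroup.of i : PresentedGroup (artinRels cs')) := by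
    intro i j
    by_cases hij : i = j
    · rw [hij]
    rcases Nat.eq_zero_or_pos (M i j) with h0 | h0
    · rw [h0]; rfl
    have h2 := PresentedGroup.one_of_mem (rels := artinRels cs')
      ⟨i, j, hij, orderOf_pos_iff.1 (ho i j hij ▸ h0), rfl⟩
    simp only [ho i j hij, altWord_eq, map_mul, map_inv, map_alt, mul_inv_eq_one] at h2
    exact h2
  obtain ⟨ψ, hψ, hψ0⟩ := exists_mult (cs := cs) hl hall hA
  have hs : ∀ i, absLe cs' (cs'.simple i) (cs'.wordProd l) := fun i => by
    obtain ⟨k, hk⟩ := red_simple (cs := cs) (hall i)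
    simpa [he] using (hle _).2 (red_lT hl hk).2
  have hd0 : ∀ i, d (cs.simple i) = PresentedGroup.of ⟨cs'.simple i, hs i⟩ := fun i => dif_pos (hs i)
  let Φ : PresentedGroup (artinRels cs') →* PresentedGroup (dualRels cs' (cs'.wordProd l)) :=
    PresentedGroup.toGroup (f := fun i => d (cs.simple i)) (by
      rintro _ ⟨i, j, hij, -, rfl⟩
      simp only [ho i j hij, altWord_eq, map_mul, map_inv, map_alt, mul_inv_eq_one,
        FreeGroup.lift_apply_of]
      exact hd.braid hall i j)
  let Ψ : PresentedGroup (dualRels cs' (cs'.wordProd l)) →* PresentedGroup (artinRels cs') :=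
    PresentedGroup.toGroup (f := fun u => ψ (e.symm u.1)) (by
      rintro _ ⟨⟨u, hu⟩, ⟨v, hv⟩, ⟨p, hp⟩, h1, h2, rfl⟩
      obtain ⟨u, rfl⟩ := e.surjective u
      obtain ⟨v, rfl⟩ := e.surjective v
      obtain rfl : p = e (u * v) := by rw [map_mul]; exact h1
      obtain ⟨l₁, l₂, l₃, h, rfl, rfl⟩ := exists_red hl ((hle _).1 hp) (by simpa only [hT] using h2)
      simp only [map_mul, map_inv, mul_inv_eq_one, FreeGroup.lift_apply_of,
        MulEquiv.symm_apply_apply]
      rw [← hψ _ _ _ h, List.prod_append])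
  refine ⟨MonoidHom.toMulEquiv Φ Ψ ?_ ?_, fun i => ⟨hs i, ?_⟩⟩
  · refine PresentedGroup.ext fun i => ?_
    simp only [MonoidHom.comp_apply, MonoidHom.id_apply, Φ, Ψ, PresentedGroup.toGroup.of, hd0]
    rw [← he, MulEquiv.symm_apply_apply, hψ0]
  · refine PresentedGroup.ext fun ⟨u, hu⟩ => ?_
    obtain ⟨u, rfl⟩ := e.surjective u
    simp only [MonoidHom.comp_apply, MonoidHom.id_apply, Ψ, PresentedGroup.toGroup.of,
      MulEquiv.symm_apply_apply]
    obtain ⟨l₁, l₂, l₃, h, rfl, -⟩ := exists_red hl (u := u) (v := 1)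
      (by simpa using (hle _).1 hu) (by
        have := lT_le (cs := cs) (l := []) (by simp)
        simp only [List.prod_nil, List.length_nil] at this
        rw [mul_one]
        omega)
    rw [Mult.ext (d := fun u => Φ (ψ u)) hl (fun k₁ k₂ k₃ hk => by
        simp only [hψ _ _ _ hk, map_mul]) hd
      (fun i => by rw [hψ0]; exact PresentedGroup.toGroup.of _) (l₂ := l₂ ++ l₃)
      (by simpa using h)]
    exact dif_pos hu
  · show Φ (PresentedGroup.of i) = _
    simp only [Φ, PresentedGroup.toGroup.of, hd0]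

end Pool.Agent.MP_d5a4a4_al.H32
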