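import Mathlib

-- part MP_d5a4a4_al.Geom
section

/-!
The geometric representation of a Coxeter system of finite rank, roots, and the length criterion.
-/

namespace Pool.Agent.MP_d5a4a4_al

open CoxeterSystem Real

set_option linter.unusedSectionVars false

/-- Alternating product `x y x ...` with `k` letters. -/
def alt {G : Type*} [Monoid G] (x y : G) : ℕ → G
  | 0 => 1
  | k + 1 => alt x y k * (if Even k then x else y)

section Alt
variable {G : Type*} [Monoid G]

theorem alt_zero (x y : G) : alt x y 0 = 1 := rfl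

theorem alt_succ (x y : G) (k : ℕ) : alt x y (k + 1) = alt x y k * (if Even k then x else y) := rfl

theorem alt_succ' (x y : G) (k : ℕ) : alt x y (k + 1) = x * alt y x k := by
  induction k with
  | zero => simp [alt]
  | succ k ih =>
    rw [alt_succ, ih, alt_succ y x, mul_assoc]
    by_cases h : Even k <;> simp [h, Nat.even_add_one]

theorem alt_two_mul (x y : G) (k : ℕ) : alt x y (2 * k) = (x * y) ^ k := by
  induction k with
  | zero => simp [alt]
  | succ k ih =>
    rw [show 2 * (k + 1) = 2 * k + 1 + 1 by ring, alt_succ, alt_succ, ih, pow_succ]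
    simp [mul_assoc]

theorem map_alt {H : Type*} [Monoid H] (f : G →* H) (x y : G) (k : ℕ) :
    f (alt x y k) = alt (f x) (f y) k := by
  induction k with
  | zero => simp [alt]
  | succ k ih => rw [alt_succ, alt_succ, map_mul, ih]; by_cases h : Even k <;> simp [h]

theorem prod_range_eq_alt {ι : Type*} (f : ι → G) (i j : ι) (m : ℕ) :
    ((List.range m).map (fun k => f (if Even k then i else j))).prod = alt (f i) (f j) m := by
  induction m with
  | zero => simp [alt]
  | succ m ih =>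
    rw [List.range_succ, List.map_append, List.prod_append, ih, alt_succ]
    by_cases h : Even m <;> simp [h]

end Alt

/-- The Chebyshev numbers `[k]` for the parameter `c`. -/
def U (c : ℝ) : ℕ → ℝ
  | 0 => 0
  | 1 => 1
  | k + 2 => c * U c (k + 1) - U c k

/-- `2 cos (π / m)`; it is `2` for `m = 0` and `-2` for `m = 1`. -/
noncomputable def cc (m : ℕ) : ℝ := 2 * cos (π / m)

theorem cc_zero : cc 0 = 2 := by simp [cc]
theorem cc_one : cc 1 = -2 := by simp [cc]
theorem cc_two : cc 2 = 0 := by simp [cc]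
theorem cc_three : cc 3 = 1 := by simp [cc]

theorem U_sin (m k : ℕ) : U (cc m) k * sin (π / m) = sin (k * (π / m)) := by
  induction k using Nat.strong_induction_on with
  | _ k ih =>
    match k, ih with
    | 0, _ => simp [U]
    | 1, _ => simp [U]
    | k + 2, ih =>
      have h1 := ih (k + 1) (by omega)
      have h0 := ih k (by omega)
      rw [U, sub_mul, mul_assoc, h1, h0, cc]
      have e2 : ((k + 2 : ℕ) : ℝ) * (π / m) = ((k + 1 : ℕ) : ℝ) * (π / m) + π / m := by
        push_cast; ring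
      have e0 : (k : ℝ) * (π / m) = ((k + 1 : ℕ) : ℝ) * (π / m) - π / m := by
        push_cast; ring
      rw [e2, e0, sin_add, sin_sub]; ring

theorem sin_pi_div_pos {m : ℕ} (hm : 2 ≤ m) : 0 < sin (π / m) := by
  have h : (2 : ℝ) ≤ m := by exact_mod_cast hm
  apply sin_pos_of_pos_of_lt_pi
  · positivity
  · rw [div_lt_iff₀ (by linarith)]; nlinarith [pi_pos]

theorem U_two (k : ℕ) : U 2 k = k := by
  induction k using Nat.strong_induction_on with
  | _ k ih =>
    match k, ih with
    | 0, _ => simp [U]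
    | 1, _ => simp [U]
    | k + 2, ih => rw [U, ih (k + 1) (by omega), ih k (by omega)]; push_cast; ring

theorem U_nonneg {m k : ℕ} (hm : m ≠ 1) (hk : m = 0 ∨ k ≤ m) : 0 ≤ U (cc m) k := by
  rcases Nat.eq_zero_or_pos m with rfl | hm0
  · rw [cc_zero, U_two]; positivity
  have hm2 : 2 ≤ m := by omega
  have hk : k ≤ m := by omega
  have hs := sin_pi_div_pos hm2
  have h : 0 ≤ sin (k * (π / m)) := by
    apply sin_nonneg_of_nonneg_of_le_pi
    · positivity
    · have h1 : (k : ℝ) ≤ m := by exact_mod_cast hk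
      have h2 : (0 : ℝ) < m := by exact_mod_cast hm0
      calc (k : ℝ) * (π / m) ≤ m * (π / m) := by gcongr
        _ = π := by field_simp
  rw [← U_sin] at h
  exact nonneg_of_mul_nonneg_left h hs

theorem U_pos {m k : ℕ} (hk0 : 0 < k) (hk : k < m) : 0 < U (cc m) k := by
  have hm2 : 2 ≤ m := by omega
  have hs := sin_pi_div_pos hm2
  have h : 0 < sin (k * (π / m)) := by
    have h2 : (0 : ℝ) < m := by exact_mod_cast (by omega : 0 < m)
    have h3 : (0 : ℝ) < k := by exact_mod_cast hk0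
    apply sin_pos_of_pos_of_lt_pi
    · positivity
    · have h1 : (k : ℝ) < m := by exact_mod_cast hk
      calc (k : ℝ) * (π / m) < m * (π / m) := by gcongr
        _ = π := by field_simp
  rw [← U_sin] at h
  exact (pos_iff_pos_of_mul_pos h).mpr hs

theorem U_add_self {m : ℕ} (hm : 2 ≤ m) (k : ℕ) : U (cc m) (k + m) = -U (cc m) k := by
  have hs := sin_pi_div_pos hm
  have h2 : (0 : ℝ) < m := by exact_mod_cast (by omega : 0 < m)
  apply mul_right_cancel₀ hs.ne'
  rw [neg_mul, U_sin, U_sin]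
  have : ((k + m : ℕ) : ℝ) * (π / m) = k * (π / m) + π := by push_cast; field_simp
  rw [this, sin_add_pi]

theorem cc_nonneg {m : ℕ} (hm : m ≠ 1) : 0 ≤ cc m := by
  have := U_nonneg (m := m) (k := 2) hm (by omega)
  simpa [U] using this

theorem cc_sq_lt {m : ℕ} (hm : 2 ≤ m) : cc m ^ 2 < 4 := by
  have hs := sin_pi_div_pos hm
  have := sin_sq_add_cos_sq (π / m)
  rw [cc]; nlinarith

variable {B : Type} [Fintype B] [DecidableEq B]

/-- Simple root. -/
def al (i : B) : B → ℝ := Pi.single i 1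

/-- The invariant form, normalised so that roots have norm `2`. -/
noncomputable def bf (M : CoxeterMatrix B) : (B → ℝ) →ₗ[ℝ] (B → ℝ) →ₗ[ℝ] ℝ :=
  Matrix.toLinearMap₂' ℝ (Matrix.of fun i j => -cc (M i j))

variable {M : CoxeterMatrix B}

theorem bf_apply (x y : B → ℝ) : bf M x y = ∑ i, ∑ j, x i * y j * -cc (M i j) := by
  simp [bf, Matrix.toLinearMap₂'_apply, mul_assoc]

theorem bf_comm (x y : B → ℝ) : bf M x y = bf M y x := by
  rw [bf_apply, bf_apply, Finset.sum_comm]
  refine Finset.sum_congr rfl fun i _ => Finset.sum_congr rfl fun j _ => ?_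
  rw [M.symmetric j i]; ring

theorem bf_al_left (i : B) (y : B → ℝ) : bf M (al i) y = ∑ j, y j * -cc (M i j) := by
  rw [bf_apply, Finset.sum_eq_single i]
  · simp [al]
  · intro b _ hb; simp [al, hb]
  · simp

theorem bf_al_al (i j : B) : bf M (al i) (al j) = -cc (M i j) := by
  rw [bf_al_left, Finset.sum_eq_single j]
  · simp [al]
  · intro b _ hb; simp [al, hb]
  · simp

theorem bf_al_self (i : B) : bf M (al i) (al i) = 2 := by
  rw [bf_al_al, M.diagonal, cc_one]; ring

theorem al_nonneg (i : B) : 0 ≤ (al i : B → ℝ) := by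
  intro j; by_cases h : j = i <;> simp [al, h]

omit [Fintype B] in
theorem al_apply (i j : B) : (al i : B → ℝ) j = if j = i then 1 else 0 := by
  simp [al, Pi.single_apply]

theorem eq_sum_al (x : B → ℝ) : x = ∑ i, x i • al i := by
  funext j; simp [Finset.sum_apply, al_apply]

/-- The reflection in `β`. -/
noncomputable def refl (M : CoxeterMatrix B) (β : B → ℝ) : Module.End ℝ (B → ℝ) :=
  LinearMap.id - (bf M β).smulRight β

theorem refl_apply (β x : B → ℝ) : refl M β x = x - bf M β x • β := by simp [refl]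

theorem refl_self {β : B → ℝ} (h : bf M β β = 2) : refl M β β = -β := by
  rw [refl_apply, h, two_smul]; abel

theorem refl_neg (β : B → ℝ) : refl M (-β) = refl M β := by
  refine LinearMap.ext fun x => ?_; simp [refl_apply]

theorem refl_refl {β : B → ℝ} (h : bf M β β = 2) (x : B → ℝ) : refl M β (refl M β x) = x := by
  rw [refl_apply β x, map_sub, map_smul, refl_self h, refl_apply]; simp

theorem bf_refl {β : B → ℝ} (h : bf M β β = 2) (x y : B → ℝ) :
    bf M (refl M β x) (refl M β y) = bf M x y := by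
  simp only [refl_apply, map_sub, map_smul, LinearMap.sub_apply, LinearMap.smul_apply, h,
    smul_eq_mul, bf_comm x β]
  ring

theorem alt_refl_apply {a b : B → ℝ} {c : ℝ} (ha : bf M a a = 2) (hb : bf M b b = 2)
    (hab : bf M a b = -c) (k : ℕ) :
    alt (refl M a) (refl M b) k (if Even k then a else b) = U c (k + 1) • a + U c k • b := by
  have hba : bf M b a = -c := by rw [bf_comm, hab]
  induction k using Nat.strong_induction_on with
  | _ k ih =>
    match k, ih with
    | 0, _ => simp [alt, U]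
    | 1, _ => simp [alt, U, refl_apply, hab]; abel
    | k + 2, ih =>
      have h1 := ih (k + 1) (by omega)
      have h0 := ih k (by omega)
      rw [alt_succ] at h1
      rw [alt_succ, alt_succ]
      by_cases hk : Even k
      · simp only [hk, Nat.even_add_one, not_true, if_true, if_false, not_false_eq_true,
          Module.End.mul_apply] at h0 h1 ⊢
        rw [refl_apply b a, hba, map_sub, map_smul, map_sub, map_smul, h1, refl_self ha, map_neg,
          h0]
        simp only [U]; module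
      · simp only [hk, Nat.even_add_one, not_true, if_true, if_false, not_false_eq_true,
          Module.End.mul_apply] at h0 h1 ⊢
        rw [refl_apply a b, hab, map_sub, map_smul, map_sub, map_smul, h1, refl_self hb, map_neg,
          h0]
        simp only [U]; module

theorem liftable (M : CoxeterMatrix B) : M.IsLiftable fun i => refl M (al i) := by
  intro i j
  by_cases hij : i = j
  · subst hij
    rw [M.diagonal, pow_one]; exact LinearMap.ext fun x => refl_refl (bf_al_self i) x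
  rcases Nat.eq_zero_or_pos (M i j) with h0 | h0
  · rw [h0, pow_zero]
  have hm : 2 ≤ M i j := by have := M.off_diagonal i j hij; omega
  set m := M i j with hmdef
  have hab : bf M (al i) (al j) = -cc m := bf_al_al i j
  have hba : bf M (al j) (al i) = -cc m := by rw [bf_comm, hab]
  have per : ∀ k, U (cc m) (2 * m + k) = U (cc m) k := fun k => by
    rw [show 2 * m + k = k + m + m by ring, U_add_self hm, U_add_self hm, neg_neg]
  have h1 : ((refl M (al i) * refl M (al j)) ^ m) (al i) = al i := by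
    have := alt_refl_apply (bf_al_self i) (bf_al_self j) hab (2 * m)
    rw [alt_two_mul, per 1, show U (cc m) (2 * m) = U (cc m) 0 from per 0] at this
    simpa [U] using this
  have h2 : ((refl M (al i) * refl M (al j)) ^ m) (al j) = al j := by
    have := alt_refl_apply (bf_al_self i) (bf_al_self j) hab (2 * m + 1)
    rw [alt_succ, alt_two_mul, per 1, show U (cc m) (2 * m + 1 + 1) = U (cc m) 2 from per 2] at this
    simp only [Nat.even_add_one, even_two, Even.mul_right, not_true, if_true, if_false,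
      Module.End.mul_apply, refl_apply (al i) (al j), hab, map_sub, map_smul, h1, U] at this
    have e : ((refl M (al i) * refl M (al j)) ^ m) (al j) =
      (cc m * 1 - 0) • al i + (1 : ℝ) • al j + -cc m • al i := by rw [← this]; abel
    rw [e]; module
  refine LinearMap.ext fun x => ?_
  have hd : 4 - cc m ^ 2 ≠ 0 := by have := cc_sq_lt hm; linarith
  set p := bf M (al i) x
  set q := bf M (al j) x
  set a := (2 * p + cc m * q) / (4 - cc m ^ 2) with ha
  set b := (2 * q + cc m * p) / (4 - cc m ^ 2) with hb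
  set y := x - a • al i - b • al j with hy
  have hyi : bf M (al i) y = 0 := by
    simp only [hy, map_sub, map_smul, bf_al_self, hab, smul_eq_mul, ha, hb]
    field_simp; ring
  have hyj : bf M (al j) y = 0 := by
    simp only [hy, map_sub, map_smul, bf_al_self, hba, smul_eq_mul, ha, hb]
    field_simp; ring
  have hfix : ∀ k : ℕ, ((refl M (al i) * refl M (al j)) ^ k) y = y := fun k => by
    induction k with
    | zero => simp
    | succ k ih =>
      rw [pow_succ, Module.End.mul_apply, Module.End.mul_apply, refl_apply (al j), hyj, zero_smul,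
        sub_zero, refl_apply (al i), hyi, zero_smul, sub_zero, ih]
  have hx : x = y + a • al i + b • al j := by rw [hy]; abel
  show ((refl M (al i) * refl M (al j)) ^ m) x = x
  conv_lhs => rw [hx]
  rw [map_add, map_add, map_smul, map_smul, hfix, h1, h2, ← hx]

variable {W : Type} [Group W] (cs : CoxeterSystem M W)

/-- The geometric representation. -/
noncomputable def rho : W →* Module.End ℝ (B → ℝ) := cs.lift ⟨_, liftable M⟩

theorem rho_simple (i : B) : rho cs (cs.simple i) = refl M (al i) := cs.lift_apply_simple _ i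

theorem rho_mul_apply (y z : W) (x : B → ℝ) : rho cs (y * z) x = rho cs y (rho cs z x) := by
  rw [map_mul, Module.End.mul_apply]

theorem rho_inv_rho (y : W) (x : B → ℝ) : rho cs y⁻¹ (rho cs y x) = x := by
  rw [← rho_mul_apply, inv_mul_cancel, map_one, Module.End.one_apply]

theorem rho_rho_inv (y : W) (x : B → ℝ) : rho cs y (rho cs y⁻¹ x) = x := by
  rw [← rho_mul_apply, mul_inv_cancel, map_one, Module.End.one_apply]

theorem rho_apply_injective (y : W) : Function.Injective (rho cs y) :=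
  Function.LeftInverse.injective (rho_inv_rho cs y)

theorem bf_rho (y : W) (x x' : B → ℝ) : bf M (rho cs y x) (rho cs y x') = bf M x x' := by
  induction y using cs.simple_induction_left generalizing x x' with
  | one => simp
  | mul_simple_left w i ih => rw [rho_mul_apply, rho_mul_apply, rho_simple, bf_refl (bf_al_self i), ih]

theorem rho_refl (y : W) (β x : B → ℝ) :
    rho cs y (refl M β x) = refl M (rho cs y β) (rho cs y x) := by
  rw [refl_apply, refl_apply, map_sub, map_smul, bf_rho]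

theorem wordProd_alternatingWord (i j : B) (m : ℕ) :
    cs.wordProd (alternatingWord i j m) =
      alt (cs.simple (if Even m then i else j)) (cs.simple (if Even m then j else i)) m := by
  induction m with
  | zero => simp [alt, alternatingWord]
  | succ m ih =>
    rw [alternatingWord_succ', wordProd_cons, ih, alt_succ']
    by_cases h : Even m <;> simp [h, Nat.even_add_one]

theorem length_alt_lt {i j : B} {k : ℕ} (h0 : M i j ≠ 0) (hk : M i j < k) :
    cs.length (alt (cs.simple i) (cs.simple j) k) < k := by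
  have key : ∀ i j : B, M i j ≠ 0 → M i j < k →
      cs.length (cs.wordProd (alternatingWord i j k)) < k := fun i j h0 hk => by
    have h1 := cs.not_isReduced_alternatingWord i j h0 hk
    have h2 := cs.length_wordProd_le (alternatingWord i j k)
    rw [CoxeterSystem.IsReduced] at h1
    rw [length_alternatingWord] at h1 h2
    omega
  by_cases h : Even k
  · have := key i j h0 hk
    rwa [wordProd_alternatingWord, if_pos h, if_pos h] at this
  · have := key j i (by rwa [M.symmetric]) (by rwa [M.symmetric])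
    rwa [wordProd_alternatingWord, if_neg h, if_neg h] at this

theorem length_alt_le (i j : B) (k : ℕ) : cs.length (alt (cs.simple i) (cs.simple j) k) ≤ k := by
  induction k with
  | zero => simp [alt]
  | succ k ih =>
    rw [alt_succ]
    refine (cs.length_mul_le _ _).trans ?_
    by_cases h : Even k <;> simp [h, ih]

theorem rho_al_nonneg (y : W) (i : B) (h : ¬ cs.IsRightDescent y i) : 0 ≤ rho cs y (al i) := by
  induction hn : cs.length y using Nat.strong_induction_on generalizing y i with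
  | _ n ih =>
  by_cases hy : y = 1
  · subst hy; simpa using al_nonneg i
  obtain ⟨t, ht⟩ := cs.exists_rightDescent_of_ne_one hy
  have hti : t ≠ i := fun e => h (e ▸ ht)
  have Q : ∀ (r : ℕ) (k : ℕ) (v : W) (a b : B), cs.length v = r → a ≠ b →
      (if Even k then a else b) = i → 1 ≤ k → y = v * alt (cs.simple a) (cs.simple b) k →
      cs.length v + k = cs.length y → 0 ≤ rho cs y (al i) := by
    intro r
    induction r using Nat.strong_induction_on with
    | _ r ihr =>
    intro k v a b hr hab hki hk hyv hlen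
    by_cases hb : cs.IsRightDescent v b
    · have hb' := cs.isRightDescent_iff.mp hb
      refine ihr (cs.length (v * cs.simple b)) (by omega) (k + 1) (v * cs.simple b) b a rfl hab.symm
        ?_ (by omega) ?_ (by omega)
      · rw [← hki]; by_cases h : Even k <;> simp [h, Nat.even_add_one]
      · rw [alt_succ', hyv, mul_assoc, simple_mul_simple_cancel_left]
    have ha : ¬ cs.IsRightDescent v a := by
      intro ha
      have ha' := cs.isRightDescent_iff.mp ha
      obtain ⟨k', rfl⟩ : ∃ k', k = k' + 1 := ⟨k - 1, by omega⟩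
      rw [alt_succ', ← mul_assoc] at hyv
      have h1 := cs.length_mul_le (v * cs.simple a) (alt (cs.simple b) (cs.simple a) k')
      have h2 := length_alt_le cs b a k'
      rw [← hyv] at h1
      omega
    have hva := ih (cs.length v) (by omega) v a ha rfl
    have hvb := ih (cs.length v) (by omega) v b hb rfl
    have hm : M a b = 0 ∨ k + 1 ≤ M a b := by
      by_contra hc
      push Not at hc
      have h1 := length_alt_lt cs hc.1 (k := k + 1) hc.2
      have h2 := cs.not_isRightDescent_iff.mp h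
      have h3 : y * cs.simple i = v * alt (cs.simple a) (cs.simple b) (k + 1) := by
        rw [alt_succ, hyv, mul_assoc, ← hki]; by_cases h : Even k <;> simp [h]
      have h4 := cs.length_mul_le v (alt (cs.simple a) (cs.simple b) (k + 1))
      rw [← h3] at h4
      omega
    have h5 := alt_refl_apply (bf_al_self (M := M) a) (bf_al_self b) (bf_al_al a b) k
    have h6 : (if Even k then al a else al b : B → ℝ) = al i := by
      rw [← hki]; by_cases h : Even k <;> simp [h]
    rw [h6] at h5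
    rw [hyv, rho_mul_apply, map_alt, rho_simple, rho_simple, h5, map_add, map_smul, map_smul]
    have hm1 := M.off_diagonal a b hab
    exact add_nonneg (smul_nonneg (U_nonneg hm1 hm) hva)
      (smul_nonneg (U_nonneg hm1 (by omega)) hvb)
  have ht' := cs.isRightDescent_iff.mp ht
  refine Q _ 1 (y * cs.simple t) t i rfl hti (by simp) le_rfl ?_ ht'
  simp [alt]

theorem rho_simple_al (i : B) : rho cs (cs.simple i) (al i) = -al i := by
  rw [rho_simple, refl_self (bf_al_self i)]

theorem rho_al_nonpos (y : W) (i : B) (h : cs.IsRightDescent y i) : rho cs y (al i) ≤ 0 := by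
  have := rho_al_nonneg cs (y * cs.simple i) i (cs.isRightDescent_iff_not_isRightDescent_mul.mp h)
  rw [rho_mul_apply, rho_simple_al, map_neg] at this
  exact neg_nonneg.mp this

/-- Real roots. -/
def IsRoot (β : B → ℝ) : Prop := ∃ y i, β = rho cs y (al i)

variable {cs}

theorem IsRoot.norm {β : B → ℝ} (h : IsRoot cs β) : bf M β β = 2 := by
  obtain ⟨y, i, rfl⟩ := h; rw [bf_rho, bf_al_self]

theorem IsRoot.ne_zero {β : B → ℝ} (h : IsRoot cs β) : β ≠ 0 := by
  rintro rfl; have := h.norm; simp at this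

theorem IsRoot.rho {β : B → ℝ} (h : IsRoot cs β) (z : W) : IsRoot cs (rho cs z β) := by
  obtain ⟨y, i, rfl⟩ := h; exact ⟨z * y, i, by rw [rho_mul_apply]⟩

theorem IsRoot.neg {β : B → ℝ} (h : IsRoot cs β) : IsRoot cs (-β) := by
  obtain ⟨y, i, rfl⟩ := h
  exact ⟨y * cs.simple i, i, by rw [rho_mul_apply, rho_simple_al, map_neg]⟩

theorem isRoot_al (i : B) : IsRoot cs (al i) := ⟨1, i, by simp⟩

theorem IsRoot.nonneg_or {β : B → ℝ} (h : IsRoot cs β) : 0 ≤ β ∨ β ≤ 0 := by
  obtain ⟨y, i, rfl⟩ := h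
  by_cases hd : cs.IsRightDescent y i
  · exact Or.inr (rho_al_nonpos cs y i hd)
  · exact Or.inl (rho_al_nonneg cs y i hd)

theorem IsRoot.not_both {β : B → ℝ} (h : IsRoot cs β) (h1 : 0 ≤ β) (h2 : β ≤ 0) : False :=
  h.ne_zero (le_antisymm h2 h1)

theorem IsRoot.eq_of_smul {β γ : B → ℝ} (hβ : IsRoot cs β) (hγ : IsRoot cs γ) {c : ℝ}
    (h : γ = c • β) : γ = β ∨ γ = -β := by
  have h1 := hγ.norm
  rw [h] at h1
  simp only [map_smul, LinearMap.smul_apply, hβ.norm, smul_eq_mul] at h1
  have h2 : (c - 1) * (c + 1) = 0 := by linarith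
  rcases mul_eq_zero.mp h2 with h3 | h3
  · left; rw [h, show c = 1 by linarith, one_smul]
  · right; rw [h, show c = -1 by linarith, neg_smul, one_smul]

theorem IsRoot.eq_of_smul_nonneg {β γ : B → ℝ} (hβ : IsRoot cs β) (hγ : IsRoot cs γ)
    (hβ0 : 0 ≤ β) (hγ0 : 0 ≤ γ) {c : ℝ} (h : γ = c • β) : γ = β := by
  rcases hβ.eq_of_smul hγ h with h1 | h1
  · exact h1
  · exact (hγ.not_both hγ0 (by rw [h1]; exact neg_nonpos.mpr hβ0)).elim

theorem IsRoot.eq_al {β : B → ℝ} (h : IsRoot cs β) (h0 : 0 ≤ β) {i : B}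
    (h1 : Pool.Agent.MP_d5a4a4_al.rho cs (cs.simple i) β ≤ 0) : β = al i := by
  refine (isRoot_al i).eq_of_smul_nonneg h (al_nonneg i) h0 (c := β i) ?_
  funext j
  by_cases hj : j = i
  · subst hj; simp [al_apply]
  · have h2 := h1 j
    rw [rho_simple, refl_apply] at h2
    simp only [Pi.sub_apply, Pi.smul_apply, al_apply, hj, if_false, smul_zero, sub_zero,
      Pi.zero_apply] at h2 ⊢
    exact le_antisymm h2 (h0 j)

theorem eq_one_of_nonneg {y : W} (h : ∀ i, 0 ≤ rho cs y (al i)) : y = 1 := by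
  by_contra hy
  obtain ⟨i, hi⟩ := cs.exists_rightDescent_of_ne_one hy
  exact ((isRoot_al i).rho y).not_both (h i) (rho_al_nonpos cs y i hi)

theorem rho_injective : Function.Injective (rho cs) := by
  intro y z h
  have : z⁻¹ * y = 1 := eq_one_of_nonneg (cs := cs) fun i => by
    rw [rho_mul_apply, h, rho_inv_rho]; exact al_nonneg i
  rw [inv_mul_eq_one] at this; exact this.symm

theorem rho_conj {t : W} {β : B → ℝ} (h : rho cs t = refl M β) (y : W) :
    rho cs (y * t * y⁻¹) = refl M (rho cs y β) := by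
  refine LinearMap.ext fun x => ?_
  rw [rho_mul_apply, rho_mul_apply, h, rho_refl, rho_rho_inv]

theorem IsRoot.exists_refl {β : B → ℝ} (h : IsRoot cs β) :
    ∃ t, cs.IsReflection t ∧ Pool.Agent.MP_d5a4a4_al.rho cs t = refl M β := by
  obtain ⟨y, i, rfl⟩ := h
  exact ⟨_, ⟨y, i, rfl⟩, rho_conj (rho_simple cs i) y⟩

theorem exists_rt {t : W} (ht : cs.IsReflection t) :
    ∃ β, IsRoot cs β ∧ 0 ≤ β ∧ rho cs t = refl M β := by
  obtain ⟨y, i, rfl⟩ := ht
  have h := (isRoot_al (cs := cs) i).rho y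
  have h2 := rho_conj (rho_simple cs i) y
  rcases h.nonneg_or with h1 | h1
  · exact ⟨_, h, h1, h2⟩
  · exact ⟨_, h.neg, neg_nonneg.mpr h1, by rw [refl_neg, h2]⟩

open Classical in
variable (cs) in
/-- The positive root of a reflection. -/
noncomputable def rt (t : W) : B → ℝ := if h : cs.IsReflection t then (exists_rt h).choose else 0

theorem rt_spec {t : W} (ht : cs.IsReflection t) :
    IsRoot cs (rt cs t) ∧ 0 ≤ rt cs t ∧ rho cs t = refl M (rt cs t) := by
  rw [rt, dif_pos ht]; exact (exists_rt ht).choose_spec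

theorem rt_root {t : W} (ht : cs.IsReflection t) : IsRoot cs (rt cs t) := (rt_spec ht).1
theorem rt_nonneg {t : W} (ht : cs.IsReflection t) : 0 ≤ rt cs t := (rt_spec ht).2.1
theorem rho_eq_refl {t : W} (ht : cs.IsReflection t) : rho cs t = refl M (rt cs t) :=
  (rt_spec ht).2.2

theorem rho_rt {t : W} (ht : cs.IsReflection t) : rho cs t (rt cs t) = -rt cs t := by
  rw [rho_eq_refl ht, refl_self (rt_root ht).norm]

theorem eq_or_neg_of_refl_eq {β γ : B → ℝ} (hβ : IsRoot cs β) (hγ : IsRoot cs γ)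
    (h : refl M β = refl M γ) : γ = β ∨ γ = -β := by
  refine hβ.eq_of_smul hγ (c := bf M β γ / 2) ?_
  have h1 : refl M β γ = -γ := by rw [h, refl_self hγ.norm]
  rw [refl_apply] at h1
  have h2 : bf M β γ • β = (2 : ℝ) • γ := by rw [two_smul]; linear_combination (exp := 1) -h1
  rw [div_eq_inv_mul, mul_smul, h2, smul_smul]; simp

theorem rt_eq_or {t : W} (ht : cs.IsReflection t) {β : B → ℝ} (hβ : IsRoot cs β)
    (h : rho cs t = refl M β) : rt cs t = β ∨ rt cs t = -β :=
  eq_or_neg_of_refl_eq hβ (rt_root ht) (by rw [← h, rho_eq_refl ht])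

theorem rt_eq {t : W} (ht : cs.IsReflection t) {β : B → ℝ} (hβ : IsRoot cs β) (h0 : 0 ≤ β)
    (h : rho cs t = refl M β) : rt cs t = β := by
  rcases rt_eq_or ht hβ h with h1 | h1
  · exact h1
  · exact ((rt_root ht).not_both (rt_nonneg ht) (by rw [h1]; exact neg_nonpos.mpr h0)).elim

theorem rt_simple (i : B) : rt cs (cs.simple i) = al i :=
  rt_eq (cs.isReflection_simple i) (isRoot_al i) (al_nonneg i) (rho_simple cs i)

theorem rt_conj {t : W} (ht : cs.IsReflection t) (y : W) :
    rt cs (y * t * y⁻¹) = rho cs y (rt cs t) ∨ rt cs (y * t * y⁻¹) = -rho cs y (rt cs t) :=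
  rt_eq_or (ht.conj y) ((rt_root ht).rho y) (rho_conj (rho_eq_refl ht) y)

theorem rt_conj_of_nonneg {t : W} (ht : cs.IsReflection t) (y : W) (h : 0 ≤ rho cs y (rt cs t)) :
    rt cs (y * t * y⁻¹) = rho cs y (rt cs t) :=
  rt_eq (ht.conj y) ((rt_root ht).rho y) h (rho_conj (rho_eq_refl ht) y)

theorem rt_conj_of_nonpos {t : W} (ht : cs.IsReflection t) (y : W) (h : rho cs y (rt cs t) ≤ 0) :
    rt cs (y * t * y⁻¹) = -rho cs y (rt cs t) :=
  rt_eq (ht.conj y) ((rt_root ht).rho y).neg (neg_nonneg.mpr h)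
    (by rw [refl_neg]; exact rho_conj (rho_eq_refl ht) y)

theorem eq_of_rt_eq {t t' : W} (ht : cs.IsReflection t) (ht' : cs.IsReflection t')
    (h : rt cs t = rt cs t') : t = t' :=
  rho_injective (cs := cs) (by rw [rho_eq_refl ht, rho_eq_refl ht', h])

theorem exists_split {β : B → ℝ} (hβ : IsRoot cs β) (h0 : 0 ≤ β) (l : List B)
    (h : rho cs (cs.wordProd l) β ≤ 0) :
    ∃ l₁ i l₂, l = l₁ ++ i :: l₂ ∧ rho cs (cs.wordProd l₂) β = al i := by
  induction l with
  | nil => exact (hβ.not_both h0 (by simpa using h)).elim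
  | cons i l ih =>
    rcases (hβ.rho (cs.wordProd l)).nonneg_or with h1 | h1
    · rw [wordProd_cons, rho_mul_apply] at h
      exact ⟨[], i, l, rfl, (hβ.rho _).eq_al h1 h⟩
    · obtain ⟨l₁, j, l₂, rfl, h2⟩ := ih h1
      exact ⟨i :: l₁, j, l₂, rfl, h2⟩

/-- Strong exchange. -/
theorem exchange {t : W} (ht : cs.IsReflection t) (l : List B)
    (h : rho cs (cs.wordProd l) (rt cs t) ≤ 0) :
    ∃ l₁ i l₂, l = l₁ ++ i :: l₂ ∧ t = (cs.wordProd l₂)⁻¹ * cs.simple i * cs.wordProd l₂ := by
  obtain ⟨l₁, i, l₂, rfl, h2⟩ := exists_split (rt_root ht) (rt_nonneg ht) l h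
  refine ⟨l₁, i, l₂, rfl, ?_⟩
  have h3 : rho cs (cs.wordProd l₂ * t * (cs.wordProd l₂)⁻¹) = rho cs (cs.simple i) := by
    rw [rho_conj (rho_eq_refl ht), h2, rho_simple]
  rw [← rho_injective h3]; group

theorem length_lt_of_nonpos {t : W} (ht : cs.IsReflection t) {y : W}
    (h : rho cs y (rt cs t) ≤ 0) : cs.length (y * t) < cs.length y := by
  obtain ⟨l, hl, rfl⟩ := cs.exists_isReduced y
  obtain ⟨l₁, i, l₂, rfl, h2⟩ := exchange ht l h
  have h3 : cs.wordProd (l₁ ++ i :: l₂) * t = cs.wordProd (l₁ ++ l₂) := by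
    rw [h2, wordProd_append, wordProd_append, wordProd_cons]
    simp [mul_assoc]
  rw [h3, hl.eq]
  refine (cs.length_wordProd_le _).trans_lt ?_
  simp

theorem length_lt_iff {t : W} (ht : cs.IsReflection t) (y : W) :
    cs.length (y * t) < cs.length y ↔ rho cs y (rt cs t) ≤ 0 := by
  refine ⟨fun h => ?_, length_lt_of_nonpos ht⟩
  rcases ((rt_root ht).rho y).nonneg_or with h1 | h1
  · have h2 : rho cs (y * t) (rt cs t) ≤ 0 := by
      rw [rho_mul_apply, rho_rt ht, map_neg]; exact neg_nonpos.mpr h1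
    have h3 := length_lt_of_nonpos ht h2
    rw [mul_assoc, ht.mul_self, mul_one] at h3
    omega
  · exact h1

variable (cs) in
/-- Inversion set: positive roots made negative by `y⁻¹`. -/
def Inv (y : W) : Set (B → ℝ) := {γ | IsRoot cs γ ∧ 0 ≤ γ ∧ rho cs y⁻¹ γ ≤ 0}

theorem Inv_one : Inv cs 1 = ∅ :=
  Set.eq_empty_of_forall_notMem fun γ h => h.1.not_both h.2.1 (by simpa using h.2.2)

theorem mem_inv_mul {x y : W} {γ : B → ℝ} (h : γ ∈ Inv cs (x * y)) :
    γ ∈ Inv cs x ∨ rho cs x⁻¹ γ ∈ Inv cs y := by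
  obtain ⟨h1, h2, h3⟩ := h
  rcases (h1.rho x⁻¹).nonneg_or with h4 | h4
  · exact Or.inr ⟨h1.rho _, h4, by rwa [← rho_mul_apply, ← mul_inv_rev]⟩
  · exact Or.inl ⟨h1, h2, h4⟩

theorem mem_inv_simple {i : B} {γ : B → ℝ} (h : γ ∈ Inv cs (cs.simple i)) : γ = al i :=
  h.1.eq_al h.2.1 (by simpa using h.2.2)

theorem rt_mem_inv {t : W} (ht : cs.IsReflection t) : rt cs t ∈ Inv cs t :=
  ⟨rt_root ht, rt_nonneg ht, by rw [ht.inv, rho_rt ht]; exact neg_nonpos.mpr (rt_nonneg ht)⟩

theorem finite_inv (y : W) : (Inv cs y).Finite := by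
  induction y using cs.simple_induction_left with
  | one => rw [Inv_one]; exact Set.finite_empty
  | mul_simple_left w i ih =>
    refine ((ih.image (rho cs (cs.simple i))).insert (al i)).subset fun γ h => ?_
    rcases mem_inv_mul h with h1 | h1
    · exact Or.inl (mem_inv_simple h1)
    · exact Or.inr ⟨_, h1, rho_rho_inv cs _ _⟩

end Pool.Agent.MP_d5a4a4_al

end

-- part MP_d5a4a4_al.Hurwitz
section

/-!
Transitivity of the Hurwitz action on shortest reflection factorisations of a Coxeter element.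
-/

namespace Pool.Agent.MP_d5a4a4_al

open CoxeterSystem

set_option linter.unusedSectionVars false

variable {B : Type} [Fintype B] [DecidableEq B] {M : CoxeterMatrix B} {W : Type} [Group W]
  {cs : CoxeterSystem M W}

/-- One Hurwitz move. -/
def Step (L L' : List W) : Prop :=
  ∃ l₁ t t' l₂, L = l₁ ++ t :: t' :: l₂ ∧ L' = l₁ ++ (t * t' * t⁻¹) :: t :: l₂

theorem Step.append_right {L L' : List W} (h : Step L L') (K : List W) :
    Step (L ++ K) (L' ++ K) := by
  obtain ⟨l₁, t, t', l₂, rfl, rfl⟩ := h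
  exact ⟨l₁, t, t', l₂ ++ K, by simp, by simp⟩

theorem eqv_append_right {L L' : List W} (h : Relation.EqvGen Step L L') (K : List W) :
    Relation.EqvGen Step (L ++ K) (L' ++ K) := by
  induction h with
  | rel x y h => exact .rel _ _ (h.append_right K)
  | refl x => exact .refl _
  | symm x y _ ih => exact .symm _ _ ih
  | trans x y z _ _ ih1 ih2 => exact .trans _ _ _ ih1 ih2

theorem eqv_move (l₁ l₂ : List W) (t : W) :
    Relation.EqvGen Step (l₁ ++ l₂ ++ [l₂.prod⁻¹ * t * l₂.prod]) (l₁ ++ t :: l₂) := by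
  induction l₂ generalizing l₁ t with
  | nil => simpa using Relation.EqvGen.refl _
  | cons a l₂ ih =>
    have h1 := ih (l₁ ++ [a]) (a⁻¹ * t * a)
    have h2 : Step (l₁ ++ [a] ++ (a⁻¹ * t * a) :: l₂) (l₁ ++ t :: a :: l₂) :=
      ⟨l₁, a, a⁻¹ * t * a, l₂, by simp, by simp [mul_assoc]⟩
    refine .trans _ _ _ ?_ (.rel _ _ h2)
    simpa [mul_assoc] using h1

theorem peak_lemma (y : W) {t t' : W} (ht : cs.IsReflection t) (ht' : cs.IsReflection t')
    (hne : t ≠ t') (h1 : cs.length (y * t) < cs.length y) (h2 : cs.length (y * t') < cs.length y) :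
    cs.length (y * t * t') < cs.length y ∨ cs.length (y * t' * t) < cs.length y := by
  induction hn : cs.length y using Nat.strong_induction_on generalizing y t t' with
  | _ n ih =>
  subst hn
  have hy : y ≠ 1 := by rintro rfl; simp at h1
  obtain ⟨i, hi⟩ := cs.exists_rightDescent_of_ne_one hy
  have hi' := cs.isRightDescent_iff.mp hi
  have key : ∀ {r : W}, cs.IsReflection r → r ≠ cs.simple i → cs.length (y * r) < cs.length y →
      cs.length (y * r * cs.simple i) < cs.length (y * cs.simple i) := by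
    intro r hr hri h
    have h3 := (length_lt_iff hr y).mp h
    have h4 : 0 ≤ rho cs (cs.simple i) (rt cs r) := by
      rcases ((rt_root hr).rho (cs.simple i)).nonneg_or with h5 | h5
      · exact h5
      · exact (hri (eq_of_rt_eq hr (cs.isReflection_simple i)
          (by rw [(rt_root hr).eq_al (rt_nonneg hr) h5, rt_simple]))).elim
    have h5 := (length_lt_iff (hr.conj (cs.simple i)) (y * cs.simple i)).mpr (by
      rw [rt_conj_of_nonneg hr _ h4, ← rho_mul_apply, simple_mul_simple_cancel_right]; exact h3)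
    simpa [mul_assoc] using h5
  by_cases e1 : t = cs.simple i
  · right
    have := key ht' (fun e => hne (e1.trans e.symm)) h2
    rw [e1]; omega
  by_cases e2 : t' = cs.simple i
  · left
    have := key ht e1 h1
    rw [e2]; omega
  have k1 := key ht e1 h1
  have k2 := key ht' e2 h2
  have h3 := ih _ (by omega) (y * cs.simple i) (ht.conj (cs.simple i)) (ht'.conj (cs.simple i))
    (fun e => hne (by simpa using e)) (by simpa [mul_assoc] using k1)
    (by simpa [mul_assoc] using k2) rfl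
  have e3 : ∀ a b : W, y * cs.simple i * (cs.simple i * a * (cs.simple i)⁻¹) *
      (cs.simple i * b * (cs.simple i)⁻¹) = y * a * b * cs.simple i := fun a b => by
    simp [mul_assoc]
  rw [e3, e3] at h3
  rcases h3 with h3 | h3
  · left
    rcases cs.length_mul_simple (y * t * t') i with h4 | h4 <;> omega
  · right
    rcases cs.length_mul_simple (y * t' * t) i with h4 | h4 <;> omega

variable (cs) in
/-- Sum of the lengths along a path. -/
noncomputable def pot : W → List W → ℕ
  | _, [] => 0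
  | y, t :: L => cs.length (y * t) + pot (y * t) L

theorem pot_append (y : W) (l₁ l₂ : List W) :
    pot cs y (l₁ ++ l₂) = pot cs y l₁ + pot cs (y * l₁.prod) l₂ := by
  induction l₁ generalizing y with
  | nil => simp [pot]
  | cons a l ih => simp [pot, ih, mul_assoc, add_assoc]

theorem up_or_peak (L : List W) (t y : W) (hL : ∀ r ∈ L, cs.IsReflection r)
    (h : cs.length y < cs.length (y * t)) :
    (∃ L' t', t :: L = L' ++ [t'] ∧ cs.length (y * L'.prod) < cs.length (y * L'.prod * t')) ∨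
    (∃ l₁ a b l₂, t :: L = l₁ ++ a :: b :: l₂ ∧
      cs.length (y * l₁.prod) < cs.length (y * l₁.prod * a) ∧
      cs.length (y * l₁.prod * a * b) < cs.length (y * l₁.prod * a)) := by
  induction L generalizing t y with
  | nil => exact Or.inl ⟨[], t, rfl, by simpa using h⟩
  | cons b L ih =>
    have hb := hL b (by simp)
    rcases lt_or_gt_of_ne (hb.length_mul_left_ne (y * t)) with h1 | h1
    · exact Or.inr ⟨[], t, b, L, rfl, by simpa using h, by simpa using h1⟩
    · rcases ih b (y * t) (fun r hr => hL r (by simp [hr])) h1 with ⟨L', t', e, h2⟩ |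
        ⟨l₁, a, c, l₂, e, h2, h3⟩
      · exact Or.inl ⟨t :: L', t', by rw [e]; rfl, by simpa [mul_assoc] using h2⟩
      · exact Or.inr ⟨t :: l₁, a, c, l₂, by rw [e]; rfl, by simpa [mul_assoc] using h2,
          by simpa [mul_assoc] using h3⟩

theorem rho_wordProd_apply (l : List B) {i : B} (hi : i ∉ l) (x : B → ℝ) :
    rho cs (cs.wordProd l) x i = x i := by
  induction l with
  | nil => simp
  | cons j l ih =>
    rw [wordProd_cons, rho_mul_apply, rho_simple, refl_apply]
    have hj : i ≠ j := fun e => hi (by simp [e])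
    simp [al_apply, hj, ih (fun h => hi (by simp [h]))]

theorem eq_nil_of_wordProd_eq_one {l : List B} (hl : l.Nodup) (h : cs.wordProd l = 1) : l = [] := by
  rcases l.eq_nil_or_concat' with rfl | ⟨l', i, rfl⟩
  · rfl
  exfalso
  have hi : i ∉ l' := fun h => by
    have := List.nodup_append.mp hl
    exact this.2.2 i h i (by simp) rfl
  have h1 := rho_wordProd_apply (cs := cs) l' hi (-al i)
  rw [← rho_simple_al cs i, ← rho_mul_apply, ← wordProd_singleton, ← wordProd_append, h,
    wordProd_singleton, rho_simple_al] at h1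
  simp [al_apply] at h1
  linarith

theorem hurwitz_aux (j : ℕ) : ∀ (l : List B), l.Nodup → ∀ L : List W,
    (∀ t ∈ L, cs.IsReflection t) → L.length = j → L.prod = cs.wordProd l →
    l.length ≤ j ∧ (l.length = j → Relation.EqvGen Step L (l.map cs.simple)) := by
  induction j using Nat.strong_induction_on with
  | _ j ihj =>
  intro l hl L
  induction hp : pot cs 1 L using Nat.strong_induction_on generalizing L with
  | _ p ihp =>
  intro hL hlen hprod
  cases L with
  | nil =>
    have := eq_nil_of_wordProd_eq_one (cs := cs) hl (by simpa using hprod.symm)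
    subst this
    exact ⟨by simp, fun _ => .refl _⟩
  | cons t L =>
  have ht := hL t (by simp)
  have h0 : cs.length (1 : W) < cs.length (1 * t) := by
    have := ht.length_mul_left_ne 1
    simp only [length_one] at this ⊢; omega
  rcases up_or_peak L t 1 (fun r hr => hL r (by simp [hr])) h0 with ⟨L', t', e, h2⟩ |
    ⟨l₁, a, b, l₂, e, h2, h3⟩
  · rw [e] at hL hlen hprod ⊢
    have ht' := hL t' (by simp)
    simp only [one_mul, List.prod_append, List.prod_singleton, List.length_append,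
      List.length_singleton] at h2 hprod hlen
    have h4 : L'.prod = cs.wordProd l * t' := by rw [← hprod, mul_assoc, ht'.mul_self, mul_one]
    have h5 : cs.length (cs.wordProd l * t') < cs.length (cs.wordProd l) := by
      rw [← h4, ← hprod]; exact h2
    obtain ⟨k₁, i, k₂, rfl, h6⟩ := exchange ht' l ((length_lt_iff ht' _).mp h5)
    have h7 : L'.prod = cs.wordProd (k₁ ++ k₂) := by
      rw [h4, h6, wordProd_append, wordProd_append, wordProd_cons]; simp [mul_assoc]
    have h8 : (k₁ ++ k₂).Nodup := hl.sublist (by simp)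
    obtain ⟨h9, h10⟩ := ihj L'.length (by omega) _ h8 L' (fun r hr => hL r (by simp [hr])) rfl h7
    simp only [List.length_append, List.length_cons] at h9 h10 ⊢
    refine ⟨by omega, fun h11 => ?_⟩
    refine .trans _ _ _ (eqv_append_right (h10 (by omega)) [t']) ?_
    have := eqv_move (k₁.map cs.simple) (k₂.map cs.simple) (cs.simple i)
    rw [h6]
    simpa [wordProd] using this
  · rw [e] at hL hlen hprod hp ⊢
    have ha := hL a (by simp)
    have hb := hL b (by simp)
    simp only [one_mul] at h2 h3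
    by_cases hab : a = b
    · subst hab
      have h4 : (l₁ ++ l₂).prod = cs.wordProd l := by
        rw [← hprod]; simp [← mul_assoc, ha.mul_self]
      have h5 := (ihj (l₁ ++ l₂).length (by simp at hlen ⊢; omega) l hl _
        (fun r hr => hL r (by simp at hr ⊢; tauto)) rfl h4).1
      simp only [List.length_append, List.length_cons] at h5 hlen
      exact ⟨by omega, fun h => by omega⟩
    have h4 : cs.length (l₁.prod * a * a) < cs.length (l₁.prod * a) := by
      rwa [mul_assoc, ha.mul_self, mul_one]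
    rcases peak_lemma (l₁.prod * a) ha hb hab h4 h3 with h5 | h5
    · have hs : Step (l₁ ++ b :: (b⁻¹ * a * b) :: l₂) (l₁ ++ a :: b :: l₂) :=
        ⟨l₁, b, b⁻¹ * a * b, l₂, rfl, by simp [mul_assoc]⟩
      have h6 := ihp (pot cs 1 (l₁ ++ b :: (b⁻¹ * a * b) :: l₂)) (by
        rw [← hp, pot_append, pot_append]
        rw [mul_assoc _ a a, ha.mul_self, mul_one] at h5
        simp only [pot, one_mul]
        have e : l₁.prod * b * (b⁻¹ * a * b) = l₁.prod * a * b := by simp [mul_assoc]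
        rw [e]; omega) _ rfl (by
        intro r hr
        simp only [List.mem_append, List.mem_cons] at hr
        rcases hr with hr | rfl | rfl | hr
        · exact hL r (by simp [hr])
        · exact hb
        · simpa using ha.conj b⁻¹
        · exact hL r (by simp [hr])) (by simpa using hlen)
        (by rw [← hprod]; simp [mul_assoc])
      exact ⟨h6.1, fun h => .trans _ _ _ (.symm _ _ (.rel _ _ hs)) (h6.2 h)⟩
    · have hs : Step (l₁ ++ a :: b :: l₂) (l₁ ++ (a * b * a⁻¹) :: a :: l₂) :=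
        ⟨l₁, a, b, l₂, rfl, rfl⟩
      have h6 := ihp (pot cs 1 (l₁ ++ (a * b * a⁻¹) :: a :: l₂)) (by
        rw [← hp, pot_append, pot_append]
        simp only [pot, one_mul]
        have e : l₁.prod * (a * b * a⁻¹) * a = l₁.prod * a * b := by simp [mul_assoc]
        have e' : l₁.prod * (a * b * a⁻¹) = l₁.prod * a * b * a := by rw [ha.inv]; simp [mul_assoc]
        rw [e, e']; omega) _ rfl (by
        intro r hr
        simp only [List.mem_append, List.mem_cons] at hr
        rcases hr with hr | rfl | rfl | hr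
        · exact hL r (by simp [hr])
        · exact hb.conj a
        · exact ha
        · exact hL r (by simp [hr])) (by simpa using hlen)
        (by rw [← hprod]; simp [mul_assoc])
      exact ⟨h6.1, fun h => .trans _ _ _ (.rel _ _ hs) (h6.2 h)⟩

variable (cs) in
/-- Factorisations of the product of the word `l` into `l.length` reflections. -/
structure Red (l : List B) (L : List W) : Prop where
  refl : ∀ t ∈ L, cs.IsReflection t
  prod : L.prod = cs.wordProd l
  len : L.length = l.length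

theorem length_le_of_prod {l : List B} (hl : l.Nodup) {L : List W}
    (hL : ∀ t ∈ L, cs.IsReflection t) (hp : L.prod = cs.wordProd l) : l.length ≤ L.length :=
  (hurwitz_aux _ l hl L hL rfl hp).1

theorem red_base (l : List B) : Red cs l (l.map cs.simple) :=
  ⟨fun t ht => by obtain ⟨i, -, rfl⟩ := List.mem_map.mp ht; exact cs.isReflection_simple i,
    rfl, by simp⟩

theorem Step.red_iff {l : List B} {L L' : List W} (h : Step L L') : Red cs l L ↔ Red cs l L' := by
  obtain ⟨l₁, t, t', l₂, rfl, rfl⟩ := h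
  constructor
  · rintro ⟨h1, h2, h3⟩
    refine ⟨fun r hr => ?_, by rw [← h2]; simp [mul_assoc], by simpa using h3⟩
    simp only [List.mem_append, List.mem_cons] at hr
    rcases hr with hr | rfl | rfl | hr
    · exact h1 r (by simp [hr])
    · exact (h1 t' (by simp)).conj t
    · exact h1 r (by simp)
    · exact h1 r (by simp [hr])
  · rintro ⟨h1, h2, h3⟩
    refine ⟨fun r hr => ?_, by rw [← h2]; simp [mul_assoc], by simpa using h3⟩
    simp only [List.mem_append, List.mem_cons] at hr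
    rcases hr with hr | rfl | rfl | hr
    · exact h1 r (by simp [hr])
    · exact h1 r (by simp)
    · exact (cs.isReflection_conj_iff t r).mp (h1 _ (by simp))
    · exact h1 r (by simp [hr])

/-- Hurwitz induction. -/
theorem Red.induction {l : List B} (hl : l.Nodup) {P : List W → Prop} (base : P (l.map cs.simple))
    (step : ∀ L L', Red cs l L → Step L L' → (P L ↔ P L')) {L : List W} (hL : Red cs l L) : P L := by
  have h := (hurwitz_aux _ l hl L hL.refl rfl hL.prod).2 hL.len.symm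
  have key : ∀ X Y : List W, Relation.EqvGen Step X Y →
      (Red cs l X ↔ Red cs l Y) ∧ (Red cs l X → (P X ↔ P Y)) := by
    intro X Y h
    induction h with
    | rel x y h => exact ⟨h.red_iff, fun hx => step x y hx h⟩
    | refl x => exact ⟨Iff.rfl, fun _ => Iff.rfl⟩
    | symm x y _ ih => exact ⟨ih.1.symm, fun hy => (ih.2 (ih.1.mpr hy)).symm⟩
    | trans x y z _ _ ih1 ih2 =>
      exact ⟨ih1.1.trans ih2.1, fun hx => (ih1.2 hx).trans (ih2.2 (ih1.1.mp hx))⟩
  exact ((key _ _ h).2 hL).mpr base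

end Pool.Agent.MP_d5a4a4_al

end

-- part MP_d5a4a4_al.Euler
section

/-!
The Euler form of a Coxeter element, admissible functionals, and rank two sequences.
-/

namespace Pool.Agent.MP_d5a4a4_al

open CoxeterSystem

set_option linter.unusedSectionVars false

variable {B : Type} [Fintype B] [DecidableEq B] {M : CoxeterMatrix B} {W : Type} [Group W]
  {cs : CoxeterSystem M W}

/-- An ordering `l` of the generators with its Euler form. -/
structure IsEuler (M : CoxeterMatrix B) (l : List B) (E : (B → ℝ) →ₗ[ℝ] (B → ℝ) →ₗ[ℝ] ℝ) :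
    Prop where
  nodup : l.Nodup
  all : ∀ i, i ∈ l
  symm : ∀ x y, E x y + E y x = bf M x y
  pw : l.Pairwise fun i j => E (al i) (al j) = 0

variable {l : List B} {E : (B → ℝ) →ₗ[ℝ] (B → ℝ) →ₗ[ℝ] ℝ}

theorem IsEuler.self (hE : IsEuler M l E) {β : B → ℝ} (h : IsRoot cs β) : E β β = 1 := by
  have := hE.symm β β
  rw [h.norm] at this; linarith

theorem rt_conj_sign {t t' : W} (ht : cs.IsReflection t) (ht' : cs.IsReflection t') :
    ∃ e : ℝ, e * e = 1 ∧
      rt cs (t * t' * t⁻¹) = e • (rt cs t' - bf M (rt cs t) (rt cs t') • rt cs t) := by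
  rcases rt_conj ht' t with h | h
  · exact ⟨1, by ring, by rw [h, rho_eq_refl ht, refl_apply, one_smul]⟩
  · exact ⟨-1, by ring, by rw [h, rho_eq_refl ht, refl_apply, neg_smul, one_smul]⟩

theorem Red.euler (hE : IsEuler M l E) {L : List W} (hL : Red cs l L) :
    L.Pairwise (fun t t' => E (rt cs t) (rt cs t') = 0) ∧
      ∀ y, y ∈ Submodule.span ℝ (rt cs '' {t | t ∈ L}) := by
  refine Red.induction (P := fun L => L.Pairwise (fun t t' => E (rt cs t) (rt cs t') = 0) ∧
      ∀ y, y ∈ Submodule.span ℝ (rt cs '' {t | t ∈ L})) hE.nodup ⟨?_, fun y => ?_⟩ ?_ hL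
  · rw [List.pairwise_map]; simpa [rt_simple] using hE.pw
  · rw [eq_sum_al y]
    refine Submodule.sum_mem _ fun i _ => Submodule.smul_mem _ _ (Submodule.subset_span ?_)
    exact ⟨cs.simple i, List.mem_map_of_mem (hE.all i), rt_simple i⟩
  · rintro L L' hL ⟨l₁, t, t', l₂, rfl, rfl⟩
    have ht := hL.refl t (by simp)
    have ht' := hL.refl t' (by simp)
    obtain ⟨e, he, h⟩ := rt_conj_sign ht ht'
    have h1 := hE.self (rt_root ht)
    have h2 := hE.symm (rt cs t) (rt cs t')
    set c := bf M (rt cs t) (rt cs t')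
    have h' : rt cs t' = e • rt cs (t * t' * t⁻¹) + c • rt cs t := by
      rw [h, smul_smul, he, one_smul]; abel
    have he0 : e ≠ 0 := by rintro rfl; simp at he
    refine and_congr ?_ (forall_congr' fun y => ?_)
    · simp only [List.pairwise_append, List.pairwise_cons, List.mem_cons, forall_eq_or_imp]
      constructor
      · rintro ⟨a1, ⟨⟨a2, a3⟩, a4, a5⟩, a6⟩
        refine ⟨a1, ⟨⟨?_, fun b hb => ?_⟩, a3, a5⟩, fun b hb => ⟨?_, (a6 b hb).1, (a6 b hb).2.2⟩⟩
        · rw [h]; simp only [map_smul, map_sub, LinearMap.smul_apply, LinearMap.sub_apply, h1,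
            smul_eq_mul]
          rw [← h2, a2]; ring
        · rw [h]; simp [a3 b hb, a4 b hb]
        · rw [h]; simp [(a6 b hb).1, (a6 b hb).2.1]
      · rintro ⟨a1, ⟨⟨a2, a3⟩, a4, a5⟩, a6⟩
        refine ⟨a1, ⟨⟨?_, a4⟩, fun b hb => ?_, a5⟩, fun b hb => ⟨(a6 b hb).2.1, ?_, (a6 b hb).2.2⟩⟩
        · rw [h] at a2
          simp only [map_smul, map_sub, LinearMap.smul_apply, LinearMap.sub_apply, h1,
            smul_eq_mul, mul_eq_zero, he0, false_or] at a2
          linarith
        · rw [h']; simp [a3 b hb, a4 b hb]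
        · rw [h']; simp [(a6 b hb).1, (a6 b hb).2.1]
    · have : Submodule.span ℝ (rt cs '' {r | r ∈ l₁ ++ t :: t' :: l₂}) =
          Submodule.span ℝ (rt cs '' {r | r ∈ l₁ ++ (t * t' * t⁻¹) :: t :: l₂}) := by
        apply le_antisymm <;> rw [Submodule.span_le] <;> rintro _ ⟨r, hr, rfl⟩ <;>
          simp only [List.mem_append, List.mem_cons, Set.mem_ofPred_eq] at hr
        · rcases hr with hr | rfl | rfl | hr
          · exact Submodule.subset_span ⟨r, by simp [hr], rfl⟩
          · exact Submodule.subset_span ⟨r, by simp, rfl⟩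
          · rw [h']
            exact Submodule.add_mem _
              (Submodule.smul_mem _ _ (Submodule.subset_span ⟨_, by simp, rfl⟩))
              (Submodule.smul_mem _ _ (Submodule.subset_span ⟨_, by simp, rfl⟩))
          · exact Submodule.subset_span ⟨r, by simp [hr], rfl⟩
        · rcases hr with hr | rfl | rfl | hr
          · exact Submodule.subset_span ⟨r, by simp [hr], rfl⟩
          · rw [h]
            exact Submodule.smul_mem _ _ (Submodule.sub_mem _
              (Submodule.subset_span ⟨_, by simp, rfl⟩)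
              (Submodule.smul_mem _ _ (Submodule.subset_span ⟨_, by simp, rfl⟩)))
          · exact Submodule.subset_span ⟨r, by simp, rfl⟩
          · exact Submodule.subset_span ⟨r, by simp [hr], rfl⟩
      rw [this]

theorem exists_of_mem_span_cons {t : W} {L : List W} {y : B → ℝ}
    (h : y ∈ Submodule.span ℝ (rt cs '' {r | r ∈ t :: L})) :
    ∃ c : ℝ, ∃ z ∈ Submodule.span ℝ (rt cs '' {r | r ∈ L}), y = c • rt cs t + z := by
  have : rt cs '' {r | r ∈ t :: L} = insert (rt cs t) (rt cs '' {r | r ∈ L}) := by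
    rw [← Set.image_insert_eq]; congr 1; ext r; simp
  rwa [this, Submodule.mem_span_insert] at h

theorem apply_eq_zero_of_mem_span {L : List W} {φ : (B → ℝ) →ₗ[ℝ] ℝ}
    (h : ∀ r ∈ L, φ (rt cs r) = 0) {z : B → ℝ} (hz : z ∈ Submodule.span ℝ (rt cs '' {r | r ∈ L})) :
    φ z = 0 := by
  have : Submodule.span ℝ (rt cs '' {r | r ∈ L}) ≤ LinearMap.ker φ := by
    rw [Submodule.span_le]; rintro _ ⟨r, hr, rfl⟩; exact h r hr
  exact this hz

theorem mem_span_of_perp (hE : IsEuler M l E) {L₁ L₂ : List W}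
    (hr : ∀ t ∈ L₁, cs.IsReflection t)
    (hp : (L₁ ++ L₂).Pairwise fun t t' => E (rt cs t) (rt cs t') = 0) {y : B → ℝ}
    (hy : y ∈ Submodule.span ℝ (rt cs '' {t | t ∈ L₁ ++ L₂})) (h : ∀ t ∈ L₁, E (rt cs t) y = 0) :
    y ∈ Submodule.span ℝ (rt cs '' {t | t ∈ L₂}) := by
  induction L₁ with
  | nil => simpa using hy
  | cons t L₁ ih =>
    rw [List.cons_append, List.pairwise_cons] at hp
    obtain ⟨c, z, hz, rfl⟩ := exists_of_mem_span_cons hy
    have h1 := h t (by simp)
    rw [map_add, map_smul, hE.self (rt_root (hr t (by simp))), apply_eq_zero_of_mem_span hp.1 hz]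
      at h1
    have hc : c = 0 := by simpa using h1
    subst hc
    rw [zero_smul, zero_add] at h hy ⊢
    rw [zero_smul, zero_add] at ih
    exact ih (fun r hr' => hr r (by simp [hr'])) hp.2 hz fun r hr' => h r (by simp [hr'])

theorem Red.perp (hE : IsEuler M l E) {L₁ L₂ : List W} (hL : Red cs l (L₁ ++ L₂)) {y : B → ℝ}
    (h : ∀ t ∈ L₁, E (rt cs t) y = 0) : y ∈ Submodule.span ℝ (rt cs '' {t | t ∈ L₂}) :=
  mem_span_of_perp hE (fun t ht => hL.refl t (by simp [ht])) (hL.euler hE).1 ((hL.euler hE).2 y) h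

theorem Red.zero (hE : IsEuler M l E) {L₁ L₂ : List W} (hL : Red cs l (L₁ ++ L₂)) {t t' : W}
    (ht : t ∈ L₁) (ht' : t' ∈ L₂) : E (rt cs t) (rt cs t') = 0 :=
  (List.pairwise_append.mp (hL.euler hE).1).2.2 t ht t' ht'

theorem Red.swap (hl : l.Nodup) {L₁ L₂ K₁ K₂ : List W} (hL : Red cs l (L₁ ++ L₂))
    (hK : Red cs l (K₁ ++ K₂)) (h : L₂.prod = K₂.prod) : Red cs l (L₁ ++ K₂) := by
  have r1 : ∀ t ∈ L₁ ++ K₂, cs.IsReflection t := fun t ht => by
    rcases List.mem_append.mp ht with ht | ht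
    · exact hL.refl t (by simp [ht])
    · exact hK.refl t (by simp [ht])
  have r2 : ∀ t ∈ K₁ ++ L₂, cs.IsReflection t := fun t ht => by
    rcases List.mem_append.mp ht with ht | ht
    · exact hK.refl t (by simp [ht])
    · exact hL.refl t (by simp [ht])
  have p1 : (L₁ ++ K₂).prod = cs.wordProd l := by rw [← hL.prod]; simp [h]
  have p2 : (K₁ ++ L₂).prod = cs.wordProd l := by rw [← hK.prod]; simp [h]
  have h1 := length_le_of_prod hl r1 p1
  have h2 := length_le_of_prod hl r2 p2
  have h3 := hL.len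
  have h4 := hK.len
  simp only [List.length_append] at h1 h2 h3 h4
  exact ⟨r1, p1, by simp only [List.length_append]; omega⟩

theorem prod_map_conj (u : W) (L : List W) :
    (L.map fun t => u * t * u⁻¹).prod = u * L.prod * u⁻¹ := by
  induction L with
  | nil => simp
  | cons a L ih => rw [List.map_cons, List.prod_cons, ih]; simp [mul_assoc]

theorem Red.move {L₁ L₂ L₃ : List W} (hL : Red cs l (L₁ ++ L₂ ++ L₃)) :
    Red cs l (L₁ ++ L₃.map (fun t => L₂.prod * t * L₂.prod⁻¹) ++ L₂) := by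
  refine ⟨fun t ht => ?_, ?_, ?_⟩
  · simp only [List.mem_append, List.mem_map] at ht
    rcases ht with (ht | ⟨r, hr, rfl⟩) | ht
    · exact hL.refl t (by simp [ht])
    · exact (hL.refl r (by simp [hr])).conj _
    · exact hL.refl t (by simp [ht])
  · rw [← hL.prod, List.prod_append, List.prod_append, prod_map_conj]; simp [mul_assoc]
  · rw [← hL.len]; simp [add_comm]

theorem Red.replace {L₁ L₂ L₃ K : List W} (hL : Red cs l (L₁ ++ L₂ ++ L₃))
    (hK : ∀ t ∈ K, cs.IsReflection t) (hp : K.prod = L₂.prod) (hlen : K.length = L₂.length) :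
    Red cs l (L₁ ++ K ++ L₃) := by
  refine ⟨fun t ht => ?_, ?_, ?_⟩
  · simp only [List.mem_append] at ht
    rcases ht with (ht | ht) | ht
    · exact hL.refl t (by simp [ht])
    · exact hK t ht
    · exact hL.refl t (by simp [ht])
  · rw [← hL.prod]; simp [hp]
  · rw [← hL.len]; simp [hlen]

variable (cs l) in
/-- `t` occurs to the left of `u` in a shortest factorisation. -/
def Left (u t : W) : Prop := ∃ L₁ L₂, Red cs l (L₁ ++ L₂) ∧ L₂.prod = u ∧ t ∈ L₁

variable (cs l E) in
/-- Functionals in the interior of the cone spanned by the `E β` for `β` to the left of `u`. -/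
def Adm (u : W) (θ : (B → ℝ) →ₗ[ℝ] ℝ) : Prop :=
  ∀ y, (∀ t, Left cs l u t → E (rt cs t) y ≤ 0) →
    θ y ≤ 0 ∧ (θ y = 0 → ∀ t, Left cs l u t → E (rt cs t) y = 0)

variable (cs E) in
/-- The list version. -/
def AdmL (L : List W) (θ : (B → ℝ) →ₗ[ℝ] ℝ) : Prop :=
  ∀ y, (∀ t ∈ L, E (rt cs t) y ≤ 0) → θ y ≤ 0 ∧ (θ y = 0 → ∀ t ∈ L, E (rt cs t) y = 0)

theorem Left.zero (hE : IsEuler M l E) {L₁ L₂ : List W} (hL : Red cs l (L₁ ++ L₂)) {t t' : W}
    (ht : Left cs l L₂.prod t) (ht' : t' ∈ L₂) : E (rt cs t) (rt cs t') = 0 := by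
  obtain ⟨K₁, K₂, hK, hp, ht⟩ := ht
  exact (hK.swap hE.nodup hL hp).zero hE ht ht'

theorem Left.zero_of (hE : IsEuler M l E) {L₁ L₂ : List W} (hL : Red cs l (L₁ ++ L₂)) {y : B → ℝ}
    (h : ∀ t ∈ L₁, E (rt cs t) y = 0) {t : W} (ht : Left cs l L₂.prod t) : E (rt cs t) y = 0 :=
  apply_eq_zero_of_mem_span (fun _ hr => ht.zero hE hL hr) (hL.perp hE h)

theorem AdmL.adm (hE : IsEuler M l E) {L₁ L₂ : List W} (hL : Red cs l (L₁ ++ L₂))
    {θ : (B → ℝ) →ₗ[ℝ] ℝ} (h : AdmL cs E L₁ θ) : Adm cs l E L₂.prod θ := by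
  intro y hy
  obtain ⟨h1, h2⟩ := h y fun t ht => hy t ⟨L₁, L₂, hL, rfl, ht⟩
  exact ⟨h1, fun h0 t ht => ht.zero_of hE hL (h2 h0)⟩

theorem AdmL.snoc {L : List W} {θ : (B → ℝ) →ₗ[ℝ] ℝ} (h : AdmL cs E L θ) (t : W) {c : ℝ}
    (hc : 0 < c) : AdmL cs E (L ++ [t]) (θ + c • E (rt cs t)) := by
  intro y hy
  obtain ⟨h1, h2⟩ := h y fun r hr => hy r (by simp [hr])
  have h3 := hy t (by simp)
  have h4 : c * E (rt cs t) y ≤ 0 := mul_nonpos_of_nonneg_of_nonpos hc.le h3
  simp only [LinearMap.add_apply, LinearMap.smul_apply, smul_eq_mul]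
  refine ⟨by linarith, fun h0 r hr => ?_⟩
  rcases List.mem_append.mp hr with hr | hr
  · exact h2 (by linarith) r hr
  · rw [List.mem_singleton.mp hr]
    have : c * E (rt cs t) y = 0 := by linarith
    exact (mul_eq_zero.mp this).resolve_left hc.ne'

theorem exists_admL (L : List W) : ∃ θ, AdmL cs E L θ := by
  induction L using List.reverseRecOn with
  | nil => exact ⟨0, fun y _ => ⟨le_rfl, fun _ t ht => by simp at ht⟩⟩
  | append_singleton L t ih =>
    obtain ⟨θ, h⟩ := ih
    exact ⟨_, h.snoc t one_pos⟩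

theorem AdmL.zero {L : List W} {θ : (B → ℝ) →ₗ[ℝ] ℝ} (h : AdmL cs E L θ) {y : B → ℝ}
    (hy : ∀ t ∈ L, E (rt cs t) y = 0) : θ y = 0 := by
  have h1 := (h y fun t ht => (hy t ht).le).1
  have h2 := (h (-y) fun t ht => by rw [map_neg, hy t ht, neg_zero]).1
  rw [map_neg] at h2; linarith

theorem Adm.zero {u : W} {θ : (B → ℝ) →ₗ[ℝ] ℝ} (h : Adm cs l E u θ) {y : B → ℝ}
    (hy : ∀ t, Left cs l u t → E (rt cs t) y = 0) : θ y = 0 := by
  have h1 := (h y fun t ht => (hy t ht).le).1
  have h2 := (h (-y) fun t ht => by rw [map_neg, hy t ht, neg_zero]).1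
  rw [map_neg] at h2; linarith

theorem Adm.comb {u : W} {θ θ' : (B → ℝ) →ₗ[ℝ] ℝ} (h : Adm cs l E u θ) (h' : Adm cs l E u θ')
    {a b : ℝ} (ha : 0 < a) (hb : 0 < b) : Adm cs l E u (a • θ + b • θ') := by
  intro y hy
  obtain ⟨h1, h2⟩ := h y hy
  obtain ⟨h3, -⟩ := h' y hy
  have h4 : a * θ y ≤ 0 := mul_nonpos_of_nonneg_of_nonpos ha.le h1
  have h5 : b * θ' y ≤ 0 := mul_nonpos_of_nonneg_of_nonpos hb.le h3
  simp only [LinearMap.add_apply, LinearMap.smul_apply, smul_eq_mul]
  refine ⟨by linarith, fun h0 => h2 ?_⟩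
  have : a * θ y = 0 := by linarith
  exact (mul_eq_zero.mp this).resolve_left ha.ne'

variable (cs l E) in
/-- The key bound on inversions killed by an admissible functional. -/
def KeyBound : Prop :=
  ∀ L₁ L₂ : List W, Red cs l (L₁ ++ L₂) → ∀ θ, Adm cs l E L₂.prod θ →
    ∀ N : Finset (B → ℝ), (∀ γ ∈ N, γ ∈ Inv cs L₂.prod ∧ θ γ = 0) → N.card ≤ L₂.length

/-! ### Rank two sequences -/

/-- Height of a vector. -/
def ht : (B → ℝ) →ₗ[ℝ] ℝ := ∑ i, LinearMap.proj i

theorem ht_apply (x : B → ℝ) : ht x = ∑ i, x i := by simp [ht]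

theorem ht_nonneg {x : B → ℝ} (h : 0 ≤ x) : 0 ≤ ht x := by
  rw [ht_apply]; exact Finset.sum_nonneg fun i _ => h i

theorem ht_pos {x : B → ℝ} (h : 0 ≤ x) (h0 : x ≠ 0) : 0 < ht x := by
  refine (ht_nonneg h).lt_of_ne fun e => h0 ?_
  rw [ht_apply, eq_comm, Finset.sum_eq_zero_iff_of_nonneg fun i _ => h i] at e
  funext i; exact e i (Finset.mem_univ i)

theorem ht_rt_pos {t : W} (h : cs.IsReflection t) : 0 < ht (rt cs t) :=
  ht_pos (rt_nonneg h) (rt_root h).ne_zero

/-- The Hurwitz orbit of a pair. -/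
def tau (t₁ t₀ : W) (k : ℤ) : W := (t₁ * t₀) ^ k * t₀

section tau
variable {t₁ t₀ : W} (h₁ : cs.IsReflection t₁) (h₀ : cs.IsReflection t₀)
include h₁ h₀

theorem tau_zero' : tau t₁ t₀ 0 = t₀ := by simp [tau]

theorem tau_one' : tau t₁ t₀ 1 = t₁ := by simp [tau, mul_assoc, h₀.mul_self]

theorem conj_zpow' (k : ℤ) : t₀ * (t₁ * t₀) ^ k * t₀ = (t₁ * t₀) ^ (-k) := by
  have : t₀ * (t₁ * t₀) * t₀⁻¹ = (t₁ * t₀)⁻¹ := by
    rw [mul_inv_rev, h₀.inv, h₁.inv]; simp [mul_assoc, h₀.mul_self]
  rw [zpow_neg, ← inv_zpow, ← this, conj_zpow, h₀.inv]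

theorem tau_mul (j k : ℤ) : tau t₁ t₀ j * tau t₁ t₀ k = (t₁ * t₀) ^ (j - k) := by
  rw [tau, tau, mul_assoc, ← mul_assoc t₀, conj_zpow' h₁ h₀, ← zpow_add, sub_eq_add_neg]

theorem tau_succ_mul (k : ℤ) : tau t₁ t₀ (k + 1) * tau t₁ t₀ k = t₁ * t₀ := by
  rw [tau_mul h₁ h₀]; simp

theorem tau_inv (k : ℤ) : (tau t₁ t₀ k)⁻¹ = tau t₁ t₀ k := by
  apply inv_eq_of_mul_eq_one_right; rw [tau_mul h₁ h₀]; simp

theorem tau_conj (j k : ℤ) :
    tau t₁ t₀ j * tau t₁ t₀ k * (tau t₁ t₀ j)⁻¹ = tau t₁ t₀ (2 * j - k) := by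
  rw [tau_inv h₁ h₀, tau_mul h₁ h₀, tau, tau, ← mul_assoc, ← zpow_add]
  congr 2; ring

theorem tau_refl (k : ℤ) : cs.IsReflection (tau t₁ t₀ k) := by
  have : cs.IsReflection (tau t₁ t₀ k) ∧ cs.IsReflection (tau t₁ t₀ (k + 1)) := by
    induction k using Int.induction_on with
    | zero => rw [zero_add, tau_zero' h₁ h₀, tau_one' h₁ h₀]; exact ⟨h₀, h₁⟩
    | succ k ih =>
      refine ⟨ih.2, ?_⟩
      have := ih.1.conj (tau t₁ t₀ (k + 1))
      rwa [tau_conj h₁ h₀, show 2 * ((k : ℤ) + 1) - k = k + 1 + 1 by ring] at this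
    | pred k ih =>
      refine ⟨?_, by simpa using ih.1⟩
      have := ih.2.conj (tau t₁ t₀ (-k))
      rwa [tau_conj h₁ h₀, show 2 * (-(k : ℤ)) - (-k + 1) = -k - 1 by ring] at this
  exact this.1

theorem exists_simple_pair {φ : (B → ℝ) →ₗ[ℝ] ℝ} (hφ₀ : φ (rt cs t₀) = 0)
    (hφ₁ : φ (rt cs t₁) = 1) :
    ∃ k : ℤ, bf M (rt cs (tau t₁ t₀ (k + 1))) (rt cs (tau t₁ t₀ k)) ≤ 0 := by
  by_contra hc
  push Not at hc
  set β : ℤ → B → ℝ := fun k => rt cs (tau t₁ t₀ k) with hβ
  have hr := tau_refl h₁ h₀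
  have hstep : ∀ k : ℤ, β (k + 1 + 1) = bf M (β (k + 1)) (β k) • β (k + 1) - β k := by
    intro k
    obtain ⟨e, he, h⟩ := rt_conj_sign (hr (k + 1)) (hr k)
    rw [tau_conj h₁ h₀, show 2 * (k + 1) - k = k + 1 + 1 by ring] at h
    have h2 := hc (k + 1)
    have h3 := hc k
    rw [h] at h2
    simp only [map_smul, map_sub, LinearMap.smul_apply, LinearMap.sub_apply, smul_eq_mul,
      (rt_root (hr (k + 1))).norm, bf_comm (rt cs (tau t₁ t₀ k))] at h2
    have he' : e = -1 := by
      have : (e - 1) * (e + 1) = 0 := by linarith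
      rcases mul_eq_zero.mp this with h4 | h4
      · rw [show e = 1 by linarith] at h2; linarith
      · linarith
    simp only [hβ]; rw [h, he']; module
  set h := bf M (β 1) (β 0) with hh
  have hconst : ∀ k : ℤ, bf M (β (k + 1)) (β k) = h := by
    have : ∀ k : ℤ, bf M (β (k + 1 + 1)) (β (k + 1)) = bf M (β (k + 1)) (β k) := fun k => by
      rw [hstep k]
      have hn : bf M (β (k + 1)) (β (k + 1)) = 2 := (rt_root (hr (k + 1))).norm
      simp only [map_smul, map_sub, LinearMap.smul_apply, LinearMap.sub_apply, smul_eq_mul, hn,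
        bf_comm (β k)]
      ring
    intro k
    induction k using Int.induction_on with
    | zero => rw [zero_add]
    | succ k ih => rw [this, ih]
    | pred k ih => rw [← this, sub_add_cancel, ih]
  have hrec : ∀ k : ℤ, β (k + 1 + 1) = h • β (k + 1) - β k := fun k => by rw [hstep, hconst]
  rcases lt_or_ge h 2 with h2 | h2
  · set f : ℤ → ℝ := fun k => ht (β k) with hf
    have hpos : ∀ k, 0 < f k := fun k => ht_rt_pos (hr k)
    have hconc : ∀ k, f (k + 1 + 1) - f (k + 1) < f (k + 1) - f k := fun k => by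
      have : f (k + 1 + 1) = h * f (k + 1) - f k := by simp only [hf]; rw [hrec]; simp
      nlinarith [hpos (k + 1)]
    have hup : ∀ k, f k ≤ f (k + 1) := by
      intro k
      by_contra hlt
      push Not at hlt
      have key : ∀ n : ℕ, f (k + n + 1) - f (k + n) ≤ f (k + 1) - f k ∧
          f (k + n) ≤ f k + n * (f (k + 1) - f k) := by
        intro n
        induction n with
        | zero => simp
        | succ n ih =>
          push_cast
          rw [← add_assoc]
          exact ⟨by linarith [hconc (k + n), ih.1], by linarith [ih.1, ih.2]⟩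
      obtain ⟨n, hn⟩ := exists_nat_gt (f k / (f k - f (k + 1)))
      rw [div_lt_iff₀ (by linarith)] at hn
      nlinarith [(key n).2, hpos (k + n)]
    have key : ∀ n : ℕ, f 1 - f 0 ≤ f (-n + 1) - f (-n) ∧ f (-n + 1) ≤ f 1 - n * (f 1 - f 0) := by
      intro n
      induction n with
      | zero => simp
      | succ n ih =>
        push_cast
        have := hconc (-(n + 1))
        rw [show -((n : ℤ) + 1) + 1 = -n by ring] at this ⊢
        exact ⟨by linarith [ih.1], by linarith [ih.1, ih.2]⟩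
    have hd : 0 < f 1 - f 0 := by
      have h3 := hconc 0
      have h4 := hup 1
      simp only [zero_add] at h3; linarith
    obtain ⟨n, hn⟩ := exists_nat_gt (f 1 / (f 1 - f 0))
    rw [div_lt_iff₀ hd] at hn
    linarith [(key n).2, hpos (-n + 1)]
  · have hβ0 : β 0 = rt cs t₀ := by simp only [hβ, tau_zero' h₁ h₀]
    have hβ1 : β 1 = rt cs t₁ := by simp only [hβ, tau_one' h₁ h₀]
    have hneg : ∀ n : ℕ, rho cs t₀ (β n) = -β (-n) ∧ rho cs t₀ (β (n + 1)) = -β (-(n + 1)) := by
      intro n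
      induction n with
      | zero =>
        simp only [Nat.cast_zero, neg_zero, zero_add]
        refine ⟨by rw [hβ0, rho_rt h₀], ?_⟩
        have := hrec (-1)
        simp only [neg_add_cancel, zero_add] at this
        rw [rho_eq_refl h₀, refl_apply, ← hβ0, bf_comm, ← hh, this]; abel
      | succ n ih =>
        push_cast
        refine ⟨ih.2, ?_⟩
        have := hrec (-(n + 1 + 1))
        rw [show -((n : ℤ) + 1 + 1) + 1 = -(n + 1) by ring, show -((n : ℤ) + 1) + 1 = -n by ring]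
          at this
        rw [hrec, map_sub, map_smul, ih.1, ih.2, this]; module
    have hmono : ∀ n : ℕ, 0 ≤ φ (β n) ∧ φ (β n) + 1 ≤ φ (β (n + 1)) := by
      intro n
      induction n with
      | zero => simp [hβ0, hβ1, hφ₀, hφ₁]
      | succ n ih =>
        push_cast
        refine ⟨by linarith [ih.1, ih.2], ?_⟩
        rw [hrec, map_sub, map_smul, smul_eq_mul]
        nlinarith [ih.1, ih.2]
    have hsm : StrictMono fun n : ℕ => φ (β n) :=
      strictMono_nat_of_lt_succ fun n => by push_cast; linarith [(hmono n).2]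
    refine (finite_inv (cs := cs) t₀).not_infinite (Set.infinite_of_injective_forall_mem
      (f := fun n : ℕ => β n) (fun a b e => hsm.injective (by simp only [e])) fun n => ?_)
    exact ⟨rt_root (hr n), rt_nonneg (hr n), by
      rw [h₀.inv, (hneg n).1]; exact neg_nonpos.mpr (rt_nonneg (hr _))⟩

end tau

theorem forward_pos {b : ℕ → W} (hb : ∀ n, cs.IsReflection (b n))
    (hrec : ∀ n, b (n + 2) = b (n + 1) * b n * (b (n + 1))⁻¹)
    (h2 : 2 ≤ bf M (rt cs (b 1)) (rt cs (b 0))) (hle : ht (rt cs (b 0)) ≤ ht (rt cs (b 1))) (n : ℕ) :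
    2 ≤ bf M (rt cs (b (n + 1))) (rt cs (b n)) := by
  have : 2 ≤ bf M (rt cs (b (n + 1))) (rt cs (b n)) ∧ ht (rt cs (b n)) ≤ ht (rt cs (b (n + 1))) := by
    induction n with
    | zero => exact ⟨h2, hle⟩
    | succ n ih =>
      obtain ⟨e, he, h⟩ := rt_conj_sign (hb (n + 1)) (hb n)
      rw [← hrec] at h
      have p1 := ht_rt_pos (hb (n + 1))
      have p2 := ht_rt_pos (hb (n + 2))
      have hh := congrArg ht h
      rw [map_smul, map_sub, map_smul, smul_eq_mul, smul_eq_mul] at hh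
      have he' : e = -1 := by
        have : (e - 1) * (e + 1) = 0 := by linarith
        rcases mul_eq_zero.mp this with h4 | h4
        · rw [show e = 1 by linarith] at hh; nlinarith [ih.1, ih.2]
        · linarith
      subst he'
      refine ⟨?_, by nlinarith [ih.1, ih.2]⟩
      rw [h]
      simp only [map_smul, map_sub, LinearMap.smul_apply, LinearMap.sub_apply, smul_eq_mul,
        (rt_root (hb (n + 1))).norm, bf_comm (rt cs (b n))]
      linarith [ih.1]
  exact this.1

theorem exists_lower_pair {t₁ t₀ : W} (h₁ : cs.IsReflection t₁) (h₀ : cs.IsReflection t₀)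
    {φ : (B → ℝ) →ₗ[ℝ] ℝ} (hφ₀ : φ (rt cs t₀) = 0) (hφ₁ : φ (rt cs t₁) = 1)
    (hpos : 0 < bf M (rt cs t₁) (rt cs t₀)) :
    ∃ r₁ r₀, cs.IsReflection r₁ ∧ cs.IsReflection r₀ ∧ r₁ * r₀ = t₁ * t₀ ∧
      ht (rt cs r₁) + ht (rt cs r₀) < ht (rt cs t₁) + ht (rt cs t₀) := by
  by_contra hc
  push Not at hc
  have hr := tau_refl h₁ h₀
  set β : ℤ → B → ℝ := fun k => rt cs (tau t₁ t₀ k) with hβ
  have hβ0 : β 0 = rt cs t₀ := by simp only [hβ, tau_zero' h₁ h₀]
  have hβ1 : β 1 = rt cs t₁ := by simp only [hβ, tau_one' h₁ h₀]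
  set h := bf M (rt cs t₁) (rt cs t₀) with hh
  have p0 := ht_rt_pos h₀
  have p1 := ht_rt_pos h₁
  have c1 : ht (rt cs t₀) ≤ ht (β 2) := by
    have := hc _ _ (hr (1 + 1)) (hr 1) (tau_succ_mul h₁ h₀ 1)
    rw [tau_one' h₁ h₀] at this
    change _ ≤ ht (β 2) + _ at this
    linarith
  have c2 : ht (rt cs t₁) ≤ ht (β (-1)) := by
    have := hc _ _ (hr (-1 + 1)) (hr (-1)) (tau_succ_mul h₁ h₀ (-1))
    rw [neg_add_cancel, tau_zero' h₁ h₀] at this
    change _ ≤ _ + ht (β (-1)) at this
    linarith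
  have e1 : β 2 = h • rt cs t₁ - rt cs t₀ := by
    obtain ⟨e, he, h3⟩ := rt_conj_sign (hr 1) (hr 0)
    rw [tau_conj h₁ h₀, tau_one' h₁ h₀, tau_zero' h₁ h₀, ← hh] at h3
    change β 2 = _ at h3
    have : (e - 1) * (e + 1) = 0 := by linarith
    rcases mul_eq_zero.mp this with h4 | h4
    · rw [h3, show e = 1 by linarith] at c1
      simp only [one_smul, map_sub, map_smul, smul_eq_mul] at c1
      nlinarith
    · rw [h3, show e = -1 by linarith]; module
  have e2 : β (-1) = h • rt cs t₀ - rt cs t₁ := by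
    obtain ⟨e, he, h3⟩ := rt_conj_sign (hr 0) (hr 1)
    rw [tau_conj h₁ h₀, tau_one' h₁ h₀, tau_zero' h₁ h₀, bf_comm, ← hh] at h3
    change β (-1) = _ at h3
    have : (e - 1) * (e + 1) = 0 := by linarith
    rcases mul_eq_zero.mp this with h4 | h4
    · rw [h3, show e = 1 by linarith] at c2
      simp only [one_smul, map_sub, map_smul, smul_eq_mul] at c2
      nlinarith
    · rw [h3, show e = -1 by linarith]; module
  have h2 : 2 ≤ h := by
    rw [e1] at c1; rw [e2] at c2
    simp only [map_sub, map_smul, smul_eq_mul] at c1 c2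
    by_contra hlt
    push Not at hlt
    nlinarith
  have b1 : bf M (β 2) (β 1) = h := by
    rw [e1, hβ1]
    simp only [map_smul, map_sub, LinearMap.smul_apply, LinearMap.sub_apply, smul_eq_mul,
      (rt_root h₁).norm, bf_comm (rt cs t₀), ← hh]
    ring
  have b2 : bf M (β (-1)) (β 0) = h := by
    rw [e2, hβ0]
    simp only [map_smul, map_sub, LinearMap.smul_apply, LinearMap.sub_apply, smul_eq_mul,
      (rt_root h₀).norm, ← hh]
    ring
  have b0 : bf M (β 1) (β 0) = h := by rw [hβ0, hβ1]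
  have fwd : ∀ k₀ : ℤ, 2 ≤ bf M (β (k₀ + 1)) (β k₀) → ht (β k₀) ≤ ht (β (k₀ + 1)) →
      ∀ k, k₀ ≤ k → 2 ≤ bf M (β (k + 1)) (β k) := by
    intro k₀ a1 a2 k hk
    obtain ⟨n, rfl⟩ := Int.le.dest hk
    have := forward_pos (b := fun n : ℕ => tau t₁ t₀ (k₀ + n)) (fun n => hr _) (fun n => by
      rw [tau_conj h₁ h₀]; congr 1; push_cast; ring) (by simpa using a1) (by simpa using a2) n
    simpa [add_assoc] using this
  have bwd : ∀ k₀ : ℤ, 2 ≤ bf M (β (k₀ - 1)) (β k₀) → ht (β k₀) ≤ ht (β (k₀ - 1)) →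
      ∀ k, k + 1 ≤ k₀ → 2 ≤ bf M (β (k + 1)) (β k) := by
    intro k₀ a1 a2 k hk
    obtain ⟨n, rfl⟩ := Int.le.dest hk
    have := forward_pos (b := fun m : ℕ => tau t₁ t₀ (k + 1 + n - m)) (fun n => hr _) (fun m => by
      rw [tau_conj h₁ h₀]; congr 1; push_cast; ring) (by simpa using a1) (by simpa using a2) n
    rw [bf_comm]
    have e3 : k + 1 + n - ((n + 1 : ℕ) : ℤ) = k := by push_cast; ring
    have e4 : k + 1 + n - (n : ℤ) = k + 1 := by ring
    simp only [e3, e4] at this
    exact this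
  obtain ⟨k, hk⟩ := exists_simple_pair h₁ h₀ hφ₀ hφ₁
  change bf M (β (k + 1)) (β k) ≤ 0 at hk
  rcases le_total (ht (rt cs t₀)) (ht (rt cs t₁)) with hle | hle
  · rcases le_or_gt 0 k with hk0 | hk0
    · linarith [fwd 0 (by rw [zero_add, b0]; exact h2) (by rwa [zero_add, hβ0, hβ1]) k hk0]
    · linarith [bwd 0 (by rw [zero_sub, b2]; exact h2) (by rw [zero_sub, hβ0]; linarith) k
        (by omega)]
  · rcases le_or_gt 1 k with hk0 | hk0
    · linarith [fwd 1 (by rw [one_add_one_eq_two, b1]; exact h2)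
        (by rw [one_add_one_eq_two, hβ1]; linarith) k hk0]
    · linarith [bwd 1 (by rw [sub_self, bf_comm, b0]; exact h2) (by rwa [sub_self, hβ0, hβ1]) k
        (by omega)]

end Pool.Agent.MP_d5a4a4_al

end

-- part MP_d5a4a4_al.Mikado
section

/-!
Signed lifts of a Coxeter group to a group with braid relations (Mikado braids).
-/

namespace Pool.Agent.MP_d5a4a4_al

open CoxeterSystem

set_option linter.unusedSectionVars false

/-- The positive cone of a total order on a real vector space. -/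
structure Sg (V : Type) [AddCommGroup V] [Module ℝ V] where
  p : V → Prop
  neg : ∀ x, x ≠ 0 → (p (-x) ↔ ¬ p x)
  add : ∀ x y, p x → p y → p (x + y)
  smul : ∀ (c : ℝ) x, 0 < c → p x → p (c • x)

namespace Sg

variable {V : Type} [AddCommGroup V] [Module ℝ V]

@[ext] theorem ext {ε ε' : Sg V} (h : ∀ x, ε.p x ↔ ε'.p x) : ε = ε' := by
  cases ε; cases ε'; congr; funext x; exact propext (h x)

/-- Refine a linear functional by a sign. -/
def lex (θ : V →ₗ[ℝ] ℝ) (ε : Sg V) : Sg V where
  p x := 0 < θ x ∨ (θ x = 0 ∧ ε.p x)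
  neg x hx := by
    rw [map_neg, ε.neg x hx]
    rcases lt_trichotomy (θ x) 0 with h | h | h
    · simp [h, h.ne, h.le]
    · simp [h]
    · simp [h, h.ne', h.le]
  add x y hx hy := by
    rw [map_add]
    rcases hx with hx | hx <;> rcases hy with hy | hy
    · left; linarith
    · left; linarith [hy.1]
    · left; linarith [hx.1]
    · right; exact ⟨by rw [hx.1, hy.1, add_zero], ε.add _ _ hx.2 hy.2⟩
  smul c x hc hx := by
    rw [map_smul, smul_eq_mul]
    rcases hx with hx | hx
    · left; positivity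
    · right; exact ⟨by rw [hx.1, mul_zero], ε.smul _ _ hc hx.2⟩

theorem lex_pos {θ : V →ₗ[ℝ] ℝ} {ε : Sg V} {x : V} (h : 0 < θ x) : (lex θ ε).p x := Or.inl h

theorem lex_neg {θ : V →ₗ[ℝ] ℝ} {ε : Sg V} {x : V} (h : θ x < 0) : ¬ (lex θ ε).p x := by
  rintro (h1 | h1)
  · linarith
  · linarith [h1.1]

theorem lex_zero {θ : V →ₗ[ℝ] ℝ} {ε : Sg V} {x : V} (h : θ x = 0) : (lex θ ε).p x ↔ ε.p x := by
  simp [lex, h]

/-- Pull a sign back along an injective linear map. -/
def comap (ε : Sg V) (f : V →ₗ[ℝ] V) (hf : Function.Injective f) : Sg V where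
  p x := ε.p (f x)
  neg x hx := by rw [map_neg, ε.neg _ (fun h => hx (hf (by rw [h, map_zero])))]
  add x y hx hy := by rw [map_add]; exact ε.add _ _ hx hy
  smul c x hc hx := by rw [map_smul]; exact ε.smul _ _ hc hx

theorem cone {ε : Sg V} {x y : V} (hx : ε.p x) (hy : ε.p y) {a b : ℝ} (ha : 0 ≤ a) (hb : 0 ≤ b)
    (h : 0 < a ∨ 0 < b) : ε.p (a • x + b • y) := by
  rcases ha.eq_or_lt with rfl | ha'
  · have hb' : 0 < b := by simpa using h
    simpa using ε.smul _ _ hb' hy
  rcases hb.eq_or_lt with rfl | hb'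
  · simpa using ε.smul _ _ ha' hx
  exact ε.add _ _ (ε.smul _ _ ha' hx) (ε.smul _ _ hb' hy)

theorem nonempty (B : Type) [Fintype B] : Nonempty (Sg (B → ℝ)) := by
  classical
  let e := Fintype.equivFin B
  refine ⟨⟨fun x => ∃ i, 0 < x i ∧ ∀ j, e j < e i → x j = 0, ?_, ?_, ?_⟩⟩
  · intro x hx
    constructor
    · rintro ⟨i, hi, hi'⟩ ⟨j, hj, hj'⟩
      simp only [Pi.neg_apply, neg_eq_zero, Left.neg_pos_iff] at hi hi'
      rcases lt_trichotomy (e i) (e j) with h | h | h
      · linarith [hj' i h]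
      · rw [e.injective h] at hi; linarith
      · linarith [hi' j h]
    · intro h
      have hne : (Finset.univ.filter fun i => x i ≠ 0).Nonempty := by
        by_contra hc
        apply hx; funext i
        by_contra hi
        exact hc ⟨i, by simpa using hi⟩
      obtain ⟨i, hi, hmin⟩ := Finset.exists_min_image _ e hne
      have hz : ∀ j, e j < e i → x j = 0 := fun j hj => by
        by_contra hc
        exact absurd (hmin j (by simpa using hc)) (not_le.mpr hj)
      have hi' : x i ≠ 0 := by simpa using hi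
      rcases lt_or_gt_of_ne hi' with h1 | h1
      · exact ⟨i, by simpa using h1, fun j hj => by simpa using hz j hj⟩
      · exact (h ⟨i, h1, hz⟩).elim
  · rintro x y ⟨i, hi, hi'⟩ ⟨j, hj, hj'⟩
    rcases lt_trichotomy (e i) (e j) with h | h | h
    · exact ⟨i, by simp [hj' i h, hi], fun k hk => by simp [hi' k hk, hj' k (hk.trans h)]⟩
    · obtain rfl := e.injective h
      exact ⟨i, by simp only [Pi.add_apply]; linarith, fun k hk => by simp [hi' k hk, hj' k hk]⟩
    · exact ⟨j, by simp [hi' j h, hj], fun k hk => by simp [hj' k hk, hi' k (hk.trans h)]⟩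
  · rintro c x hc ⟨i, hi, hi'⟩
    exact ⟨i, by simp only [Pi.smul_apply, smul_eq_mul]; positivity,
      fun k hk => by simp [hi' k hk]⟩

end Sg

section Words
variable {A : Type} [Group A]

/-- Product of `n` consecutive terms. -/
def seg (T : ℕ → A) (k : ℕ) : ℕ → A
  | 0 => 1
  | n + 1 => seg T k n * T (k + n)

theorem seg_succ' (T : ℕ → A) (k n : ℕ) : seg T k (n + 1) = T k * seg T (k + 1) n := by
  induction n with
  | zero => simp [seg]
  | succ n ih => rw [seg, ih, seg, mul_assoc, show k + (n + 1) = k + 1 + n by ring]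

theorem seg_add (T : ℕ → A) (k n n' : ℕ) : seg T k (n + n') = seg T k n * seg T (k + n) n' := by
  induction n' with
  | zero => simp [seg]
  | succ n' ih => rw [← add_assoc, seg, ih, seg, mul_assoc, add_assoc]

theorem seg_eq_one_of_shift {T : ℕ → A} {n : ℕ} (hT : ∀ k, T (k + n) = T k) (k : ℕ)
    (h : seg T k n = 1) : seg T 0 n = 1 := by
  induction k with
  | zero => exact h
  | succ k ih =>
    apply ih
    have h1 := seg_succ' T k n
    rw [seg, hT, h, mul_one] at h1
    exact mul_eq_right.mp h1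

theorem seg_pos {T : ℕ → A} {x y : A} {k n : ℕ}
    (h : ∀ r < n, T (k + r) = if Even (k + r) then x else y) :
    seg T k n = alt (if Even k then x else y) (if Even k then y else x) n := by
  induction n with
  | zero => rfl
  | succ n ih =>
    rw [seg, alt_succ, ih fun r hr => h r (by omega), h n (by omega)]
    by_cases h1 : Even k <;> by_cases h2 : Even n <;> simp [h1, h2, Nat.even_add]

theorem seg_neg {T : ℕ → A} {x y : A} {k n : ℕ}
    (h : ∀ r < n, T (k + r) = (if Even (k + r) then x else y)⁻¹) :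
    seg T k n = (alt (if Even (k + n) then y else x) (if Even (k + n) then x else y) n)⁻¹ := by
  induction n with
  | zero => simp [seg, alt]
  | succ n ih =>
    rw [seg, alt_succ', ih fun r hr => h r (by omega), h n (by omega), mul_inv_rev, ← add_assoc]
    by_cases h1 : Even (k + n) <;> simp [h1, Nat.even_add_one]

open Classical in
theorem seg_braid {x y : A} {m : ℕ} (hb : alt x y m = alt y x m) {e : ℕ → Prop}
    (h1 : ∀ k, e (k + m) ↔ ¬ e k) (h2 : ∀ k, ¬ e k → e (k + 1) → ∀ r < m, e (k + 1 + r)) :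
    seg (fun k => if e k then (if Even k then x else y) else (if Even k then x else y)⁻¹) 0
      (m + m) = 1 := by
  have hex : ∃ k, ¬ e k ∧ e (k + 1) := by
    have : ∃ k, ¬ e k := by
      by_cases h : e 0
      · exact ⟨0 + m, fun h' => (h1 0).mp h' h⟩
      · exact ⟨0, h⟩
    obtain ⟨k, hk⟩ := this
    by_contra hc
    push Not at hc
    have : ∀ r, ¬ e (k + r) := fun r => by
      induction r with
      | zero => exact hk
      | succ r ih => exact hc _ ih
    exact this m ((h1 k).mpr hk)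
  obtain ⟨k, hk, hk1⟩ := hex
  refine seg_eq_one_of_shift (fun k => ?_) (k + 1) ?_
  · have e1 : e (k + (m + m)) ↔ e k := by rw [← add_assoc, h1, h1, not_not]
    have e2 : Even (k + (m + m)) ↔ Even k := by simp [Nat.even_add]
    simp only [e1, e2]
  · rw [seg_add, seg_pos (x := x) (y := y) fun r hr => by simp [h2 k hk hk1 r hr],
      seg_neg (x := x) (y := y) fun r hr => by
        have : ¬ e (k + 1 + m + r) := by
          rw [show k + 1 + m + r = k + 1 + r + m by ring, h1, not_not]; exact h2 k hk hk1 r hr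
        simp [this]]
    have e2 : Even (k + 1 + m + m) ↔ Even (k + 1) := by rw [add_assoc]; simp [Nat.even_add]
    simp only [e2]
    by_cases h : Even (k + 1) <;> simp [h, hb]

end Words

variable {B : Type} [Fintype B] [DecidableEq B] {M : CoxeterMatrix B} {W : Type} [Group W]
  (cs : CoxeterSystem M W) {A : Type} [Group A]

/-- The braid relations for a family of group elements. -/
def Braid (M : CoxeterMatrix B) (a : B → A) : Prop :=
  ∀ i j, alt (a i) (a j) (M i j) = alt (a j) (a i) (M i j)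

/-- Action of `W` on signs. -/
noncomputable def Sg.act (ε : Sg (B → ℝ)) (y : W) : Sg (B → ℝ) :=
  ε.comap (rho cs y) (rho_apply_injective cs y)

theorem act_p (ε : Sg (B → ℝ)) (y : W) (x : B → ℝ) : (ε.act cs y).p x ↔ ε.p (rho cs y x) := Iff.rfl

theorem act_one (ε : Sg (B → ℝ)) : ε.act cs 1 = ε := by ext x; simp [act_p]

theorem act_mul (ε : Sg (B → ℝ)) (y z : W) : ε.act cs (y * z) = (ε.act cs y).act cs z := by
  ext x; simp [act_p]

open Classical in
/-- Generator with the sign of a vector. -/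
noncomputable def sgen (ε : Sg (B → ℝ)) (x : B → ℝ) (g : A) : A := if ε.p x then g else g⁻¹

/-- The elementary moves. -/
noncomputable def phi (a : B → A) (i : B) : (Function.End (Sg (B → ℝ) × A))ᵐᵒᵖ :=
  MulOpposite.op fun q => (q.1.act cs (cs.simple i), q.2 * sgen q.1 (al i) (a i))

theorem alt_phi (a : B → A) (i j : B) (k : ℕ) (ε : Sg (B → ℝ)) (g : A) :
    (alt (phi cs a i) (phi cs a j) k).unop (ε, g) =
      (ε.act cs (alt (cs.simple i) (cs.simple j) k),
        g * seg (fun r => sgen ε (U (cc (M i j)) (r + 1) • al i + U (cc (M i j)) r • al j)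
          (if Even r then a i else a j)) 0 k) := by
  induction k with
  | zero => simp [alt, seg, act_one]; rfl
  | succ k ih =>
    have h := alt_refl_apply (bf_al_self (M := M) i) (bf_al_self j) (bf_al_al i j) k
    rw [← rho_simple cs, ← rho_simple cs, ← map_alt] at h
    rw [alt_succ, alt_succ, MulOpposite.unop_mul, seg, zero_add, ← h]
    change (if Even k then phi cs a i else phi cs a j).unop
      ((alt (phi cs a i) (phi cs a j) k).unop (ε, g)) = _
    rw [ih]
    by_cases hk : Even k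
    · simp only [hk, if_true, act_mul, ← mul_assoc]; rfl
    · simp only [hk, if_false, act_mul, ← mul_assoc]; rfl

theorem U_comb (c : ℝ) (x y : B → ℝ) (k r : ℕ) :
    U c (k + 1 + r + 1) • x + U c (k + 1 + r) • y =
      U c (r + 1) • (U c (k + 1 + 1) • x + U c (k + 1) • y) +
        U c r • -(U c (k + 1) • x + U c k • y) := by
  induction r using Nat.strong_induction_on with
  | _ r ih =>
    match r, ih with
    | 0, _ => simp [U]
    | 1, _ => simp only [U]; module
    | r + 2, ih =>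
      have h1 := ih (r + 1) (by omega)
      have h0 := ih r (by omega)
      have e1 : U c (k + 1 + (r + 2) + 1) = c * U c (k + 1 + (r + 1) + 1) - U c (k + 1 + r + 1) := rfl
      have e2 : U c (k + 1 + (r + 2)) = c * U c (k + 1 + (r + 1)) - U c (k + 1 + r) := rfl
      have e3 : U c (r + 2 + 1) = c * U c (r + 1 + 1) - U c (r + 1) := rfl
      have e4 : U c (r + 1 + 1) = c * U c (r + 1) - U c r := rfl
      have e5 : U c (r + 2) = c * U c (r + 1) - U c r := rfl
      rw [e4] at h1 e3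
      rw [e1, e2, e3, e5]
      linear_combination (norm := module) c • h1 - h0

theorem phi_liftable {a : B → A} (ha : Braid M a) : M.IsLiftable (phi cs a) := by
  intro i j
  rw [← alt_two_mul]
  apply MulOpposite.unop_injective
  funext ⟨ε, g⟩
  rw [alt_phi, alt_two_mul, cs.simple_mul_simple_pow, act_one]
  change (ε, _) = (ε, g)
  congr 1
  rw [mul_eq_left, two_mul]
  have hroot : ∀ k, U (cc (M i j)) (k + 1) • al i + U (cc (M i j)) k • al j ≠ (0 : B → ℝ) := by
    intro k
    have h := alt_refl_apply (bf_al_self (M := M) i) (bf_al_self j) (bf_al_al i j) k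
    rw [← rho_simple cs, ← rho_simple cs, ← map_alt] at h
    rw [← h]
    by_cases hk : Even k
    · simpa [hk] using ((isRoot_al (cs := cs) i).rho _).ne_zero
    · simpa [hk] using ((isRoot_al (cs := cs) j).rho _).ne_zero
  rcases Nat.eq_zero_or_pos (M i j) with h0 | h0
  · rw [h0]; rfl
  by_cases hij : i = j
  · subst hij
    rw [M.diagonal]
    have hne : (al i : B → ℝ) ≠ 0 := (isRoot_al (cs := cs) i).ne_zero
    have e : (cc 1 * 1 - 0) • (al i : B → ℝ) + (1 : ℝ) • al i = -al i := by rw [cc_one]; module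
    change 1 * sgen ε ((1 : ℝ) • al i + (0 : ℝ) • al i) _ *
      sgen ε ((cc 1 * 1 - 0) • (al i : B → ℝ) + (1 : ℝ) • al i) _ = 1
    rw [e]
    have h' := ε.neg _ hne
    simp only [sgen, one_mul, ite_self, one_smul, zero_smul, add_zero]
    by_cases h : ε.p (al i) <;> simp [h, h']
  have hm : 2 ≤ M i j := by have := M.off_diagonal i j hij; omega
  have hper : ∀ k, U (cc (M i j)) (k + M i j + 1) • al i + U (cc (M i j)) (k + M i j) • al j =
      -(U (cc (M i j)) (k + 1) • al i + U (cc (M i j)) k • al j : B → ℝ) := fun k => by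
    rw [show k + M i j + 1 = k + 1 + M i j by ring, U_add_self hm, U_add_self hm]; module
  refine seg_braid (ha i j)
    (e := fun r => ε.p (U (cc (M i j)) (r + 1) • al i + U (cc (M i j)) r • al j))
    (fun k => ?_) (fun k hk hk1 r hr => ?_)
  · rw [hper, ε.neg _ (hroot k)]
  · rw [U_comb]
    refine Sg.cone hk1 ((ε.neg _ (hroot k)).mpr hk) (U_nonneg (by omega) (by omega))
      (U_nonneg (by omega) (by omega)) ?_
    rcases Nat.eq_zero_or_pos r with rfl | hr0
    · left; simp [U]
    · right; exact U_pos hr0 hr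

variable {a : B → A} (ha : Braid M a)

/-- The signed lift of `y`. -/
noncomputable def sigma (ε : Sg (B → ℝ)) (y : W) : A :=
  ((cs.lift ⟨_, phi_liftable cs ha⟩ y).unop (ε, 1)).2

theorem lift_phi (y : W) (ε : Sg (B → ℝ)) (g : A) :
    (cs.lift ⟨_, phi_liftable cs ha⟩ y).unop (ε, g) = (ε.act cs y, g * sigma cs ha ε y) := by
  induction y using cs.simple_induction_right generalizing g with
  | one => simp only [sigma, map_one, act_one]; exact Prod.ext rfl (mul_one g).symm
  | mul_simple_right w i ih =>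
    have key : ∀ g, (cs.lift ⟨_, phi_liftable cs ha⟩ (w * cs.simple i)).unop (ε, g) =
        (ε.act cs (w * cs.simple i), g * sigma cs ha ε w * sgen (ε.act cs w) (al i) (a i)) := by
      intro g
      rw [map_mul, lift_apply_simple, MulOpposite.unop_mul]
      change (phi cs a i).unop ((cs.lift ⟨_, phi_liftable cs ha⟩ w).unop (ε, g)) = _
      rw [ih, act_mul]; rfl
    rw [key, sigma.eq_1 cs ha ε (w * cs.simple i), key, one_mul, mul_assoc]

theorem sigma_one (ε : Sg (B → ℝ)) : sigma cs ha ε 1 = 1 := by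
  simp only [sigma, map_one]; rfl

theorem sigma_mul (ε : Sg (B → ℝ)) (y z : W) :
    sigma cs ha ε (y * z) = sigma cs ha ε y * sigma cs ha (ε.act cs y) z := by
  rw [sigma, map_mul, MulOpposite.unop_mul]
  change ((cs.lift ⟨_, phi_liftable cs ha⟩ z).unop
    ((cs.lift ⟨_, phi_liftable cs ha⟩ y).unop (ε, 1))).2 = _
  rw [lift_phi, lift_phi, one_mul]

theorem sigma_simple (ε : Sg (B → ℝ)) (i : B) :
    sigma cs ha ε (cs.simple i) = sgen ε (al i) (a i) := by
  rw [sigma, lift_apply_simple]; exact one_mul _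

theorem sigma_congr (y : W) (ε ε' : Sg (B → ℝ)) (h : ∀ γ ∈ Inv cs y, ε.p γ ↔ ε'.p γ) :
    sigma cs ha ε y = sigma cs ha ε' y := by
  induction hn : cs.length y using Nat.strong_induction_on generalizing y ε ε' with
  | _ n ih =>
  by_cases hy : y = 1
  · rw [hy, sigma_one, sigma_one]
  obtain ⟨i, hi⟩ := cs.exists_leftDescent_of_ne_one hy
  have h1 : rho cs y⁻¹ (al i) ≤ 0 := rho_al_nonpos cs _ _ (cs.isRightDescent_inv_iff.mpr hi)
  have h2 : y = cs.simple i * (cs.simple i * y) := (cs.simple_mul_simple_cancel_left i).symm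
  have h3 := ih _ (hn ▸ hi) (cs.simple i * y) (ε.act cs (cs.simple i)) (ε'.act cs (cs.simple i))
    (fun γ hγ => by
      have h4 : rho cs y⁻¹ (rho cs (cs.simple i) γ) ≤ 0 := by
        have := hγ.2.2
        rwa [mul_inv_rev, inv_simple, rho_mul_apply] at this
      refine h _ ⟨hγ.1.rho _, ?_, h4⟩
      rcases (hγ.1.rho (cs.simple i)).nonneg_or with h5 | h5
      · exact h5
      · exfalso
        rw [hγ.1.eq_al hγ.2.1 h5, rho_simple_al, map_neg] at h4
        exact ((isRoot_al i).rho y⁻¹).not_both (neg_nonpos.mp h4) h1) rfl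
  rw [h2, sigma_mul cs ha ε, sigma_mul cs ha ε', h3, sigma_simple, sigma_simple, sgen, sgen,
    h _ ⟨isRoot_al i, al_nonneg i, h1⟩]

end Pool.Agent.MP_d5a4a4_al

end

-- part MP_d5a4a4_al.Lift
section

/-!
The lift of reflections below a Coxeter element to any group with braid relations, compatible
with Hurwitz moves, assuming the key bound.
-/

namespace Pool.Agent.MP_d5a4a4_al

open CoxeterSystem

set_option linter.unusedSectionVars false

variable {B : Type} [Fintype B] [DecidableEq B] {M : CoxeterMatrix B} {W : Type} [Group W]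
  {cs : CoxeterSystem M W} {l : List B} {E : (B → ℝ) →ₗ[ℝ] (B → ℝ) →ₗ[ℝ] ℝ}
  {A : Type} [Group A] {a : B → A}

variable (cs) in
/-- A sign that is positive on the root of `t`. -/
noncomputable def posSg (t : W) : Sg (B → ℝ) :=
  Sg.lex (bf M (rt cs t)) (Classical.choice (Sg.nonempty B))

theorem posSg_p {t : W} (ht : cs.IsReflection t) : (posSg cs t).p (rt cs t) :=
  Sg.lex_pos (by rw [(rt_root ht).norm]; exact two_pos)

open Classical in
variable (cs l E) in
/-- The lift of a reflection. -/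
noncomputable def Lf (ha : Braid M a) (t : W) : A :=
  sigma cs ha (Sg.lex (-(if h : ∃ θ, Adm cs l E t θ then h.choose else 0)) (posSg cs t)) t

theorem KeyBound.one (hK : KeyBound cs l E) {K : List W} {t : W} (hL : Red cs l (K ++ [t]))
    {θ : (B → ℝ) →ₗ[ℝ] ℝ} (hθ : Adm cs l E t θ) (h0 : θ (rt cs t) = 0) {γ : B → ℝ}
    (hγ : γ ∈ Inv cs t) (h : θ γ = 0) : γ = rt cs t := by
  classical
  by_contra hne
  have := hK K [t] hL θ (by simpa using hθ) {γ, rt cs t} (by
    intro x hx
    simp only [Finset.mem_insert, Finset.mem_singleton] at hx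
    rcases hx with rfl | rfl
    · exact ⟨by simpa using hγ, h⟩
    · exact ⟨by simpa using rt_mem_inv (hL.refl t (by simp)), h0⟩)
  rw [Finset.card_pair hne] at this
  simp at this

theorem adm_rt_zero (hE : IsEuler M l E) {K : List W} {t : W} (hL : Red cs l (K ++ [t]))
    {θ : (B → ℝ) →ₗ[ℝ] ℝ} (hθ : Adm cs l E t θ) : θ (rt cs t) = 0 :=
  hθ.zero fun r hr => Left.zero hE hL (by simpa using hr) (by simp)

theorem Lf_eq (hE : IsEuler M l E) (hK : KeyBound cs l E) (ha : Braid M a) {K : List W} {t : W}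
    (hL : Red cs l (K ++ [t])) {ε : Sg (B → ℝ)} (h1 : ε.p (rt cs t))
    (h2 : ∀ γ ∈ Inv cs t, γ ≠ rt cs t → ∃ θ, Adm cs l E t θ ∧ (ε.p γ ↔ θ γ < 0)) :
    Lf cs l E ha t = sigma cs ha ε t := by
  have ht := hL.refl t (by simp)
  have hex : ∃ θ, Adm cs l E t θ := by
    obtain ⟨θ, h⟩ := exists_admL (cs := cs) (E := E) K
    exact ⟨θ, by simpa using h.adm hE hL⟩
  rw [Lf, dif_pos hex]
  have hθ := hex.choose_spec
  set θ := hex.choose
  refine sigma_congr cs ha _ _ _ fun γ hγ => ?_
  by_cases hne : γ = rt cs t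
  · rw [hne, Sg.lex_zero (by simp [adm_rt_zero hE hL hθ])]
    exact iff_of_true (posSg_p ht) h1
  obtain ⟨θ', hθ', h3⟩ := h2 γ hγ hne
  have n1 : θ γ ≠ 0 := fun e => hne (hK.one hL hθ (adm_rt_zero hE hL hθ) hγ e)
  have n2 : θ' γ ≠ 0 := fun e => hne (hK.one hL hθ' (adm_rt_zero hE hL hθ') hγ e)
  have n3 : ∀ b c : ℝ, 0 < b → 0 < c → b * θ γ + c * θ' γ ≠ 0 := fun b c hb hc e =>
    hne (hK.one hL (hθ.comb hθ' hb hc) (adm_rt_zero hE hL (hθ.comb hθ' hb hc)) hγ (by simpa using e))
  rw [h3]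
  rcases lt_or_gt_of_ne n1 with h4 | h4 <;> rcases lt_or_gt_of_ne n2 with h5 | h5
  · exact iff_of_true (Sg.lex_pos (by simpa using h4)) h5
  · exact (n3 (θ' γ) (-θ γ) h5 (by linarith) (by ring)).elim
  · exact (n3 (-θ' γ) (θ γ) (by linarith) h4 (by ring)).elim
  · exact iff_of_false (Sg.lex_neg (by simpa using h4)) (by linarith)

theorem Lf_simple (hE : IsEuler M l E) (ha : Braid M a) (i : B) :
    Lf cs l E ha (cs.simple i) = a i := by
  obtain ⟨l₁, l₂, hl⟩ := List.append_of_mem (hE.all i)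
  have h1 : Red cs l (l₁.map cs.simple ++ [cs.simple i] ++ l₂.map cs.simple) := by
    have := red_base (cs := cs) l
    rw [hl] at this ⊢
    simpa using this
  have h2 := h1.move
  rw [Lf, sigma_simple, sgen, if_pos]
  rw [Sg.lex_zero, ← rt_simple (cs := cs)]
  · exact posSg_p (cs.isReflection_simple i)
  · split_ifs with h
    · rw [← rt_simple (cs := cs), LinearMap.neg_apply, adm_rt_zero hE h2 h.choose_spec, neg_zero]
    · simp

/-! ### Rank two -/

theorem theta_rho {θ : (B → ℝ) →ₗ[ℝ] ℝ} {r : W} (hr : cs.IsReflection r) (h : θ (rt cs r) = 0)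
    (x : B → ℝ) : θ (rho cs r x) = θ x := by
  rw [rho_eq_refl hr, refl_apply, map_sub, map_smul, h, smul_zero, sub_zero]

theorem rho_rho {r : W} (hr : cs.IsReflection r) (x : B → ℝ) : rho cs r (rho cs r x) = x := by
  rw [← rho_mul_apply, hr.mul_self, map_one, Module.End.one_apply]

theorem simple_of_bound {θ : (B → ℝ) →ₗ[ℝ] ℝ} {r r' : W} (hr : cs.IsReflection r)
    (hr' : cs.IsReflection r') (hb : bf M (rt cs r) (rt cs r') ≤ 0)
    (h0 : θ (rt cs r) = 0) (h0' : θ (rt cs r') = 0)
    (hN : ∀ N : Finset (B → ℝ), (∀ γ ∈ N, γ ∈ Inv cs (r * r') ∧ θ γ = 0) → N.card ≤ 2)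
    {γ : B → ℝ} (hγ : γ ∈ Inv cs r) (h : θ γ = 0) : γ = rt cs r := by
  classical
  have hinv : (r * r')⁻¹ = r' * r := by rw [mul_inv_rev, hr.inv, hr'.inv]
  have p1 : 0 ≤ rho cs r (rt cs r') := by
    rw [rho_eq_refl hr, refl_apply, sub_eq_add_neg, ← neg_smul]
    exact add_nonneg (rt_nonneg hr') (smul_nonneg (by linarith) (rt_nonneg hr))
  have p2 : 0 ≤ rho cs r' (rt cs r) := by
    rw [rho_eq_refl hr', refl_apply, sub_eq_add_neg, ← neg_smul, bf_comm]
    exact add_nonneg (rt_nonneg hr) (smul_nonneg (by linarith) (rt_nonneg hr'))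
  have m1 : rt cs r ∈ Inv cs (r * r') := ⟨rt_root hr, rt_nonneg hr, by
    rw [hinv, rho_mul_apply, rho_rt hr, map_neg]; exact neg_nonpos.mpr p2⟩
  have m2 : rho cs r (rt cs r') ∈ Inv cs (r * r') := ⟨(rt_root hr').rho _, p1, by
    rw [hinv, rho_mul_apply, rho_rho hr, rho_rt hr']; exact neg_nonpos.mpr (rt_nonneg hr')⟩
  have n12 : rt cs r ≠ rho cs r (rt cs r') := by
    intro e
    have := congrArg (rho cs r) e
    rw [rho_rho hr, rho_rt hr] at this
    exact (rt_root hr').not_both (rt_nonneg hr') (by rw [← this]; exact neg_nonpos.mpr (rt_nonneg hr))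
  have H : ∀ x ∈ Inv cs (r * r'), θ x = 0 → x = rt cs r ∨ x = rho cs r (rt cs r') := by
    intro x hx hx0
    by_contra hc
    push Not at hc
    have := hN {x, rt cs r, rho cs r (rt cs r')} (by
      intro z hz
      simp only [Finset.mem_insert, Finset.mem_singleton] at hz
      rcases hz with rfl | rfl | rfl
      · exact ⟨hx, hx0⟩
      · exact ⟨m1, h0⟩
      · exact ⟨m2, by rw [theta_rho hr h0, h0']⟩)
    rw [Finset.card_insert_of_notMem (by simp [hc.1, hc.2]), Finset.card_pair n12] at this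
    omega
  by_contra hγne
  obtain ⟨g1, g2, g3⟩ := hγ
  rw [hr.inv] at g3
  have hsum : γ + -rho cs r γ = bf M (rt cs r) γ • rt cs r := by
    rw [rho_eq_refl hr, refl_apply]; abel
  have hm : 0 < bf M (rt cs r) γ := by
    by_contra hc
    push Not at hc
    have : γ + -rho cs r γ ≤ 0 := by
      rw [hsum]; exact smul_nonpos_of_nonpos_of_nonneg hc (rt_nonneg hr)
    exact g1.not_both g2 ((le_add_of_nonneg_right (neg_nonneg.mpr g3)).trans this)
  have hneg : rho cs (r * r')⁻¹ γ + rho cs (r * r')⁻¹ (-rho cs r γ) ≤ 0 := by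
    rw [← map_add, hsum, map_smul]
    exact smul_nonpos_of_nonneg_of_nonpos hm.le m1.2.2
  rcases (g1.rho (r * r')⁻¹).nonneg_or with h1 | h1
  · have h2 : -rho cs r γ ∈ Inv cs (r * r') :=
      ⟨(g1.rho r).neg, neg_nonneg.mpr g3, (le_add_of_nonneg_left h1).trans hneg⟩
    rcases H _ h2 (by rw [map_neg, theta_rho hr h0, h, neg_zero]) with e | e
    · have := congrArg (rho cs r) e
      rw [map_neg, rho_rho hr, rho_rt hr, neg_inj] at this
      exact hγne this
    · have := congrArg (rho cs r) e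
      rw [map_neg, rho_rho hr, rho_rho hr] at this
      exact g1.not_both g2 (by rw [← neg_nonneg, this]; exact rt_nonneg hr')
  · rcases H _ ⟨g1, g2, h1⟩ h with e | e
    · exact hγne e
    · rw [e, rho_rho hr] at g3
      exact (rt_root hr').not_both (rt_nonneg hr') g3

/-- Signs refining the functional `-θ`. -/
def Ref (θ : (B → ℝ) →ₗ[ℝ] ℝ) (ε : Sg (B → ℝ)) : Prop := ∀ x, θ x ≠ 0 → (ε.p x ↔ θ x < 0)

theorem ref_lex (θ : (B → ℝ) →ₗ[ℝ] ℝ) (ε : Sg (B → ℝ)) : Ref θ (Sg.lex (-θ) ε) := by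
  intro x hx
  rcases lt_or_gt_of_ne hx with h | h
  · exact iff_of_true (Sg.lex_pos (by simpa using h)) h
  · exact iff_of_false (Sg.lex_neg (by simpa using h)) (by linarith)

theorem Ref.act {θ : (B → ℝ) →ₗ[ℝ] ℝ} {ε : Sg (B → ℝ)} (h : Ref θ ε) {r : W}
    (hr : cs.IsReflection r) (h0 : θ (rt cs r) = 0) : Ref θ (ε.act cs r) := by
  intro x hx
  rw [act_p, h _ (by rwa [theta_rho hr h0]), theta_rho hr h0]

theorem sigma_ref_eq (ha : Braid M a) {θ : (B → ℝ) →ₗ[ℝ] ℝ} {r : W}
    (hs : ∀ γ ∈ Inv cs r, θ γ = 0 → γ = rt cs r) {ε ε' : Sg (B → ℝ)} (h : Ref θ ε) (h' : Ref θ ε')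
    (p : ε.p (rt cs r)) (p' : ε'.p (rt cs r)) : sigma cs ha ε r = sigma cs ha ε' r := by
  refine sigma_congr cs ha _ _ _ fun γ hγ => ?_
  by_cases h0 : θ γ = 0
  · rw [hs γ hγ h0]; exact iff_of_true p p'
  · rw [h γ h0, h' γ h0]

theorem sigma_ref_inv (ha : Braid M a) {θ : (B → ℝ) →ₗ[ℝ] ℝ} {r : W} (hr : cs.IsReflection r)
    (h0 : θ (rt cs r) = 0)
    (hs : ∀ γ ∈ Inv cs r, θ γ = 0 → γ = rt cs r) {ε ε' : Sg (B → ℝ)} (h : Ref θ ε) (h' : Ref θ ε')
    (p : ¬ ε.p (rt cs r)) (p' : ε'.p (rt cs r)) : sigma cs ha ε r = (sigma cs ha ε' r)⁻¹ := by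
  have h1 := sigma_mul cs ha ε r r
  rw [hr.mul_self, sigma_one] at h1
  rw [← sigma_ref_eq ha hs (h.act hr h0) h' (by
    rw [act_p, rho_rt hr, ε.neg _ (rt_root hr).ne_zero]; exact p) p']
  exact eq_inv_of_mul_eq_one_left h1.symm

variable (cs) in
/-- All roots in the plane of `β, β'` lie in two opposite quadrants. -/
def Adj (β β' : B → ℝ) : Prop :=
  (∀ x y : ℝ, IsRoot cs (x • β + y • β') → 0 ≤ x * y) ∨
    (∀ x y : ℝ, IsRoot cs (x • β + y • β') → x * y ≤ 0)

theorem Adj.symm {β β' : B → ℝ} (h : Adj cs β β') : Adj cs β' β := by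
  rcases h with h | h
  · exact Or.inl fun x y hr => by rw [mul_comm]; exact h y x (by rwa [add_comm])
  · exact Or.inr fun x y hr => by rw [mul_comm]; exact h y x (by rwa [add_comm])

theorem Adj.neg {β β' : B → ℝ} (h : Adj cs β β') : Adj cs (-β) β' := by
  rcases h with h | h
  · exact Or.inr fun x y hr => by
      have := h (-x) y (by simpa using hr); linarith
  · exact Or.inl fun x y hr => by
      have := h (-x) y (by simpa using hr); linarith

theorem Adj.rho {β β' : B → ℝ} (h : Adj cs β β') (z : W) : Adj cs (rho cs z β) (rho cs z β') := by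
  have key : ∀ x y : ℝ, IsRoot cs (x • Pool.Agent.MP_d5a4a4_al.rho cs z β +
      y • Pool.Agent.MP_d5a4a4_al.rho cs z β') → IsRoot cs (x • β + y • β') := fun x y hr => by
    have := hr.rho z⁻¹
    rwa [map_add, map_smul, map_smul, rho_inv_rho, rho_inv_rho] at this
  rcases h with h | h
  · exact Or.inl fun x y hr => h x y (key x y hr)
  · exact Or.inr fun x y hr => h x y (key x y hr)

theorem Adj.conj {t t' : W} (ht : cs.IsReflection t) (ht' : cs.IsReflection t')
    (h : Adj cs (rt cs t) (rt cs t')) : Adj cs (rt cs (t * t' * t⁻¹)) (rt cs t) := by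
  have h1 := (h.rho t)
  rw [rho_rt ht] at h1
  have h2 := h1.neg
  rw [neg_neg] at h2
  rcases rt_conj ht' t with e | e
  · rw [e]; exact h2.symm
  · rw [e]; exact h2.symm.neg

theorem nonneg_of_root {β β' : B → ℝ} (hβ : 0 ≤ β) (hβ' : 0 ≤ β') {x y : ℝ}
    (hr : IsRoot cs (x • β + y • β')) (h0 : 0 ≤ x • β + y • β') (hxy : 0 ≤ x * y) :
    0 ≤ x ∧ 0 ≤ y := by
  have : ¬ (x ≤ 0 ∧ y ≤ 0) := fun h => hr.not_both h0
    (add_nonpos (smul_nonpos_of_nonpos_of_nonneg h.1 hβ) (smul_nonpos_of_nonpos_of_nonneg h.2 hβ'))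
  rcases mul_nonneg_iff.mp hxy with h | h
  · exact h
  · exact (this h).elim

theorem mem_span_two {t t' : W} {y : B → ℝ}
    (h : y ∈ Submodule.span ℝ (rt cs '' {r | r ∈ [t, t']})) :
    ∃ x z : ℝ, y = x • rt cs t + z • rt cs t' := by
  obtain ⟨c, z, hz, rfl⟩ := exists_of_mem_span_cons h
  obtain ⟨c', z', hz', rfl⟩ := exists_of_mem_span_cons hz
  have : z' = 0 := by simpa using hz'
  exact ⟨c, c', by rw [this, add_zero]⟩

theorem Lf_hurwitz_end (hE : IsEuler M l E) (hK : KeyBound cs l E) (ha : Braid M a) {K : List W}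
    {t₁ t₀ : W} (hL : Red cs l (K ++ [t₁, t₀])) :
    Lf cs l E ha t₁ * Lf cs l E ha t₀ = Lf cs l E ha (t₁ * t₀ * t₁⁻¹) * Lf cs l E ha t₁ := by
  classical
  have h₁ := hL.refl t₁ (by simp)
  have h₀ := hL.refl t₀ (by simp)
  have hr := tau_refl h₁ h₀
  set u := t₁ * t₀ with hu
  -- all pairs with product `u`
  have hpair : ∀ τ τ', cs.IsReflection τ → cs.IsReflection τ' → τ * τ' = u →
      Red cs l (K ++ [τ, τ']) := fun τ τ' b1 b2 b3 => by
    have := Red.replace (L₁ := K) (L₂ := [t₁, t₀]) (L₃ := []) (K := [τ, τ']) (by simpa using hL)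
      (by simp [b1, b2]) (by simp [b3, hu]) rfl
    simpa using this
  have hEz : ∀ τ τ', cs.IsReflection τ → cs.IsReflection τ' → τ * τ' = u →
      E (rt cs τ) (rt cs τ') = 0 := fun τ τ' b1 b2 b3 =>
    Red.zero hE (L₁ := K ++ [τ]) (L₂ := [τ']) (by simpa using hpair τ τ' b1 b2 b3) (by simp) (by simp)
  obtain ⟨θ, hθ⟩ := exists_admL (cs := cs) (E := E) K
  set P : (B → ℝ) → Prop := fun y => ∀ t ∈ K, E (rt cs t) y = 0 with hP
  have hP1 : ∀ τ τ', cs.IsReflection τ → cs.IsReflection τ' → τ * τ' = u →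
      P (rt cs τ) ∧ P (rt cs τ') := fun τ τ' b1 b2 b3 =>
    ⟨fun t ht => (hpair τ τ' b1 b2 b3).zero hE ht (by simp),
      fun t ht => (hpair τ τ' b1 b2 b3).zero hE ht (by simp)⟩
  have hP2 : ∀ τ τ', cs.IsReflection τ → cs.IsReflection τ' → τ * τ' = u → ∀ y, P y →
      ∃ x z : ℝ, y = x • rt cs τ + z • rt cs τ' := fun τ τ' b1 b2 b3 y hy =>
    mem_span_two ((hpair τ τ' b1 b2 b3).perp hE hy)
  have hPθ : ∀ y, P y → θ y = 0 := fun y hy => hθ.zero hy
  have hPrho : ∀ τ, cs.IsReflection τ → P (rt cs τ) → ∀ y, P y → P (rho cs τ y) := by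
    intro τ b1 b2 y hy t ht
    rw [rho_eq_refl b1, refl_apply, map_sub, map_smul, hy t ht, b2 t ht]; simp
  -- the lifts of second members of pairs
  set eps : W → W → Sg (B → ℝ) := fun τ τ' =>
    Sg.lex (-θ) (Sg.lex (-E (rt cs τ)) (posSg cs τ')) with heps
  have epsP : ∀ τ τ' y, P y → ((eps τ τ').p y ↔ (Sg.lex (-E (rt cs τ)) (posSg cs τ')).p y) :=
    fun τ τ' y hy => Sg.lex_zero (by simp [hPθ y hy])
  have eps_rt : ∀ τ τ', cs.IsReflection τ → cs.IsReflection τ' → τ * τ' = u →
      (eps τ τ').p (rt cs τ') := fun τ τ' b1 b2 b3 => by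
    rw [epsP _ _ _ (hP1 τ τ' b1 b2 b3).2, Sg.lex_zero (by simp [hEz τ τ' b1 b2 b3])]
    exact posSg_p b2
  have hLf : ∀ τ τ', cs.IsReflection τ → cs.IsReflection τ' → τ * τ' = u →
      Lf cs l E ha τ' = sigma cs ha (eps τ τ') τ' := by
    intro τ τ' b1 b2 b3
    have hred : Red cs l (K ++ [τ] ++ [τ']) := by simpa using hpair τ τ' b1 b2 b3
    have hadm : ∀ c : ℝ, 0 < c → Adm cs l E τ' (θ + c • E (rt cs τ)) := fun c hc => by
      simpa using (hθ.snoc τ hc).adm hE hred
    refine Lf_eq hE hK ha hred (eps_rt τ τ' b1 b2 b3) fun γ hγ hne => ?_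
    by_cases h0 : θ γ = 0
    · refine ⟨_, hadm 1 one_pos, ?_⟩
      have n1 : E (rt cs τ) γ ≠ 0 := fun e =>
        hne (hK.one hred (hadm 1 one_pos) (adm_rt_zero hE hred (hadm 1 one_pos)) hγ (by simp [h0, e]))
      simp only [heps]
      rw [Sg.lex_zero (by simp [h0]), ref_lex _ _ _ n1]
      simp [h0]
    · refine ⟨_, hadm (|θ γ| / (|E (rt cs τ) γ| + 1)) (by positivity), ?_⟩
      rw [ref_lex _ _ _ h0]
      simp only [LinearMap.add_apply, LinearMap.smul_apply, smul_eq_mul]
      have hlt : abs (|θ γ| / (|E (rt cs τ) γ| + 1) * E (rt cs τ) γ) < |θ γ| := by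
        rw [abs_mul, abs_of_nonneg (by positivity), div_mul_eq_mul_div, div_lt_iff₀ (by positivity)]
        have := abs_pos.mpr h0
        nlinarith
      rw [abs_lt] at hlt
      rcases lt_or_gt_of_ne h0 with h | h
      · rw [abs_of_neg h] at hlt ⊢
        exact iff_of_true h (by linarith [hlt.2])
      · rw [abs_of_pos h] at hlt ⊢
        exact iff_of_false (by linarith) (by linarith [hlt.1])
  -- the simple pair
  obtain ⟨k₀, hk₀⟩ := exists_simple_pair h₁ h₀ (φ := E (rt cs t₁)) (hEz _ _ h₁ h₀ rfl)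
    (hE.self (rt_root h₁))
  have hr₁ := hr (k₀ + 1)
  have hr₂ := hr k₀
  have hur : tau t₁ t₀ (k₀ + 1) * tau t₁ t₀ k₀ = u := tau_succ_mul h₁ h₀ k₀
  set r₁ := tau t₁ t₀ (k₀ + 1) with hr₁def
  set r₂ := tau t₁ t₀ k₀ with hr₂def
  have E12 := hEz _ _ hr₁ hr₂ hur
  have P₁ := (hP1 _ _ hr₁ hr₂ hur).1
  have P₂ := (hP1 _ _ hr₁ hr₂ hur).2
  have θ₁ := hPθ _ P₁
  have θ₂ := hPθ _ P₂
  have hN : ∀ N : Finset (B → ℝ), (∀ γ ∈ N, γ ∈ Inv cs (r₁ * r₂) ∧ θ γ = 0) → N.card ≤ 2 := by
    have := hK K [r₁, r₂] (hpair _ _ hr₁ hr₂ hur) θ (hθ.adm hE (hpair _ _ hr₁ hr₂ hur))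
    simpa using this
  have hN' : ∀ N : Finset (B → ℝ), (∀ γ ∈ N, γ ∈ Inv cs (r₂ * r₁) ∧ θ γ = 0) → N.card ≤ 2 := by
    intro N hN2
    have hinj : Function.Injective fun γ => -rho cs (r₁ * r₂) γ := fun x y e =>
      rho_apply_injective cs _ (neg_inj.mp e)
    rw [← Finset.card_image_of_injective N hinj]
    refine hN _ fun γ hγ => ?_
    obtain ⟨x, hx, rfl⟩ := Finset.mem_image.mp hγ
    obtain ⟨⟨x1, x2, x3⟩, x4⟩ := hN2 x hx
    rw [mul_inv_rev, hr₁.inv, hr₂.inv] at x3
    refine ⟨⟨(x1.rho _).neg, neg_nonneg.mpr x3, ?_⟩, ?_⟩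
    · rw [map_neg, rho_inv_rho]; exact neg_nonpos.mpr x2
    · rw [map_neg, rho_mul_apply, theta_rho hr₁ θ₁, theta_rho hr₂ θ₂, x4, neg_zero]
  have s₁ : ∀ γ ∈ Inv cs r₁, θ γ = 0 → γ = rt cs r₁ := fun γ hγ h =>
    simple_of_bound hr₁ hr₂ hk₀ θ₁ θ₂ hN hγ h
  have s₂ : ∀ γ ∈ Inv cs r₂, θ γ = 0 → γ = rt cs r₂ := fun γ hγ h =>
    simple_of_bound hr₂ hr₁ (by rwa [bf_comm]) θ₂ θ₁ hN' hγ h
  have p12 : 0 ≤ rho cs r₁ (rt cs r₂) := by
    rw [rho_eq_refl hr₁, refl_apply, sub_eq_add_neg, ← neg_smul]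
    exact add_nonneg (rt_nonneg hr₂) (smul_nonneg (by linarith) (rt_nonneg hr₁))
  have p21 : 0 ≤ rho cs r₂ (rt cs r₁) := by
    rw [rho_eq_refl hr₂, refl_apply, sub_eq_add_neg, ← neg_smul, bf_comm]
    exact add_nonneg (rt_nonneg hr₁) (smul_nonneg (by linarith) (rt_nonneg hr₂))
  have hcone0 : ∀ x y : ℝ, IsRoot cs (x • rt cs r₁ + y • rt cs r₂) →
      0 ≤ x • rt cs r₁ + y • rt cs r₂ → 0 ≤ x * y := by
    intro x y hroot h0
    have hθ0 : θ (x • rt cs r₁ + y • rt cs r₂) = 0 := by simp [θ₁, θ₂]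
    by_contra hc
    rcases mul_neg_iff.mp (not_le.mp hc) with ⟨hx, hy⟩ | ⟨hx, hy⟩
    · have := s₁ _ ⟨hroot, h0, by
        rw [hr₁.inv, map_add, map_smul, map_smul, rho_rt hr₁]
        exact add_nonpos (smul_nonpos_of_nonneg_of_nonpos hx.le (neg_nonpos.mpr (rt_nonneg hr₁)))
          (smul_nonpos_of_nonpos_of_nonneg hy.le p12)⟩ hθ0
      have h3 := congrArg (fun z => E z (rt cs r₂)) this
      simp [E12, hE.self (rt_root hr₂)] at h3
      exact hy.ne h3
    · have := s₂ _ ⟨hroot, h0, by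
        rw [hr₂.inv, map_add, map_smul, map_smul, rho_rt hr₂]
        exact add_nonpos (smul_nonpos_of_nonpos_of_nonneg hx.le p21)
          (smul_nonpos_of_nonneg_of_nonpos hy.le (neg_nonpos.mpr (rt_nonneg hr₂)))⟩ hθ0
      have h3 := congrArg (E (rt cs r₁)) this
      simp [E12, hE.self (rt_root hr₁)] at h3
      exact hx.ne h3
  have hcone : ∀ x y : ℝ, IsRoot cs (x • rt cs r₁ + y • rt cs r₂) → 0 ≤ x * y := by
    intro x y hroot
    rcases hroot.nonneg_or with h | h
    · exact hcone0 x y hroot h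
    · have e : (-x) • rt cs r₁ + (-y) • rt cs r₂ = -(x • rt cs r₁ + y • rt cs r₂) := by module
      have := hcone0 (-x) (-y) (e ▸ hroot.neg) (e ▸ neg_nonneg.mpr h)
      linarith
  have hdec : ∀ γ, IsRoot cs γ → 0 ≤ γ → P γ →
      ∃ x y : ℝ, 0 ≤ x ∧ 0 ≤ y ∧ γ = x • rt cs r₁ + y • rt cs r₂ := by
    intro γ g1 g2 g3
    obtain ⟨x, y, rfl⟩ := hP2 _ _ hr₁ hr₂ hur γ g3
    have := nonneg_of_root (rt_nonneg hr₁) (rt_nonneg hr₂) g1 g2 (hcone x y g1)
    exact ⟨x, y, this.1, this.2, rfl⟩
  have hadj : ∀ k : ℤ, Adj cs (rt cs (tau t₁ t₀ (k + 1))) (rt cs (tau t₁ t₀ k)) := by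
    intro k
    refine Int.inductionOn' k k₀ (Or.inl hcone) (fun k _ ih => ?_) (fun k _ ih => ?_)
    · have := ih.conj (hr _) (hr _)
      rwa [tau_conj h₁ h₀, show 2 * (k + 1) - k = k + 1 + 1 by ring] at this
    · have := ih.symm.conj (hr _) (hr _)
      rw [tau_conj h₁ h₀, show 2 * k - (k + 1) = k - 1 by ring] at this
      rw [sub_add_cancel]; exact this.symm
  have hext : ∀ β β' : B → ℝ, IsRoot cs β → 0 ≤ β → P β → 0 ≤ β' →
      (∀ y, P y → ∃ x z : ℝ, y = x • β + z • β') →
      (∀ x y : ℝ, IsRoot cs (x • β + y • β') → 0 ≤ x * y) →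
      ∀ φ : (B → ℝ) →ₗ[ℝ] ℝ, φ β = 0 → φ β' = 1 → β = rt cs r₁ ∨ β = rt cs r₂ := by
    intro β β' g1 g2 g3 g4 g5 g6 φ f0 f1
    obtain ⟨p, q, hp, hq, e⟩ := hdec β g1 g2 g3
    obtain ⟨x₁, y₁, e₁⟩ := g5 _ P₁
    obtain ⟨x₂, y₂, e₂⟩ := g5 _ P₂
    have n₁ := nonneg_of_root g2 g4 (e₁ ▸ rt_root hr₁) (e₁ ▸ rt_nonneg hr₁) (g6 _ _ (e₁ ▸ rt_root hr₁))
    have n₂ := nonneg_of_root g2 g4 (e₂ ▸ rt_root hr₂) (e₂ ▸ rt_nonneg hr₂) (g6 _ _ (e₂ ▸ rt_root hr₂))
    have h3 := congrArg φ e
    rw [e₁, e₂] at h3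
    simp only [map_add, map_smul, f0, f1, smul_eq_mul, mul_zero, mul_one, zero_add] at h3
    rcases hp.eq_or_lt with rfl | hp'
    · right
      exact (rt_root hr₂).eq_of_smul_nonneg g1 (rt_nonneg hr₂) g2 (c := q) (by rw [e]; simp)
    · left
      have : y₁ = 0 := by nlinarith [mul_nonneg hq n₂.2, n₁.2]
      exact (g1.eq_of_smul_nonneg (rt_root hr₁) g2 (rt_nonneg hr₁) (c := x₁)
        (by rw [e₁, this]; simp)).symm
  -- inversions killed by `θ` lie in the plane
  have hgood : ∀ k : ℤ, ∀ γ ∈ Inv cs (tau t₁ t₀ k), θ γ = 0 → P γ := by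
    let S : Submonoid W :=
      { carrier := {y | (∀ γ ∈ Inv cs y, θ γ = 0 → P γ) ∧ (∀ x, θ (rho cs y⁻¹ x) = θ x) ∧
          ∀ x, P x → P (rho cs y x)}
        one_mem' := ⟨fun γ hγ => by simp [Inv_one] at hγ, by simp, by simp⟩
        mul_mem' := by
          rintro y z ⟨y1, y2, y3⟩ ⟨z1, z2, z3⟩
          refine ⟨fun γ hγ h0 => ?_, fun x => ?_, fun x hx => ?_⟩
          · rcases mem_inv_mul hγ with h | h
            · exact y1 γ h h0
            · have := y3 _ (z1 _ h (by rw [y2, h0]))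
              rwa [rho_rho_inv] at this
          · rw [mul_inv_rev, rho_mul_apply, z2, y2]
          · rw [rho_mul_apply]; exact y3 _ (z3 _ hx) }
    have m₁ : r₁ ∈ S := ⟨fun γ hγ h0 => s₁ γ hγ h0 ▸ P₁, fun x => by rw [hr₁.inv, theta_rho hr₁ θ₁],
      hPrho _ hr₁ P₁⟩
    have m₂ : r₂ ∈ S := ⟨fun γ hγ h0 => s₂ γ hγ h0 ▸ P₂, fun x => by rw [hr₂.inv, theta_rho hr₂ θ₂],
      hPrho _ hr₂ P₂⟩
    have m₃ : ∀ k : ℤ, tau t₁ t₀ (k + 1) ∈ S ∧ tau t₁ t₀ k ∈ S := by
      intro k
      refine Int.inductionOn' k k₀ ⟨m₁, m₂⟩ (fun k _ ih => ⟨?_, ih.1⟩) (fun k _ ih => ⟨?_, ?_⟩)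
      · have := S.mul_mem (S.mul_mem ih.1 ih.2) ih.1
        rw [← tau_inv h₁ h₀ (k + 1)] at this
        nth_rewrite 1 [tau_inv h₁ h₀] at this
        rwa [tau_conj h₁ h₀, show 2 * (k + 1) - k = k + 1 + 1 by ring] at this
      · rw [sub_add_cancel]; exact ih.2
      · have := S.mul_mem (S.mul_mem ih.2 ih.1) ih.2
        rw [← tau_inv h₁ h₀ k] at this
        nth_rewrite 1 [tau_inv h₁ h₀] at this
        rwa [tau_conj h₁ h₀, show 2 * k - (k + 1) = k - 1 by ring] at this
    exact fun k => (m₃ k).2.1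
  -- generators
  have hu₁ : r₁ * r₂ * r₁⁻¹ * r₁ = u := by rw [← hur]; simp
  set g₁ := Lf cs l E ha r₁ with hg₁
  set g₂ := Lf cs l E ha r₂ with hg₂
  have G₁ : ∀ ε, Ref θ ε → ε.p (rt cs r₁) → sigma cs ha ε r₁ = g₁ := fun ε b1 b2 => by
    rw [hg₁, hLf _ _ (hr₂.conj r₁) hr₁ hu₁]
    exact sigma_ref_eq ha s₁ b1 (ref_lex _ _) b2 (eps_rt _ _ (hr₂.conj r₁) hr₁ hu₁)
  have G₂ : ∀ ε, Ref θ ε → ε.p (rt cs r₂) → sigma cs ha ε r₂ = g₂ := fun ε b1 b2 => by
    rw [hg₂, hLf _ _ hr₁ hr₂ hur]
    exact sigma_ref_eq ha s₂ b1 (ref_lex _ _) b2 (eps_rt _ _ hr₁ hr₂ hur)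
  have G₂' : ∀ ε, Ref θ ε → ¬ ε.p (rt cs r₂) → sigma cs ha ε r₂ = g₂⁻¹ := fun ε b1 b2 => by
    rw [hg₂, hLf _ _ hr₁ hr₂ hur]
    exact sigma_ref_inv ha hr₂ θ₂ s₂ b1 (ref_lex _ _) b2 (eps_rt _ _ hr₁ hr₂ hur)
  have main : ∀ k : ℤ, Lf cs l E ha (tau t₁ t₀ (k + 1)) * Lf cs l E ha (tau t₁ t₀ k) = g₁ * g₂ := by
    intro k
    have hτ := hr (k + 1)
    have hτ' := hr k
    have hτu : tau t₁ t₀ (k + 1) * tau t₁ t₀ k = u := tau_succ_mul h₁ h₀ k
    have hA := hadj k
    have hG := hgood k
    set τ := tau t₁ t₀ (k + 1)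
    set τ' := tau t₁ t₀ k
    by_cases c₁ : rt cs τ = rt cs r₁
    · have e := eq_of_rt_eq hτ hr₁ c₁
      have e' : τ' = r₂ := by rw [e, ← hur] at hτu; exact mul_left_cancel hτu
      rw [e, e']
    by_cases c₂ : rt cs τ = rt cs r₂
    · have e := eq_of_rt_eq hτ hr₂ c₂
      have e' : τ' = r₂ * r₁ * r₂⁻¹ := by
        rw [e, ← hur] at hτu
        rw [hr₂.inv, mul_assoc, ← hτu, ← mul_assoc, hr₂.mul_self, one_mul]
      have e'' : rt cs τ' = rho cs r₂ (rt cs r₁) := by rw [e', rt_conj_of_nonneg hr₁ _ p21]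
      have b0 : Ref θ (eps τ τ') := ref_lex _ _
      have b1 := b0.act hr₂ θ₂
      have b2 := b1.act hr₁ θ₁
      rw [hLf _ _ hτ hτ' hτu]
      have : sigma cs ha (eps τ τ') τ' = sigma cs ha (eps τ τ') (r₂ * r₁ * r₂) :=
        congrArg _ (by rw [e', hr₂.inv])
      rw [this, sigma_mul, sigma_mul, act_mul, G₂' _ b0, G₁ _ b1, G₂ _ b2, e]
      · rw [← hg₂]; group
      · rw [act_p, act_p, epsP _ _ _ (hPrho _ hr₂ P₂ _ (hPrho _ hr₁ P₁ _ P₂))]
        apply Sg.lex_pos
        have e3 : rho cs r₂ (rho cs r₁ (rt cs r₂)) = -rho cs τ' (rt cs r₂) := by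
          rw [e', rho_mul_apply, rho_mul_apply, hr₂.inv, rho_rt hr₂, map_neg, map_neg, neg_neg]
        rw [e3, map_neg, theta_rho hτ' (by simp [hEz _ _ hτ hτ' hτu]), c₂]
        simp [hE.self (rt_root hr₂)]
      · rw [act_p, ← e'']; exact eps_rt _ _ hτ hτ' hτu
      · rw [epsP _ _ _ P₂]
        exact Sg.lex_neg (by simp [c₂, hE.self (rt_root hr₂)])
    have hτ'' := hτ'.conj τ
    have hτu'' : τ * τ' * τ⁻¹ * τ = u := by rw [← hτu]; simp
    have Pτ := (hP1 _ _ hτ hτ' hτu).1
    have Pτ' := (hP1 _ _ hτ hτ' hτu).2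
    have Pτ'' := (hP1 _ _ hτ'' hτ hτu'').1
    have Ez := hEz _ _ hτ hτ' hτu
    have Ez'' := hEz _ _ hτ'' hτ hτu''
    have hA' : ∀ x y : ℝ, IsRoot cs (x • rt cs τ + y • rt cs τ') → x * y ≤ 0 := by
      rcases hA with hA | hA
      · exact ((hext _ _ (rt_root hτ) (rt_nonneg hτ) Pτ (rt_nonneg hτ') (hP2 _ _ hτ hτ' hτu) hA
          (E.flip (rt cs τ')) (by simpa using Ez) (by simpa using hE.self (rt_root hτ'))).elim
            c₁ c₂).elim
      · exact hA
    have e'' : rt cs (τ * τ' * τ⁻¹) = -rho cs τ (rt cs τ') := by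
      rcases rt_conj hτ' τ with e | e
      · exfalso
        refine (hext _ _ (rt_root hτ) (rt_nonneg hτ) Pτ (rt_nonneg hτ'') (fun y hy => ?_)
          (fun x y hxy => ?_) (E (rt cs (τ * τ' * τ⁻¹))) Ez'' (hE.self (rt_root hτ''))).elim c₁ c₂
        · obtain ⟨x, z, h⟩ := hP2 _ _ hτ'' hτ hτu'' y hy
          exact ⟨z, x, by rw [h, add_comm]⟩
        · have := hxy.rho τ
          rw [e, map_add, map_smul, map_smul, rho_rho hτ, rho_rt hτ, smul_neg, ← neg_smul] at this
          have := hA' _ _ this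
          linarith
      · exact e
    set η := E (rt cs (τ * τ' * τ⁻¹)) with hη
    have η' : η (rt cs τ') = -1 := by
      have h1 := hE.self (rt_root hτ'')
      nth_rewrite 2 [e''] at h1
      rw [map_neg, theta_rho hτ Ez''] at h1
      linarith
    have η₂ : 0 ≤ η (rt cs r₂) := by
      obtain ⟨x, y, -, hy, e⟩ := hdec _ (rt_root hτ'') (rt_nonneg hτ'') Pτ''
      rw [hη, e]; simpa [E12, hE.self (rt_root hr₂)] using hy
    have η₁ : η (rt cs r₁) < 0 := by
      obtain ⟨x, y, hx, hy, e⟩ := hdec _ (rt_root hτ) (rt_nonneg hτ) Pτ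
      obtain ⟨x', y', -, -, e'⟩ := hdec _ (rt_root hτ') (rt_nonneg hτ') Pτ'
      have hx' : x ≠ 0 := by
        rintro rfl
        exact c₂ ((rt_root hr₂).eq_of_smul_nonneg (rt_root hτ) (rt_nonneg hr₂) (rt_nonneg hτ)
          (c := y) (by rw [e]; simp))
      have hy' : y ≠ 0 := by
        rintro rfl
        exact c₁ ((rt_root hr₁).eq_of_smul_nonneg (rt_root hτ) (rt_nonneg hr₁) (rt_nonneg hτ)
          (c := x) (by rw [e]; simp))
      have hx0 := hx.lt_of_ne' hx'
      have hy0 := hy.lt_of_ne' hy'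
      rw [e] at Ez''
      rw [e'] at η'
      simp only [map_add, map_smul, smul_eq_mul] at Ez'' η'
      rcases η₂.eq_or_lt with h | h
      · rw [← h] at Ez'' η'
        have : η (rt cs r₁) = 0 := by simpa [hx'] using Ez''
        rw [this] at η'; simp at η'
      · nlinarith [mul_pos hy0 h]
    have b0 : Ref θ (eps (τ * τ' * τ⁻¹) τ) := ref_lex _ _
    have hσu : sigma cs ha (eps (τ * τ' * τ⁻¹) τ) u = g₁ * g₂ := by
      rw [← hur, sigma_mul, G₁ _ b0, G₂ _ (b0.act hr₁ θ₁)]
      · have h1 : 0 ≤ rho cs r₁ (rt cs τ) := by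
          rcases ((rt_root hτ).rho r₁).nonneg_or with h | h
          · exact h
          · exact (c₁ (s₁ _ ⟨rt_root hτ, rt_nonneg hτ, by rwa [hr₁.inv]⟩ (hPθ _ Pτ))).elim
        obtain ⟨p, q, hp, hq, e⟩ := hdec _ ((rt_root hτ).rho r₁) h1 (hPrho _ hr₁ P₁ _ Pτ)
        have e2 := congrArg (rho cs r₁) e
        rw [rho_rho hr₁, map_add, map_smul, map_smul, rho_rt hr₁] at e2
        rw [act_p]
        rcases hp.eq_or_lt with rfl | hp'
        · rw [← ((rt_root hr₂).rho r₁).eq_of_smul_nonneg (rt_root hτ) p12 (rt_nonneg hτ) (c := q)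
            (by rw [e2]; simp)]
          exact eps_rt _ _ hτ'' hτ hτu''
        · rw [epsP _ _ _ (hPrho _ hr₁ P₁ _ P₂)]
          apply Sg.lex_pos
          rw [e2] at Ez''
          simp only [map_add, map_smul, map_neg, smul_eq_mul] at Ez''
          rw [LinearMap.neg_apply, ← hη]
          by_contra hc
          nlinarith [mul_pos hp' (neg_pos.mpr η₁), mul_nonneg hq (neg_nonpos.mp (not_lt.mp hc))]
      · rw [epsP _ _ _ P₁]
        exact Sg.lex_pos (by simpa using η₁)
    rw [← hσu, ← hτu, sigma_mul, ← hLf _ _ hτ'' hτ hτu'', hLf _ _ hτ hτ' hτu]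
    congr 1
    refine sigma_congr cs ha _ _ _ fun γ hγ => ?_
    by_cases h0 : θ γ = 0
    swap
    · rw [(ref_lex θ _) γ h0, (b0.act hτ (hPθ _ Pτ)) γ h0]
    have Pγ := hG γ hγ h0
    obtain ⟨x, y, rfl⟩ := hP2 _ _ hτ hτ' hτu γ Pγ
    have hxy := hA' x y hγ.1
    rw [act_p, epsP _ _ _ Pγ, epsP _ _ _ (hPrho _ hτ Pτ _ Pγ)]
    have v1 : (-E (rt cs τ)) (x • rt cs τ + y • rt cs τ') = -x := by
      simp [Ez, hE.self (rt_root hτ)]
    have v2 : (-η) (rho cs τ (x • rt cs τ + y • rt cs τ')) = y := by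
      rw [theta_rho hτ (by simp [Ez''])]; simp [Ez'', η']
    rcases lt_trichotomy y 0 with hy | hy | hy
    · refine iff_of_false ?_ (Sg.lex_neg (by rwa [v2]))
      have hx : 0 ≤ x := by nlinarith
      rcases hx.eq_or_lt with rfl | hx'
      · exact (hγ.1.not_both hγ.2.1 (by
          simpa using smul_nonpos_of_nonpos_of_nonneg hy.le (rt_nonneg hτ'))).elim
      · exact Sg.lex_neg (by rw [v1]; linarith)
    · subst hy
      have e : x • rt cs τ + (0 : ℝ) • rt cs τ' = rt cs τ :=
        (rt_root hτ).eq_of_smul_nonneg hγ.1 (rt_nonneg hτ) hγ.2.1 (c := x) (by simp)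
      rw [e]
      refine iff_of_false (Sg.lex_neg (by simp [hE.self (rt_root hτ)])) ?_
      rw [rho_rt hτ, Sg.neg _ _ (rt_root hτ).ne_zero, not_not,
        Sg.lex_zero (by rw [LinearMap.neg_apply, ← hη, Ez'', neg_zero])]
      exact posSg_p hτ
    · refine iff_of_true ?_ (Sg.lex_pos (by rwa [v2]))
      have hx : x ≤ 0 := by nlinarith
      rcases hx.eq_or_lt with rfl | hx'
      · rw [Sg.lex_zero (by rw [v1, neg_zero]), zero_smul, zero_add]
        exact Sg.smul _ _ _ hy (posSg_p hτ')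
      · exact Sg.lex_pos (by rw [v1]; linarith)
  have m0 := main 0
  have m1 := main 1
  rw [zero_add, tau_one' h₁ h₀, tau_zero' h₁ h₀] at m0
  have := tau_conj h₁ h₀ 1 0
  rw [tau_one' h₁ h₀, tau_zero' h₁ h₀] at this
  rw [tau_one' h₁ h₀] at m1
  rw [m0, hu, this, ← m1]; rfl

theorem exists_lift (hE : IsEuler M l E) (hK : KeyBound cs l E) (ha : Braid M a) :
    ∃ L : W → A, (∀ i, L (cs.simple i) = a i) ∧ ∀ l₁ t t' l₂, Red cs l (l₁ ++ t :: t' :: l₂) →
      L t * L t' = L (t * t' * t⁻¹) * L t := by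
  refine ⟨Lf cs l E ha, Lf_simple hE ha, fun l₁ t t' l₂ h => ?_⟩
  have : Red cs l (l₁ ++ [t, t'] ++ l₂) := by simpa using h
  exact Lf_hurwitz_end hE hK ha this.move

end Pool.Agent.MP_d5a4a4_al

end
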