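import Pool.Agent.MP_d5a4a4_al.Mg.Lift
import Pool.Agent.MP_d5a4a4_al.Mutation
import Pool.Agent.MP_d5a4a4_al.Preproj
import Pool.Agent.MP_d5a4a4_al.Mg.Final

-- part MP_d5a4a4_al.Simply
section

/-!
The key bound when the Euler form is the Euler form of a quiver.
-/

namespace Pool.Agent.MP_d5a4a4_al

open CoxeterSystem Module QRep

set_option linter.unusedSectionVars false

variable {J : Type} [Fintype J] [DecidableEq J] {M : CoxeterMatrix J} {W : Type} [Group W]
  {cs : CoxeterSystem M W} {l : List J} {E : (J → ℝ) →ₗ[ℝ] (J → ℝ) →ₗ[ℝ] ℝ}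

theorem card_le_of_simple {θ : (J → ℝ) →ₗ[ℝ] ℝ} (K : List W) (hK : ∀ r ∈ K, cs.IsReflection r ∧
    θ (rt cs r) = 0 ∧ ∀ γ ∈ Inv cs r, θ γ = 0 → γ = rt cs r) (N : Finset (J → ℝ))
    (hN : ∀ γ ∈ N, γ ∈ Inv cs K.prod ∧ θ γ = 0) : N.card ≤ K.length := by
  classical
  induction K generalizing N with
  | nil =>
    have : N = ∅ := Finset.eq_empty_of_forall_notMem fun γ hγ => by
      simpa [Inv_one] using (hN γ hγ).1
    simp [this]
  | cons r K ih =>
    obtain ⟨h1, h2, h3⟩ := hK r (by simp)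
    have := ih (fun r hr => hK r (by simp [hr])) ((N.erase (rt cs r)).image (rho cs r⁻¹))
      fun γ hγ => by
        obtain ⟨x, hx, rfl⟩ := Finset.mem_image.mp hγ
        obtain ⟨x1, x2⟩ := Finset.mem_erase.mp hx
        obtain ⟨x3, x4⟩ := hN x x2
        rw [List.prod_cons] at x3
        exact ⟨(mem_inv_mul x3).resolve_left fun h => x1 (h3 x h x4),
          by rw [h1.inv, theta_rho h1 h2, x4]⟩
    rw [Finset.card_image_of_injective _ (rho_apply_injective cs _)] at this
    have h4 := Finset.pred_card_le_card_erase (s := N) (a := rt cs r)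
    simp only [List.length_cons]; omega

theorem nonpos_of_mem_span (hE : IsEuler M l E) {L : List W} (hr : ∀ t ∈ L, cs.IsReflection t)
    (hp : L.Pairwise fun a b => E (rt cs a) (rt cs b) = 0 ∧ E (rt cs b) (rt cs a) ≤ 0) {y : J → ℝ}
    (hy : y ∈ Submodule.span ℝ (rt cs '' {t | t ∈ L})) (h : ∀ t ∈ L, E (rt cs t) y ≤ 0) : y ≤ 0 := by
  induction L generalizing y with
  | nil => have : y = 0 := by simpa using hy
           rw [this]
  | cons t L ih =>
    rw [List.pairwise_cons] at hp
    obtain ⟨c, z, hz, rfl⟩ := exists_of_mem_span_cons hy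
    have h1 := h t (by simp)
    rw [map_add, map_smul, hE.self (rt_root (hr t (by simp))),
      apply_eq_zero_of_mem_span (fun r hr => (hp.1 r hr).1) hz] at h1
    have hc : c ≤ 0 := by simpa using h1
    have := ih (fun r hr' => hr r (by simp [hr'])) hp.2 hz fun r hr' => by
      have h2 := h r (by simp [hr'])
      rw [map_add, map_smul, smul_eq_mul] at h2
      nlinarith [(hp.1 r hr').2]
    exact add_nonpos (smul_nonpos_of_nonpos_of_nonneg hc (rt_nonneg (hr t (by simp)))) this

theorem rt_eq_of_sign {t t' : W} (ht : cs.IsReflection t) (ht' : cs.IsReflection t') {x : J → ℝ}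
    (hx : 0 ≤ x) {e : ℝ} (he : e * e = 1)
    (h : x = e • (rt cs t' + -bf M (rt cs t) (rt cs t') • rt cs t)) : x = rt cs (t * t' * t⁻¹) := by
  have h1 : rho cs t (rt cs t') = rt cs t' + -bf M (rt cs t) (rt cs t') • rt cs t := by
    rw [rho_eq_refl ht, refl_apply, neg_smul, sub_eq_add_neg]
  rw [← h1] at h
  have : (e - 1) * (e + 1) = 0 := by linarith
  rcases mul_eq_zero.mp this with h4 | h4
  · rw [show e = 1 by linarith, one_smul] at h
    rw [rt_conj_of_nonneg ht' t (h ▸ hx), h]
  · rw [show e = -1 by linarith, neg_smul, one_smul] at h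
    rw [rt_conj_of_nonpos ht' t (neg_nonneg.mp (h ▸ hx)), h]

theorem commute_of_bf {t k : W} (ht : cs.IsReflection t) (hk : cs.IsReflection k)
    (h : bf M (rt cs t) (rt cs k) = 0) : Commute t k := by
  have h1 : rho cs (t * k * t⁻¹) = rho cs k := by
    rw [rho_conj (rho_eq_refl hk), rho_eq_refl ht, refl_apply, h, zero_smul, sub_zero,
      rho_eq_refl hk]
  exact mul_inv_eq_iff_eq_mul.mp (rho_injective h1)

section Quiv
variable {C : J → J → ℕ} (hs : ∀ i j, C i j = C j i) (h0 : ∀ i, C i i = 0)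
  (hC : ∀ i x, bf M (al i) x = 2 * x i - ∑ j, C i j * x j)
include hs h0 hC

theorem simple_of_stable (P : PMod C) {θ : (J → ℝ) →ₗ[ℝ] ℝ} (hP : P.Stable θ) {t : W}
    (ht : cs.IsReflection t) (hd : dimS P.M = rt cs t) {γ : J → ℝ} (hγ : γ ∈ Inv cs t)
    (h : θ γ = 0) : γ = rt cs t := by
  induction hn : ∑ j, finrank ℚ (P.M j) using Nat.strong_induction_on generalizing P θ t γ with
  | _ n ih =>
  have hex : ∃ i, 0 < bf M (al i) (rt cs t) := by
    by_contra hc
    push Not at hc
    have h1 := (rt_root ht).norm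
    nth_rewrite 1 [eq_sum_al (rt cs t)] at h1
    rw [map_sum, LinearMap.sum_apply] at h1
    have h2 : ∑ i, bf M (rt cs t i • al i) (rt cs t) ≤ 0 := Finset.sum_nonpos fun i _ => by
      rw [map_smul, LinearMap.smul_apply, smul_eq_mul]
      exact mul_nonpos_of_nonneg_of_nonpos (rt_nonneg ht i) (hc i)
    linarith
  obtain ⟨i, hi⟩ := hex
  by_cases hti : rt cs t = al i
  · have : t = cs.simple i := eq_of_rt_eq ht (cs.isReflection_simple i) (by rw [hti, rt_simple])
    rw [hti]; exact mem_inv_simple (this ▸ hγ)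
  have hj : ∃ j, j ≠ i ∧ P.M j ≠ ⊥ := by
    by_contra hc
    push Not at hc
    apply hti
    refine (isRoot_al i).eq_of_smul_nonneg (rt_root ht) (al_nonneg i) (rt_nonneg ht)
      (c := rt cs t i) ?_
    funext j
    by_cases a : j = i
    · subst a; simp [al_apply]
    · rw [← hd, dimS, hc j a]; simp [al_apply, a]
  obtain ⟨j₀, hj₀, hM⟩ := hj
  obtain ⟨h1, P', h2, h3⟩ := PMod.reflect hs h0 hP hj₀ hM (by rw [hC, ← hd] at hi; linarith)
    (R := rho cs (cs.simple i)) fun x => by rw [rho_simple, refl_apply, hC]; rfl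
  have hθt : θ (rt cs t) = 0 := hd ▸ hP.1
  rw [hd] at h2
  have h4 : 0 ≤ rho cs (cs.simple i) (rt cs t) := h2 ▸ fun j => Nat.cast_nonneg _
  have key : ∀ x, IsRoot cs x → 0 ≤ x → θ x = 0 → 0 ≤ rho cs (cs.simple i) x := by
    intro x x1 x2 x3
    rcases (x1.rho (cs.simple i)).nonneg_or with a | a
    · exact a
    · rw [x1.eq_al x2 a] at x3; exact (h1 x3).elim
  have h5 := ih (∑ j, finrank ℚ (P'.M j)) (by
      have a1 : Pool.Agent.MP_d5a4a4_al.ht (dimS P'.M) < Pool.Agent.MP_d5a4a4_al.ht (dimS P.M) := by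
        rw [h2, hd, rho_simple, refl_apply, map_sub, map_smul, smul_eq_mul]
        have := ht_pos (al_nonneg i) (isRoot_al (cs := cs) i).ne_zero
        nlinarith
      simp only [ht_apply, dimS] at a1
      rw [← hn]; exact_mod_cast a1) P' h3 (ht.conj (cs.simple i))
    (by rw [h2, rt_conj_of_nonneg ht _ h4]) (γ := rho cs (cs.simple i) γ)
    ⟨hγ.1.rho _, key _ hγ.1 hγ.2.1 h, by
      have a1 := hγ.2.2
      rw [ht.inv] at a1
      have a2 := key _ (hγ.1.rho t).neg (neg_nonneg.mpr a1)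
        (by rw [map_neg, theta_rho ht hθt, h, neg_zero])
      rw [(ht.conj _).inv, rho_mul_apply, rho_mul_apply, rho_inv_rho]
      rwa [map_neg, neg_nonneg] at a2⟩
    (by rw [LinearMap.comp_apply, rho_rho (cs.isReflection_simple i), h]) rfl
  rw [rt_conj_of_nonneg ht _ h4] at h5
  exact rho_apply_injective cs _ h5

end Quiv

/-- Arrows of the quiver with `n i j` arrows from `i` to `j`. -/
abbrev Arr (n : J → J → ℕ) := Σ p : J × J, Fin (n p.1 p.2)

/-- Source. -/
abbrev src (n : J → J → ℕ) : Arr n → J := fun a => a.1.1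

/-- Target. -/
abbrev tgt (n : J → J → ℕ) : Arr n → J := fun a => a.1.2

theorem exists_pmod {n : J → J → ℕ} (h1 : ∀ i j, n i j = 0 ∨ n j i = 0)
    (X : QRep (src n) (tgt n)) {θ : (J → ℝ) →ₗ[ℝ] ℝ} (hθ : θ X.dim = 0)
    (h : ∀ N hN, θ (X.sub N hN).dim ≤ 0 ∧
      (θ (X.sub N hN).dim = 0 → (∀ j, N j = ⊥) ∨ ∀ j, N j = ⊤)) :
    ∃ P : PMod fun i j => n i j + n j i, dimS P.M = X.dim ∧ P.Stable θ := by
  let f : J → J → ℕ → (∀ j, X.V j) →ₗ[ℚ] (∀ j, X.V j) := fun i j r =>
    if h : r < n i j then LinearMap.single ℚ X.V j ∘ₗ X.f ⟨(i, j), ⟨r, h⟩⟩ ∘ₗ LinearMap.proj i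
    else 0
  have hinj : ∀ j, Function.Injective (LinearMap.single ℚ X.V j) := fun j => Pi.single_injective j
  let P : PMod fun i j => n i j + n j i :=
    { T := ∀ j, X.V j
      M := fun j => (⊤ : Submodule ℚ (X.V j)).map (LinearMap.single ℚ X.V j)
      f := f
      maps := by
        intro i j r _ x _
        by_cases h : r < n i j
        · simp only [f, dif_pos h]; exact ⟨_, trivial, rfl⟩
        · simp only [f, dif_neg h]; exact Submodule.zero_mem _
      rel := by
        intro i x _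
        refine Finset.sum_eq_zero fun p _ => ?_
        rcases h1 i p.1 with a | a
        · have : f i p.1 p.2 = 0 := dif_neg (by omega)
          rw [this, LinearMap.zero_apply, map_zero]
        · have : f p.1 i p.2 = 0 := dif_neg (by omega)
          rw [this, LinearMap.zero_apply] }
  have hd : dimS P.M = X.dim := by
    funext j
    change ((finrank ℚ ((⊤ : Submodule ℚ (X.V j)).map (LinearMap.single ℚ X.V j)) : ℕ) : ℝ) = _
    rw [finrank_map_inj (hinj j), finrank_top]; rfl
  refine ⟨P, hd, hd ▸ hθ, fun N' hN hc => ?_⟩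
  let N₀ : J → Submodule ℚ (∀ j, X.V j) := N'
  let N : ∀ j, Submodule ℚ (X.V j) := fun j => (N₀ j).comap (LinearMap.single ℚ X.V j)
  have n1 : ∀ j, N₀ j = (N j).map (LinearMap.single ℚ X.V j) := fun j =>
    (Submodule.map_comap_eq_of_le ((hN j).trans LinearMap.map_le_range)).symm
  have hcl : ∀ a, ∀ x ∈ N (src n a), X.f a x ∈ N (tgt n a) := by
    rintro ⟨⟨i, j⟩, r, hr⟩ x hx
    have hr' : r < n i j := hr
    have := hc i j r (hr'.trans_le (Nat.le_add_right _ _)) _ hx
    change f i j r _ ∈ N₀ j at this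
    simp only [f, dif_pos hr', LinearMap.comp_apply, LinearMap.proj_apply, LinearMap.single_apply,
      Pi.single_eq_same] at this
    exact this
  have hd' : dimS N₀ = (X.sub N hcl).dim := by
    funext j
    rw [dimS, n1, finrank_map_inj (hinj j)]; rfl
  have := h N hcl
  rw [← hd'] at this
  refine ⟨this.1, fun e => (this.2 e).imp (fun a j => ?_) fun a j => ?_⟩
  · change N₀ j = ⊥
    rw [n1, a, Submodule.map_bot]
  · change N₀ j = _
    rw [n1, a]

section Main
variable {n : J → J → ℕ} (hE : IsEuler M l E) (hn0 : ∀ i, n i i = 0)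
  (hn1 : ∀ i j, n i j = 0 ∨ n j i = 0)
  (hn : ∀ i j, E (al i) (al j) = (if i = j then 1 else 0) - n i j)

variable (cs n) in
/-- An exceptional representation whose dimension vector is the root of `t`. -/
def ExcOf (t : W) (X : QRep (src n) (tgt n)) : Prop := Exc X ∧ X.dim = rt cs t

variable (cs n) in
/-- Orthogonality of the exceptional representations of two reflections. -/
def PP (t t' : W) : Prop := ∀ X Y, ExcOf cs n t X → ExcOf cs n t' Y → Perp X Y

variable (cs n) in
/-- Vanishing of morphisms between the exceptional representations of two reflections. -/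
def HH (t t' : W) : Prop := ∀ X Y, ExcOf cs n t X → ExcOf cs n t' Y → HomZ X Y

theorem pp_of {t t' : W} {X Y : QRep (src n) (tgt n)} (hX : ExcOf cs n t X) (hY : ExcOf cs n t' Y)
    (h : Perp X Y) : PP cs n t t' := fun _ _ a b =>
  h.congr hX.1 a.1 hY.1 b.1 (hX.2.trans a.2.symm) (hY.2.trans b.2.symm)

include hn

theorem eul_eq_E (x y : J → ℝ) : eul (src n) (tgt n) x y = E x y := by
  conv_rhs => rw [eq_sum_al x, eq_sum_al y]
  simp only [map_sum, map_smul, LinearMap.sum_apply, LinearMap.smul_apply, hn, smul_eq_mul, eul,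
    Fintype.sum_sigma, Fintype.sum_prod_type, mul_sub, Finset.sum_sub_distrib, mul_ite, mul_one, mul_zero, Finset.sum_ite_eq',
    Finset.mem_univ, if_true, Finset.mul_sum]
  congr 1
  · exact Finset.sum_congr rfl fun _ _ => mul_comm _ _
  · rw [Finset.sum_comm]
    refine Finset.sum_congr rfl fun j _ => Finset.sum_congr rfl fun i _ => ?_
    change ∑ _r : Fin (n i j), x i * y j = _
    simp; ring

include hE hn0

theorem red_exc {L : List W} (hL : Red cs l L) :
    (∀ t ∈ L, ∃ X, ExcOf cs n t X) ∧ L.Pairwise (PP cs n) := by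
  have hsim : ∀ i, ExcOf cs n (cs.simple i) (QRep.simple _ _ i) := fun i => by
    have e : eul (src n) (tgt n) (Pi.single i 1) (Pi.single i 1) = 1 := by
      have := hn i i
      rw [hn0, ← eul_eq_E hn] at this
      simpa [al] using this
    exact ⟨⟨extZ_simple (by simpa using e), by rw [dim_simple, e]⟩, by rw [dim_simple, rt_simple]; rfl⟩
  refine Red.induction (P := fun L => (∀ t ∈ L, ∃ X, ExcOf cs n t X) ∧ L.Pairwise (PP cs n))
    hE.nodup ⟨fun t ht => ?_, ?_⟩ ?_ hL
  · obtain ⟨i, -, rfl⟩ := List.mem_map.mp ht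
    exact ⟨_, hsim i⟩
  · rw [List.pairwise_map]
    refine (hE.pw.and hE.nodup).imp fun {i j} h => pp_of (hsim i) (hsim j) ?_
    have e : eul (src n) (tgt n) (Pi.single i 1) (Pi.single j 1) = 0 :=
      (eul_eq_E hn _ _).trans h.1
    exact (extZ_simple (by rw [e, if_neg h.2])).perp (by rw [dim_simple, dim_simple, e])
  · rintro _ _ hL ⟨l₁, t, t', l₂, rfl, rfl⟩
    have ht := hL.refl t (by simp)
    have ht' := hL.refl t' (by simp)
    have ht'' := ht'.conj t
    simp only [List.pairwise_append, List.pairwise_cons, List.mem_cons, List.mem_append, or_imp,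
      forall_and, forall_eq]
    constructor
    · rintro ⟨⟨b1, ⟨X, hX⟩, ⟨Y, hY⟩, b4⟩, a1, ⟨⟨a2, a3⟩, a4, a5⟩, a6, a7, a8⟩
      obtain ⟨L, c1, c2, ⟨e, he, c3⟩, c4⟩ := left_mutation hX.1 hY.1 (a2 _ _ hX hY)
      have hL' : ExcOf cs n (t * t' * t⁻¹) L := ⟨c1, rt_eq_of_sign ht ht'
        (fun j => Nat.cast_nonneg _) he (by
          have d1 := (a2 _ _ hX hY).eul
          rw [eul_eq_E hn, hX.2, hY.2] at d1
          rw [c3, eul_eq_E hn, hX.2, hY.2, ← hE.symm, d1, zero_add])⟩
      refine ⟨⟨b1, ⟨L, hL'⟩, ⟨X, hX⟩, b4⟩, a1, ⟨⟨pp_of hL' hX c2, fun b hb => ?_⟩, a3, a5⟩,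
        fun b hb => ?_, a6, a8⟩
      · obtain ⟨Z, hZ⟩ := b4 b hb
        exact pp_of hL' hZ ((c4 Z).2 (a3 b hb _ _ hX hZ) (a4 b hb _ _ hY hZ))
      · obtain ⟨Z, hZ⟩ := b1 b hb
        exact pp_of hZ hL' ((c4 Z).1 (a6 b hb _ _ hZ hX) (a7 b hb _ _ hZ hY))
    · rintro ⟨⟨b1, ⟨X, hX⟩, ⟨Y, hY⟩, b4⟩, a1, ⟨⟨a2, a3⟩, a4, a5⟩, a6, a7, a8⟩
      obtain ⟨L, c1, c2, ⟨e, he, c3⟩, c4⟩ := right_mutation hX.1 hY.1 (a2 _ _ hX hY)
      have hL' : ExcOf cs n t' L := ⟨c1, by
        have := rt_eq_of_sign (x := L.dim) ht ht'' (fun j => Nat.cast_nonneg _) he (by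
          have d1 := (a2 _ _ hX hY).eul
          rw [eul_eq_E hn, hX.2, hY.2] at d1
          rw [c3, eul_eq_E hn, hX.2, hY.2, ← hE.symm, d1, add_zero])
        rw [this]
        congr 1
        rw [ht.inv]; simp [← mul_assoc, ht.mul_self]; simp [mul_assoc, ht.mul_self]⟩
      refine ⟨⟨b1, ⟨Y, hY⟩, ⟨L, hL'⟩, b4⟩, a1, ⟨⟨pp_of hY hL' c2, a4⟩, fun b hb => ?_, a5⟩,
        a7, fun b hb => ?_, a8⟩
      · obtain ⟨Z, hZ⟩ := b4 b hb
        exact pp_of hL' hZ ((c4 Z).2 (a3 b hb _ _ hX hZ) (a4 b hb _ _ hY hZ))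
      · obtain ⟨Z, hZ⟩ := b1 b hb
        exact pp_of hZ hL' ((c4 Z).1 (a6 b hb _ _ hZ hX) (a7 b hb _ _ hZ hY))

theorem exists_lower {L₁ : List W} (m : ℕ) : ∀ (A mid B : List W) (t t' : W), mid.length = m →
    Red cs l (L₁ ++ (A ++ t :: mid ++ t' :: B)) → ¬ HH cs n t' t →
    ∃ K, Red cs l (L₁ ++ K) ∧ K.prod = (A ++ t :: mid ++ t' :: B).prod ∧
      (K.map fun r => ht (rt cs r)).sum <
        ((A ++ t :: mid ++ t' :: B).map fun r => ht (rt cs r)).sum := by
  induction m using Nat.strong_induction_on with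
  | _ m ih =>
  intro A mid B t t' hm hL hH
  by_cases c1 : ∃ k ∈ mid, ¬ HH cs n k t
  · obtain ⟨k, hk, hk'⟩ := c1
    obtain ⟨m₁, m₂, rfl⟩ := List.append_of_mem hk
    have := ih m₁.length (by simp at hm; omega) A m₁ (m₂ ++ t' :: B) t k rfl (by simpa using hL) hk'
    simpa using this
  by_cases c2 : ∃ k ∈ mid, ¬ HH cs n t' k
  · obtain ⟨k, hk, hk'⟩ := c2
    obtain ⟨m₁, m₂, rfl⟩ := List.append_of_mem hk
    have := ih m₂.length (by simp at hm; omega) (A ++ t :: m₁) m₂ B k t' rfl (by simpa using hL) hk'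
    simpa using this
  push Not at c1 c2
  obtain ⟨e1, e2⟩ := red_exc hE hn0 hn hL
  have ht := hL.refl t (by simp)
  have ht' := hL.refl t' (by simp)
  have p0 : (t :: mid ++ [t']).Pairwise (PP cs n) := e2.sublist (by
    refine List.Sublist.trans ?_ (List.sublist_append_right L₁ _)
    rw [List.append_assoc]
    refine List.Sublist.trans ?_ (List.sublist_append_right A _)
    exact List.Sublist.append (List.Sublist.refl _) (by simp))
  simp only [List.cons_append, List.pairwise_cons, List.pairwise_append, List.mem_append,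
    List.mem_singleton, or_imp, forall_and, forall_eq] at p0
  obtain ⟨⟨p1, p2⟩, -, -, p3⟩ := p0
  simp only [HH, not_forall] at hH
  obtain ⟨Y, X, hY, hX, hH⟩ := hH
  have hXY := p2 _ _ hX hY
  have z1 : E (rt cs t) (rt cs t') = 0 := by rw [← hX.2, ← hY.2, ← eul_eq_E hn, hXY.eul]
  have hpos : 0 < bf M (rt cs t) (rt cs t') := by
    rw [← hE.symm, z1, zero_add, ← hX.2, ← hY.2, ← eul_eq_E hn,
      (extZ_of_not_homZ hX.1 hY.1 hXY.2 hH).eul]
    exact_mod_cast Nat.pos_of_ne_zero fun e => hH (homZ_iff.mpr e)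
  obtain ⟨r₁, r₀, q1, q2, q3, q4⟩ := exists_lower_pair ht ht' z1 (hE.self (rt_root ht)) hpos
  have hrefl : ∀ k ∈ mid, cs.IsReflection k := fun k hk => hL.refl k (by simp [hk])
  rcases ext_dichotomy hX.1 hY.1 hXY.2 hH with d | d
  · have hc : Commute t' mid.prod := Commute.list_prod_right _ _ fun k hk => by
      obtain ⟨K, hK⟩ := e1 k (by simp [hk])
      refine commute_of_bf ht' (hrefl k hk) ?_
      rw [← hE.symm, ← hY.2, ← hK.2, ← eul_eq_E hn, ← eul_eq_E hn,
        Perp.eul ⟨c2 k hk _ _ hY hK, d _ (p1 k hk _ _ hX hK).2⟩, (p3 k hk _ _ hK hY).eul, add_zero]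
    have hp : (r₁ :: r₀ :: mid).prod = (t :: mid ++ [t']).prod := by
      simp only [List.prod_cons, List.prod_append, List.prod_nil, mul_one, List.cons_append]
      rw [← mul_assoc, q3, mul_assoc, hc.eq]
    refine ⟨A ++ r₁ :: r₀ :: mid ++ B, ?_, ?_, ?_⟩
    · have := Red.replace (L₁ := L₁ ++ A) (L₂ := t :: mid ++ [t']) (L₃ := B)
        (K := r₁ :: r₀ :: mid) (by simpa using hL) (by simpa [q1, q2] using hrefl) hp (by simp)
      simpa using this
    · rw [List.prod_append, List.prod_append, hp]; simp [mul_assoc]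
    · simp only [List.map_append, List.map_cons, List.sum_append, List.sum_cons]; linarith
  · have hc : Commute t mid.prod := Commute.list_prod_right _ _ fun k hk => by
      obtain ⟨K, hK⟩ := e1 k (by simp [hk])
      refine commute_of_bf ht (hrefl k hk) ?_
      rw [← hE.symm, ← hX.2, ← hK.2, ← eul_eq_E hn, ← eul_eq_E hn,
        Perp.eul ⟨c1 k hk _ _ hK hX, d _ (p3 k hk _ _ hK hY).2⟩, (p1 k hk _ _ hX hK).eul, add_zero]
    have hp : (mid ++ [r₁, r₀]).prod = (t :: mid ++ [t']).prod := by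
      simp only [List.prod_cons, List.prod_append, List.prod_nil, mul_one, List.cons_append]
      rw [q3, ← mul_assoc, ← hc.eq, mul_assoc]
    refine ⟨A ++ (mid ++ [r₁, r₀]) ++ B, ?_, ?_, ?_⟩
    · have := Red.replace (L₁ := L₁ ++ A) (L₂ := t :: mid ++ [t']) (L₃ := B)
        (K := mid ++ [r₁, r₀]) (by simpa using hL) (by
          intro k hk
          simp only [List.mem_append, List.mem_cons, List.not_mem_nil, or_false] at hk
          rcases hk with hk | rfl | rfl
          exacts [hrefl k hk, q1, q2]) hp (by simp)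
      simpa using this
    · rw [List.prod_append, List.prod_append, hp]; simp [mul_assoc]
    · simp only [List.map_append, List.map_cons, List.sum_append, List.sum_cons, List.map_nil,
        List.sum_nil]; linarith

omit hn hE hn0 in
theorem exists_split_of_not_pairwise {α : Type} {R : α → α → Prop} {L : List α}
    (h : ¬ L.Pairwise R) : ∃ A t mid t' B, L = A ++ t :: mid ++ t' :: B ∧ ¬ R t t' := by
  induction L with
  | nil => simp at h
  | cons a L ih =>
    rw [List.pairwise_cons, not_and_or] at h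
    rcases h with h | h
    · push Not at h
      obtain ⟨b, hb, hab⟩ := h
      obtain ⟨m₁, m₂, rfl⟩ := List.append_of_mem hb
      exact ⟨[], a, m₁, b, m₂, by simp, hab⟩
    · obtain ⟨A, t, mid, t', B, rfl, h1⟩ := ih h
      exact ⟨a :: A, t, mid, t', B, by simp, h1⟩

theorem exists_orth {L₁ L₂ : List W} (hL : Red cs l (L₁ ++ L₂)) :
    ∃ K, Red cs l (L₁ ++ K) ∧ K.prod = L₂.prod ∧ K.Pairwise fun t t' => HH cs n t' t := by
  have hnat : ∀ K : List W, (∀ t ∈ K, ∃ X, ExcOf cs n t X) →
      ∃ k : ℕ, (K.map fun r => ht (rt cs r)).sum = k := by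
    intro K hK
    induction K with
    | nil => exact ⟨0, by simp⟩
    | cons a K ih =>
      obtain ⟨k, hk⟩ := ih fun t ht => hK t (by simp [ht])
      obtain ⟨X, hX⟩ := hK a (by simp)
      exact ⟨∑ j, finrank ℚ (X.V j) + k, by
        rw [List.map_cons, List.sum_cons, hk, ← hX.2, ht_apply]; simp [dim]⟩
  have hnat' : ∀ K, Red cs l (L₁ ++ K) → ∃ k : ℕ, (K.map fun r => ht (rt cs r)).sum = k :=
    fun K hK => hnat K fun t ht => (red_exc hE hn0 hn hK).1 t (by simp [ht])
  obtain ⟨k, hk⟩ := hnat' _ hL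
  induction k using Nat.strong_induction_on generalizing L₂ with
  | _ k ih =>
  by_cases h : L₂.Pairwise fun t t' => HH cs n t' t
  · exact ⟨L₂, hL, rfl, h⟩
  obtain ⟨A, t, mid, t', B, rfl, h1⟩ := exists_split_of_not_pairwise h
  obtain ⟨K, a1, a2, a3⟩ := exists_lower hE hn0 hn _ A mid B t t' rfl hL h1
  obtain ⟨k', hk'⟩ := hnat' _ a1
  rw [hk, hk'] at a3
  obtain ⟨K', b1, b2, b3⟩ := ih k' (by exact_mod_cast a3) a1 hk'
  exact ⟨K', b1, b2.trans a2, b3⟩

include hn1

theorem keyBound_quiver : KeyBound cs l E := by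
  intro L₁ L₂ hL θ hθ N hN
  obtain ⟨K, hK, hp, ho⟩ := exists_orth hE hn0 hn hL
  have hlen : K.length = L₂.length := by
    have a1 := hK.len
    have a2 := hL.len
    simp only [List.length_append] at a1 a2; omega
  rw [← hp] at hθ hN
  rw [← hlen]
  obtain ⟨e1, e2⟩ := red_exc hE hn0 hn hK
  have e3 : K.Pairwise (PP cs n) := (List.pairwise_append.mp e2).2.1
  have hr : ∀ t ∈ K, cs.IsReflection t := fun t ht => hK.refl t (by simp [ht])
  have hsym : ∀ a ∈ K, ∀ b ∈ K, a ≠ b → HH cs n a b := by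
    have : K.Pairwise fun a b => HH cs n a b ∧ HH cs n b a :=
      (e3.and ho).imp fun h => ⟨fun X Y a b => (h.1 X Y a b).1, h.2⟩
    have hsy : Std.Symm fun a b => HH cs n a b ∧ HH cs n b a := ⟨fun _ _ h => h.symm⟩
    exact fun a ha b hb hab => (this.forall ha hb hab).1
  have hp2 : K.Pairwise fun a b => E (rt cs a) (rt cs b) = 0 ∧ E (rt cs b) (rt cs a) ≤ 0 := by
    refine (List.Pairwise.and_mem.mp (e3.and ho)).imp fun {a b} h => ?_
    obtain ⟨X, hX⟩ := e1 a (by simp [h.1])
    obtain ⟨Y, hY⟩ := e1 b (by simp [h.2.1])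
    rw [← hX.2, ← hY.2, ← eul_eq_E hn, ← eul_eq_E hn]
    exact ⟨(h.2.2.1 _ _ hX hY).eul, (h.2.2.2 _ _ hY hX).eul_nonpos⟩
  refine card_le_of_simple K (fun t ht => ?_) N hN
  have hθt : θ (rt cs t) = 0 := hθ.zero fun r hr => hr.zero hE hK ht
  refine ⟨hr t ht, hθt, fun γ hγ h => ?_⟩
  obtain ⟨X, hX⟩ := e1 t (by simp [ht])
  obtain ⟨P, hP1, hP2⟩ := exists_pmod hn1 X (θ := θ) (hX.2 ▸ hθt) fun N hN => by
    obtain ⟨b1, b2⟩ := hθ (X.sub N hN).dim (by
      rintro δ ⟨K₁, K₂, c1, c2, c3⟩
      obtain ⟨d1, d2⟩ := red_exc hE hn0 hn (c1.swap hE.nodup hK c2)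
      obtain ⟨Z, hZ⟩ := d1 δ (by simp [c3])
      rw [← hZ.2, ← eul_eq_E hn]
      exact (((List.pairwise_append.mp d2).2.2 δ c3 t ht _ _ hZ hX).1.of_inj (isHom_incl X N hN)
        (incl_inj X N hN)).eul_nonpos)
    refine ⟨b1, fun e => ?_⟩
    by_cases htop : ∀ j, N j = ⊤
    · exact Or.inr htop
    left
    have b3 := nonpos_of_mem_span hE hr hp2
      (hK.perp hE fun δ hδ => b2 e δ ⟨L₁, K, hK, rfl, hδ⟩) fun k hk => by
        by_cases hkt : k = t
        · rw [hkt, ← hX.2, ← eul_eq_E hn]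
          refine HomZ.eul_nonpos fun φ hφ => ?_
          obtain ⟨c, hc⟩ := hX.1.brick _ ((isHom_incl X N hN).comp hφ)
          by_cases hc0 : c = 0
          · funext j; ext x
            exact Subtype.ext ((hc j x).trans (by rw [hc0]; exact zero_smul _ _))
          · refine (htop fun j => eq_top_iff.mpr fun x _ => ?_).elim
            have b4 := (φ j (c⁻¹ • x)).2
            have b5 : ((φ j (c⁻¹ • x)).1 : X.V j) = x :=
              (hc j _).trans (by rw [smul_smul, mul_inv_cancel₀ hc0, one_smul])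
            rwa [b5] at b4
        · obtain ⟨Z, hZ⟩ := e1 k (by simp [hk])
          rw [← hZ.2, ← eul_eq_E hn]
          exact ((hsym k hk t ht hkt _ _ hZ hX).of_inj (isHom_incl X N hN)
            (incl_inj X N hN)).eul_nonpos
    intro j
    have b4 : ((finrank ℚ (N j) : ℕ) : ℝ) ≤ 0 := b3 j
    exact Submodule.finrank_eq_zero.mp (by exact_mod_cast le_antisymm b4 (Nat.cast_nonneg _))
  refine simple_of_stable (fun i j => add_comm _ _) (fun i => by simp [hn0]) (fun i x => ?_) P hP2
    (hr t ht) (hP1.trans hX.2) hγ h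
  rw [← hE.symm]
  conv_lhs => rw [eq_sum_al x]
  simp only [map_sum, map_smul, LinearMap.sum_apply, LinearMap.smul_apply, hn, smul_eq_mul, mul_sub,
    Finset.sum_sub_distrib, mul_ite, mul_one, mul_zero, Finset.sum_ite_eq', Finset.sum_ite_eq,
    Finset.mem_univ, if_true, Nat.cast_add, add_mul, Finset.sum_add_distrib]
  simp only [mul_comm (x _)]
  ring

end Main

end Pool.Agent.MP_d5a4a4_al

end

-- part MP_d5a4a4_al.Unfold
section

/-!
Unfolding an arbitrary Coxeter system to a simply laced one, and the key bound in general.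
-/

namespace Pool.Agent.MP_d5a4a4_al

open CoxeterSystem

set_option linter.unusedSectionVars false

theorem exists_path (m : ℕ) : ∃ (k : ℕ) (d : Fin (k + 1) → ℝ) (A : Fin (k + 1) → Fin (k + 1) → ℕ),
    (∀ a, 0 < d a) ∧ (∀ a b, A a b = A b a) ∧ (∀ a b, A a b ≤ 2) ∧
      (m ≠ 1 → ∀ a, ∑ b, A a b * d b = cc m * d a) := by
  rcases Nat.lt_or_ge m 2 with hm | hm
  · refine ⟨0, fun _ => 1, fun _ _ => 2, fun _ => one_pos, fun _ _ => rfl, fun _ _ => le_rfl,
      fun h a => ?_⟩
    obtain rfl : m = 0 := by omega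
    simp [cc_zero]
  obtain ⟨k, rfl⟩ : ∃ k, m = k + 2 := ⟨m - 2, by omega⟩
  refine ⟨k, fun a => U (cc (k + 2)) (a + 1),
    fun a b => (if (b : ℕ) = a + 1 then 1 else 0) + (if (a : ℕ) = b + 1 then 1 else 0),
    fun a => U_pos (by omega) (by omega), fun a b => add_comm _ _, fun a b => ?_, fun _ a => ?_⟩
  · dsimp only
    split_ifs <;> omega
  have h1 : ∑ b : Fin (k + 1), (if (b : ℕ) = a + 1 then (1 : ℝ) else 0) * U (cc (k + 2)) (b + 1) =
      U (cc (k + 2)) (a + 2) := by
    by_cases h : (a : ℕ) + 1 < k + 1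
    · rw [Finset.sum_eq_single ⟨a + 1, h⟩]
      · simp
      · intro b _ hb
        rw [if_neg fun e => hb (Fin.ext e), zero_mul]
      · simp
    · have e : (a : ℕ) + 2 = 0 + (k + 2) := by omega
      rw [e, U_add_self hm, Finset.sum_eq_zero fun b _ => by rw [if_neg (by omega), zero_mul]]
      simp [U]
  have h2 : ∑ b : Fin (k + 1), (if (a : ℕ) = b + 1 then (1 : ℝ) else 0) * U (cc (k + 2)) (b + 1) =
      U (cc (k + 2)) a := by
    rcases Nat.eq_zero_or_pos a with h | h
    · rw [Finset.sum_eq_zero fun b _ => by rw [if_neg (by omega), zero_mul], h]; rfl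
    · rw [Finset.sum_eq_single ⟨a - 1, by omega⟩]
      · simp [Nat.sub_add_cancel h]
      · intro b _ hb
        rw [if_neg fun e => hb (Fin.ext (by simp; omega)), zero_mul]
      · simp
  push_cast
  simp only [add_mul, Finset.sum_add_distrib, h1, h2, U]
  ring

variable {B : Type} [Fintype B] [DecidableEq B]

/-- Unfolding data. -/
structure Unf (M : CoxeterMatrix B) (I : Type) [Fintype I] where
  d : I → ℝ
  A : B → B → I → I → ℕ
  pos : ∀ a, 0 < d a
  symm : ∀ i j a b, A i j a b = A j i b a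
  le : ∀ i j a b, A i j a b ≤ 2
  eig : ∀ i j, i ≠ j → ∀ a, ∑ b, A i j a b * d b = cc (M i j) * d a

theorem exists_unf (M : CoxeterMatrix B) :
    ∃ (I : Type) (_ : Fintype I) (_ : DecidableEq I), Nonempty I ∧ Nonempty (Unf M I) := by
  classical
  choose k d A h1 h2 h3 h4 using fun e : Sym2 B =>
    exists_path (Sym2.lift ⟨fun i j => M i j, M.symmetric⟩ e)
  let F : ∀ _ : Sym2 B, (∀ e, Fin (k e + 1)) → (∀ e, Fin (k e + 1)) → ℕ := fun e a b =>
    if ∀ e', e' ≠ e → a e' = b e' then A e (a e) (b e) else 0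
  refine ⟨∀ e, Fin (k e + 1), inferInstance, inferInstance, inferInstance,
    ⟨⟨fun a => ∏ e, d e (a e), fun i j => F s(i, j), fun a => Finset.prod_pos fun e _ => h1 e _,
      fun i j a b => ?_, fun i j a b => ?_, fun i j hij a => ?_⟩⟩⟩
  · rw [Sym2.eq_swap (a := j)]
    simp only [F, h2 _ (a _), eq_comm (a := a _)]
  · simp only [F]; split_ifs
    · exact h3 _ _ _
    · omega
  · have key : ∀ (e : Sym2 B) (x : Fin (k e + 1)), ∏ e', d e' (Function.update a e x e') =
        d e x * ∏ e' ∈ Finset.univ.erase e, d e' (a e') := fun e x => by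
      rw [← Finset.mul_prod_erase _ _ (Finset.mem_univ e), Function.update_self]
      congr 1
      exact Finset.prod_congr rfl fun e' he => by
        rw [Function.update_of_ne (Finset.ne_of_mem_erase he)]
    rw [← Fintype.sum_of_injective (Function.update a s(i, j)) (Function.update_injective _ _)
      (fun x => (A s(i, j) (a s(i, j)) x * d s(i, j) x) *
        ∏ e' ∈ Finset.univ.erase s(i, j), d e' (a e'))]
    · rw [← Finset.sum_mul, h4 s(i, j) (M.off_diagonal i j hij), mul_assoc,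
        Finset.mul_prod_erase _ (fun e => d e (a e)) (Finset.mem_univ _)]
      rfl
    · intro b hb
      have : F s(i, j) a b = 0 := if_neg fun h => hb ⟨b s(i, j), by
        funext e
        by_cases he : e = s(i, j)
        · subst he; simp
        · rw [Function.update_of_ne he, h e he]⟩
      simp [this]
    · intro x
      have : F s(i, j) a (Function.update a s(i, j) x) = A s(i, j) (a s(i, j)) x := by
        simp only [F]
        rw [if_pos fun e he => (Function.update_of_ne he _ _).symm, Function.update_self]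
      rw [this, key, mul_assoc]

variable {M : CoxeterMatrix B} {I : Type} [Fintype I] [DecidableEq I] (D : Unf M I)

namespace Unf

/-- Number of edges in the unfolded graph. -/
def C (p q : B × I) : ℕ := if p.1 = q.1 then 0 else D.A p.1 q.1 p.2 q.2

theorem C_symm (p q : B × I) : D.C p q = D.C q p := by
  simp only [C, eq_comm (a := p.1), D.symm p.1]

/-- The unfolded Coxeter matrix. -/
def mat : CoxeterMatrix (B × I) where
  M := Matrix.of fun p q => if p = q then 1 else if D.C p q = 0 then 2 else if D.C p q = 1 then 3 else 0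
  isSymm := by
    ext p q
    simp only [Matrix.transpose_apply, Matrix.of_apply, eq_comm (a := q), D.C_symm q]
  diagonal p := by simp
  off_diagonal p q h := by
    simp only [Matrix.of_apply, if_neg h]; split_ifs <;> omega

theorem cc_mat {p q : B × I} (h : p ≠ q) : cc (D.mat p q) = D.C p q := by
  have h2 : D.C p q ≤ 2 := by
    rw [C]; split_ifs
    · omega
    · exact D.le _ _ _ _
  change cc (if p = q then 1 else if D.C p q = 0 then 2 else if D.C p q = 1 then 3 else 0) = _
  rw [if_neg h]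
  split_ifs with h0 h1
  · rw [h0, cc_two]; simp
  · rw [h1, cc_three]; simp
  · rw [show D.C p q = 2 by omega, cc_zero]; simp

theorem bf_mat (p q : B × I) :
    bf D.mat (al p) (al q) = (if p = q then 2 else 0) - D.C p q := by
  by_cases h : p = q
  · subst h; simp [bf_al_self, C]
  · rw [bf_al_al, D.cc_mat h, if_neg h, zero_sub]

/-- Folding projection. -/
def pr : (B × I → ℝ) →ₗ[ℝ] (B → ℝ) where
  toFun y i := ∑ a, D.d a * y (i, a)
  map_add' y y' := by funext i; simp [mul_add, Finset.sum_add_distrib]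
  map_smul' c y := by funext i; simp [Finset.mul_sum, mul_left_comm]

/-- Unfolding inclusion. -/
def io : (B → ℝ) →ₗ[ℝ] (B × I → ℝ) where
  toFun x p := D.d p.2 * x p.1
  map_add' x x' := by funext p; simp [mul_add]
  map_smul' c x := by funext p; simp [mul_left_comm]

theorem pr_al (i : B) (a : I) : D.pr (al (i, a)) = D.d a • al i := by
  funext j
  change ∑ b, D.d b * al (i, a) (j, b) = _
  by_cases h : j = i <;> simp [al_apply, h]

theorem io_al (i : B) : D.io (al i) = ∑ a, D.d a • al (i, a) := by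
  funext ⟨j, b⟩
  change D.d b * al i j = _
  by_cases h : j = i <;> simp [al_apply, h, Finset.sum_apply]

theorem pr_nonneg {y : B × I → ℝ} (h : 0 ≤ y) : 0 ≤ D.pr y := fun _ =>
  Finset.sum_nonneg fun a _ => mul_nonneg (D.pos a).le (h _)

theorem sum_C (i j : B) (h : i ≠ j) (b : I) :
    ∑ a, D.d a * (D.C (i, a) (j, b) : ℝ) = cc (M i j) * D.d b := by
  rw [M.symmetric, ← D.eig j i h.symm b]
  exact Finset.sum_congr rfl fun a _ => by rw [C, if_neg h, D.symm, mul_comm]

theorem mixed_ext {F G : (B → ℝ) →ₗ[ℝ] (B × I → ℝ) →ₗ[ℝ] ℝ}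
    (h : ∀ i p, F (al i) (al p) = G (al i) (al p)) (x : B → ℝ) (y : B × I → ℝ) : F x y = G x y := by
  rw [eq_sum_al x, eq_sum_al y]
  simp [h]

theorem bf_io (x : B → ℝ) (y : B × I → ℝ) : bf D.mat (D.io x) y = bf M x (D.pr y) := by
  refine mixed_ext (F := bf D.mat ∘ₗ D.io) (G := (bf M).compl₂ D.pr) ?_ x y
  rintro i ⟨j, b⟩
  simp only [LinearMap.comp_apply, LinearMap.compl₂_apply, io_al, pr_al, map_sum, map_smul,
    LinearMap.sum_apply, LinearMap.smul_apply, smul_eq_mul, bf_mat, mul_sub, Finset.sum_sub_distrib]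
  by_cases h : i = j
  · subst h; simp [C, bf_al_self]
  · rw [D.sum_C i j h, bf_al_al]; simp [h]; ring

/-- The unfolded Coxeter system. -/
abbrev cs' : CoxeterSystem D.mat D.mat.Group := D.mat.toCoxeterSystem

/-- The image of a simple reflection. -/
noncomputable def S (i : B) : D.mat.Group :=
  ((Finset.univ : Finset I).toList.map fun a => D.cs'.simple (i, a)).prod

theorem rho_S (i : B) (y : B × I → ℝ) :
    rho D.cs' (D.S i) y = y - ∑ a, bf D.mat (al (i, a)) y • al (i, a) := by
  have : ∀ la : List I, la.Nodup → rho D.cs' (la.map fun a => D.cs'.simple (i, a)).prod y =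
      y - ∑ a ∈ la.toFinset, bf D.mat (al (i, a)) y • al (i, a) := by
    intro la hla
    induction la with
    | nil => simp
    | cons a la ih =>
      rw [List.nodup_cons] at hla
      rw [List.map_cons, List.prod_cons, rho_mul_apply, ih hla.2, rho_simple, refl_apply,
        List.toFinset_cons, Finset.sum_insert (by simpa using hla.1), map_sub, map_sum,
        Finset.sum_eq_zero (s := la.toFinset) (f := fun b => bf D.mat (al (i, a)) (_ • al (i, b)))]
      · rw [sub_zero]; abel
      · intro b hb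
        have : a ≠ b := fun e => hla.1 (by simpa [e] using hb)
        simp [bf_mat, C, this]
  rw [S, this _ (Finset.nodup_toList _), Finset.toList_toFinset]

variable {W : Type} [Group W] (cs : CoxeterSystem M W)

theorem pr_S (i : B) (y : B × I → ℝ) :
    D.pr (rho D.cs' (D.S i) y) = rho cs (cs.simple i) (D.pr y) := by
  rw [rho_S, rho_simple, refl_apply, ← bf_io, io_al]
  simp only [map_sub, map_sum, map_smul, pr_al, LinearMap.sum_apply, LinearMap.smul_apply,
    Finset.sum_smul, smul_smul, smul_eq_mul, mul_comm]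

theorem S_io (i : B) (x : B → ℝ) :
    rho D.cs' (D.S i) (D.io x) = D.io (rho cs (cs.simple i) x) := by
  rw [rho_S, rho_simple, refl_apply, map_sub, map_smul, io_al, Finset.smul_sum]
  congr 1
  refine Finset.sum_congr rfl fun a _ => ?_
  rw [bf_comm, bf_io, pr_al, map_smul, smul_smul, bf_comm, smul_eq_mul, mul_comm]

theorem nonneg_of_pr {γ' : B × I → ℝ} (h : IsRoot D.cs' γ') {γ : B → ℝ} (hγ : IsRoot cs γ)
    (h0 : 0 ≤ γ) {a : I} (e : D.pr γ' = D.d a • γ) : 0 ≤ γ' := by
  refine h.nonneg_or.resolve_right fun h1 => hγ.not_both h0 ?_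
  have := D.pr_nonneg (neg_nonneg.mpr h1)
  rw [map_neg, e, neg_nonneg] at this
  exact fun j => nonpos_of_mul_nonpos_right (this j) (D.pos a)

theorem S_liftable : M.IsLiftable D.S := by
  intro i j
  let cs := M.toCoxeterSystem
  have : ∀ (k : ℕ) y, D.pr (rho D.cs' ((D.S i * D.S j) ^ k) y) =
      rho cs ((cs.simple i * cs.simple j) ^ k) (D.pr y) := by
    intro k
    induction k with
    | zero => simp
    | succ k ih => intro y; simp only [pow_succ, rho_mul_apply, ih, D.pr_S cs]
  refine eq_one_of_nonneg (cs := D.cs') fun p => ?_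
  refine D.nonneg_of_pr cs ((isRoot_al p).rho _) (isRoot_al p.1) (al_nonneg _) (a := p.2) ?_
  rw [this, simple_mul_simple_pow, map_one, Module.End.one_apply, pr_al]

/-- The unfolding homomorphism. -/
noncomputable def F : W →* D.mat.Group := cs.lift ⟨_, D.S_liftable⟩

theorem F_simple (i : B) : D.F cs (cs.simple i) = D.S i := cs.lift_apply_simple _ i

theorem pr_F (z : W) (y : B × I → ℝ) : D.pr (rho D.cs' (D.F cs z) y) = rho cs z (D.pr y) := by
  induction z using cs.simple_induction_left with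
  | one => simp
  | mul_simple_left w i ih => rw [map_mul, rho_mul_apply, rho_mul_apply, F_simple, D.pr_S cs, ih]

theorem F_io (z : W) (x : B → ℝ) : rho D.cs' (D.F cs z) (D.io x) = D.io (rho cs z x) := by
  induction z using cs.simple_induction_left with
  | one => simp
  | mul_simple_left w i ih => rw [map_mul, rho_mul_apply, rho_mul_apply, F_simple, ih, D.S_io cs]

theorem exists_blk (t : W) : ∃ b : I → D.mat.Group, cs.IsReflection t →
    (∀ a, D.cs'.IsReflection (b a)) ∧ ((Finset.univ : Finset I).toList.map b).prod = D.F cs t ∧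
      D.io (rt cs t) = ∑ a, D.d a • rt D.cs' (b a) := by
  by_cases ht : cs.IsReflection t
  swap
  · exact ⟨fun _ => 1, fun h => (ht h).elim⟩
  obtain ⟨y, i, e⟩ := rt_root ht
  have e2 : t = y * cs.simple i * y⁻¹ := rho_injective (cs := cs) (by
    rw [rho_conj (rho_simple cs i), ← e, rho_eq_refl ht])
  refine ⟨fun a => D.F cs y * D.cs'.simple (i, a) * (D.F cs y)⁻¹, fun _ => ⟨fun a =>
    (D.cs'.isReflection_simple _).conj _, ?_, ?_⟩⟩
  · rw [e2, map_mul, map_mul, map_inv, F_simple, S, ← prod_map_conj, List.map_map]; rfl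
  · rw [e, ← D.F_io cs, io_al, map_sum]
    refine Finset.sum_congr rfl fun a _ => ?_
    rw [map_smul, rt_conj_of_nonneg (D.cs'.isReflection_simple _), rt_simple]
    rw [rt_simple]
    exact D.nonneg_of_pr cs ((isRoot_al _).rho _) (rt_root ht) (rt_nonneg ht) (a := a)
      (by rw [pr_F, pr_al, map_smul, e])

theorem F_wordProd (l : List B) :
    D.F cs (cs.wordProd l) = D.cs'.wordProd (l ×ˢ (Finset.univ : Finset I).toList) := by
  induction l with
  | nil => simp
  | cons i l ih =>
    rw [wordProd_cons, map_mul, ih, List.product_cons, wordProd_append, F_simple, S, wordProd,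
      wordProd, List.map_map]
    rfl

end Unf

theorem keyBound {W : Type} [Group W] {cs : CoxeterSystem M W} {l : List B}
    {E : (B → ℝ) →ₗ[ℝ] (B → ℝ) →ₗ[ℝ] ℝ} (hE : IsEuler M l E) : KeyBound cs l E := by
  classical
  obtain ⟨I, _, _, hI, ⟨D⟩⟩ := exists_unf M
  set lI := (Finset.univ : Finset I).toList with hlI
  let n : B × I → B × I → ℕ := fun p q => if E (al p.1) (al q.1) = 0 then 0 else D.C p q
  let E' : (B × I → ℝ) →ₗ[ℝ] (B × I → ℝ) →ₗ[ℝ] ℝ :=
    Matrix.toLinearMap₂' ℝ (Matrix.of fun p q => (if p = q then (1 : ℝ) else 0) - n p q)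
  have hn : ∀ p q, E' (al p) (al q) = (if p = q then 1 else 0) - n p q := fun p q => toLin_al _ p q
  have hone : ∀ i j, i ≠ j → E (al i) (al j) = 0 ∨ E (al j) (al i) = 0 := by
    have hsy : Std.Symm fun i j => E (al i) (al j) = 0 ∨ E (al j) (al i) = 0 := ⟨fun _ _ h => h.symm⟩
    exact fun i j h => (hE.pw.imp (S := fun i j => E (al i) (al j) = 0 ∨ E (al j) (al i) = 0)
      Or.inl).forall (hE.all i) (hE.all j) h
  have hsame : ∀ p q : B × I, p.1 = q.1 → n p q = 0 := fun p q h => by simp [n, Unf.C, h]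
  have hsum : ∀ i j, E (al i) (al j) + E (al j) (al i) = -cc (M i j) := fun i j => by
    rw [hE.symm, bf_al_al]
  have hnC : ∀ p q, n p q + n q p = D.C p q := by
    rintro ⟨i, a⟩ ⟨j, b⟩
    by_cases h : i = j
    · rw [hsame _ _ h, hsame _ _ h.symm]; simp [Unf.C, h]
    by_cases h1 : E (al i) (al j) = 0 <;> by_cases h2 : E (al j) (al i) = 0
    · have h3 := D.sum_C i j h b
      have h4 := hsum i j
      rw [h1, h2, add_zero, zero_eq_neg] at h4
      rw [h4, zero_mul, Finset.sum_eq_zero_iff_of_nonneg fun a _ =>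
        mul_nonneg (D.pos a).le (Nat.cast_nonneg _)] at h3
      have h5 := (mul_eq_zero.mp (h3 a (Finset.mem_univ a))).resolve_left (D.pos a).ne'
      simp only [n, h1, h2, if_true]
      exact_mod_cast h5.symm
    · simp [n, h1, h2, D.C_symm (j, b)]
    · simp [n, h1, h2]
    · exact ((hone i j h).elim h1 h2).elim
  have hE' : IsEuler D.mat (l ×ˢ lI) E' := by
    refine ⟨hE.nodup.product (Finset.nodup_toList _), fun p => ?_, fun x y => ?_, ?_⟩
    · exact List.mem_product.mpr ⟨hE.all _, by simp [hlI]⟩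
    · have : E' + E'.flip = bf D.mat := bilin_ext fun p q => by
        rw [LinearMap.add_apply, LinearMap.add_apply, LinearMap.flip_apply, hn, hn, D.bf_mat, ← hnC]
        by_cases h : p = q
        · simp [h]; ring
        · simp [h, Ne.symm h]; ring
      rw [← this]; rfl
    · change (l.flatMap fun i => lI.map (Prod.mk i)).Pairwise _
      rw [List.pairwise_flatMap]
      refine ⟨fun i _ => ?_, (hE.pw.and hE.nodup).imp fun {i j} h p hp q hq => ?_⟩
      · rw [List.pairwise_map]
        refine (Finset.nodup_toList _).imp fun {a b} h => ?_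
        rw [hn, hsame (i, a) (i, b) rfl, if_neg (by simpa using h)]; simp
      · obtain ⟨a, -, rfl⟩ := List.mem_map.mp hp
        obtain ⟨b, -, rfl⟩ := List.mem_map.mp hq
        rw [hn, if_neg (by simp [h.2])]; simp [n, h.1]
  have hK' : KeyBound D.cs' (l ×ˢ lI) E' := keyBound_quiver hE' (fun p => hsame p p rfl)
    (fun p q => by
      by_cases h : p.1 = q.1
      · exact Or.inl (hsame p q h)
      · exact (hone _ _ h).imp (fun h => by simp [n, h]) fun h => by simp [n, h]) hn
  have hio : ∀ x y, E' (D.io x) y = E x (D.pr y) := by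
    refine Unf.mixed_ext (F := E' ∘ₗ D.io) (G := E.compl₂ D.pr) ?_
    rintro i ⟨j, b⟩
    simp only [LinearMap.comp_apply, LinearMap.compl₂_apply, D.io_al, D.pr_al, map_sum, map_smul,
      LinearMap.sum_apply, LinearMap.smul_apply, smul_eq_mul, hn, mul_sub, Finset.sum_sub_distrib]
    by_cases h : i = j
    · subst h; simp [hsame, hE.self (isRoot_al (cs := cs) i)]
    by_cases h1 : E (al i) (al j) = 0
    · simp [n, h, h1]
    · have h2 := hsum i j
      rw [(hone i j h).resolve_left h1, add_zero] at h2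
      simp only [n, if_neg h1]
      rw [D.sum_C i j h, h2]; simp [h]; ring
  choose b hb using D.exists_blk cs
  let ub : List W → List D.mat.Group := fun L => L.flatMap fun t => lI.map (b t)
  have ub_prod : ∀ L : List W, (∀ t ∈ L, cs.IsReflection t) → (ub L).prod = D.F cs L.prod := by
    intro L hL
    induction L with
    | nil => simp [ub]
    | cons t L ih =>
      have := ih fun r hr => hL r (by simp [hr])
      simp only [ub, List.flatMap_cons, List.prod_append, List.prod_cons, map_mul] at this ⊢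
      rw [this, (hb t (hL t (by simp))).2.1]
  have ub_len : ∀ L : List W, (ub L).length = L.length * Fintype.card I := by
    intro L
    simp [ub, hlI, List.length_flatMap]
  have ub_red : ∀ L₁ L₂, Red cs l (L₁ ++ L₂) → Red D.cs' (l ×ˢ lI) (ub L₁ ++ ub L₂) := by
    intro L₁ L₂ h
    have e : ub L₁ ++ ub L₂ = ub (L₁ ++ L₂) := by simp [ub]
    rw [e]
    refine ⟨fun r hr => ?_, by rw [ub_prod _ h.refl, h.prod, D.F_wordProd], ?_⟩
    · obtain ⟨t, ht, hr⟩ := List.mem_flatMap.mp hr
      obtain ⟨a, -, rfl⟩ := List.mem_map.mp hr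
      exact (hb t (h.refl t ht)).1 a
    · rw [ub_len, h.len, List.length_product]; simp [hlI]
  have ub_mem : ∀ (L : List W) t a, t ∈ L → b t a ∈ ub L := fun L t a ht =>
    List.mem_flatMap.mpr ⟨t, ht, List.mem_map_of_mem (by simp [hlI])⟩
  intro L₁ L₂ hL θ hθ N hN
  have hr₂ : ∀ t ∈ L₂, cs.IsReflection t := fun t ht => hL.refl t (by simp [ht])
  have hE2 : ∀ t, cs.IsReflection t → ∀ y, E (rt cs t) (D.pr y) =
      ∑ a, D.d a * E' (rt D.cs' (b t a)) y := fun t ht y => by
    rw [← hio, (hb t ht).2.2]; simp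
  have hθ' : Adm D.cs' (l ×ˢ lI) E' (ub L₂).prod (θ ∘ₗ D.pr) := by
    intro y hy
    have a1 : ∀ t, Left cs l L₂.prod t → ∀ a, E' (rt D.cs' (b t a)) y ≤ 0 := by
      rintro t ⟨K₁, K₂, c1, c2, c3⟩ a
      refine hy _ ⟨_, _, ub_red _ _ c1, ?_, ub_mem _ _ _ c3⟩
      rw [ub_prod _ hr₂, ub_prod _ fun r hr => c1.refl r (by simp [hr]), c2]
    obtain ⟨a2, a3⟩ := hθ (D.pr y) fun t ht => by
      obtain ⟨K₁, K₂, c1, c2, c3⟩ := id ht
      rw [hE2 t (c1.refl t (by simp [c3]))]
      exact Finset.sum_nonpos fun a _ => mul_nonpos_of_nonneg_of_nonpos (D.pos a).le (a1 t ht a)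
    refine ⟨a2, fun e t' ht' => ht'.zero_of hE' (ub_red _ _ hL) fun r hr => ?_⟩
    obtain ⟨t, ht, hr⟩ := List.mem_flatMap.mp hr
    obtain ⟨a, -, rfl⟩ := List.mem_map.mp hr
    have a4 : Left cs l L₂.prod t := ⟨L₁, L₂, hL, rfl, ht⟩
    have a5 := a3 e t a4
    rw [hE2 t (hL.refl t (by simp [ht])), Finset.sum_eq_zero_iff_of_nonpos fun a _ =>
      mul_nonpos_of_nonneg_of_nonpos (D.pos a).le (a1 t a4 a)] at a5
    exact (mul_eq_zero.mp (a5 a (Finset.mem_univ a))).resolve_left (D.pos a).ne'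
  choose z j hz using fun γ : N => (hN γ.1 γ.2).1.1
  let g : N × I → (B × I → ℝ) := fun p => rho D.cs' (D.F cs (z p.1)) (al (j p.1, p.2))
  have g1 : ∀ p, D.pr (g p) = D.d p.2 • p.1.1 := fun p => by
    rw [D.pr_F, D.pr_al, map_smul, ← hz]
  have g2 : Function.Injective g := by
    rintro ⟨γ, a⟩ ⟨γ', a'⟩ e
    have e1 := (g1 (γ, a)).symm.trans ((congrArg D.pr e).trans (g1 (γ', a')))
    have e2 : γ = γ' := Subtype.ext ((hN _ γ'.2).1.1.eq_of_smul_nonneg (hN _ γ.2).1.1
      (hN _ γ'.2).1.2.1 (hN _ γ.2).1.2.1 (c := (D.d a)⁻¹ * D.d a') (by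
        rw [mul_smul, ← e1, smul_smul, inv_mul_cancel₀ (D.pos a).ne', one_smul]))
    subst e2
    have e3 := congrFun (rho_apply_injective D.cs' _ e) (j γ, a)
    simp only [al_apply, if_true, Prod.mk.injEq, true_and] at e3
    by_cases h : a = a'
    · rw [h]
    · simp [h] at e3
  have h1 := hK' _ _ (ub_red _ _ hL) _ hθ' (Finset.univ.image g) fun γ' hγ' => by
    obtain ⟨p, -, rfl⟩ := Finset.mem_image.mp hγ'
    obtain ⟨⟨c1, c2, c3⟩, c4⟩ := hN _ p.1.2
    have c5 : IsRoot D.cs' (g p) := (isRoot_al _).rho _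
    refine ⟨⟨c5, D.nonneg_of_pr cs c5 c1 c2 (g1 p), ?_⟩, ?_⟩
    · rw [ub_prod _ hr₂, ← map_inv, ← neg_nonneg]
      refine D.nonneg_of_pr cs (c5.rho _).neg (c1.rho _).neg (neg_nonneg.mpr c3) (a := p.2) ?_
      rw [map_neg, D.pr_F, g1, map_smul, smul_neg]
    · rw [LinearMap.comp_apply, g1, map_smul, c4, smul_zero]
  rw [Finset.card_image_of_injective _ g2, ub_len, Finset.card_univ, Fintype.card_prod,
    Fintype.card_coe] at h1
  exact Nat.le_of_mul_le_mul_right h1 Fintype.card_pos

end Pool.Agent.MP_d5a4a4_al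

end
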